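import Pool.Agent.H730R3.HC.Defs

set_option autoImplicit false

namespace H730HC

open Finset
open scoped ComplexConjugate

universe u v

variable {M : Type u} [CStarAlgebra M] {τ : M →ₗ[ℂ] ℂ}



section T14
variable {A : Type u} {B : Type v} [NormedRing A] [NormedAlgebra ℂ A] [NormedAddCommGroup B] [NormedSpace ℂ B]

theorem T14_shift_zero {R : Type u} (a : ℕ → R) (x : R) :
    shift (Function.update a 0 x) = shift a := by
  funext k
  simp [shift, Function.update_apply]

theorem T14_shift_succ {R : Type u} (a : ℕ → R) (k : ℕ) (x : R) :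
    shift (Function.update a (k + 1) x) = Function.update (shift a) k x := by
  funext l
  simp [shift, Function.update_apply]

theorem T14_mu_lt {R : Type u} [Mul R] (i k : ℕ) (a : ℕ → R) (x : R) (h : k < i) :
    mu i (Function.update a k x) = Function.update (mu i a) k x := by
  funext l
  simp only [mu, Function.update_apply]
  split_ifs <;> first | rfl | omega

theorem T14_mu_eq {R : Type u} [Mul R] (i : ℕ) (a : ℕ → R) (x : R) :
    mu i (Function.update a i x) = Function.update (mu i a) i (x * a (i + 1)) := by
  funext l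
  simp only [mu, Function.update_apply]
  split_ifs <;> first | rfl | omega

theorem T14_mu_eq' {R : Type u} [Mul R] (i : ℕ) (a : ℕ → R) (x : R) :
    mu i (Function.update a (i + 1) x) = Function.update (mu i a) i (a i * x) := by
  funext l
  simp only [mu, Function.update_apply]
  split_ifs <;> first | rfl | omega

theorem T14_mu_gt {R : Type u} [Mul R] (i k : ℕ) (a : ℕ → R) (x : R) (h : i < k) :
    mu i (Function.update a (k + 1) x) = Function.update (mu i a) k x := by
  funext l
  simp only [mu, Function.update_apply]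
  split_ifs <;> first | rfl | omega

theorem T14_ins_lt {R : Type u} (j k : ℕ) (a : ℕ → R) (x y : R) (h : k < j) :
    ins j x (Function.update a k y) = Function.update (ins j x a) k y := by
  funext l
  simp only [ins, Function.update_apply]
  split_ifs <;> first | rfl | omega

theorem T14_ins_ge {R : Type u} (j k : ℕ) (a : ℕ → R) (x y : R) (h : j ≤ k) :
    ins j x (Function.update a k y) = Function.update (ins j x a) (k + 1) y := by
  funext l
  simp only [ins, Function.update_apply]
  split_ifs <;> first | rfl | omega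

theorem T14_mu_prod (j m : ℕ) (h : j + 1 ≤ m) (a : ℕ → A) :
    ∏ k ∈ range m, ‖mu j a k‖ ≤ ∏ k ∈ range (m + 1), ‖a k‖ := by
  induction m, h using Nat.le_induction with
  | base =>
    rw [Finset.prod_range_succ, Finset.prod_range_succ _ (j + 1), Finset.prod_range_succ _ j]
    have h1 : ∏ k ∈ range j, ‖mu j a k‖ = ∏ k ∈ range j, ‖a k‖ := by
      refine Finset.prod_congr rfl fun k hk => ?_
      rw [Finset.mem_range] at hk
      simp [mu, hk]
    have h2 : mu j a j = a j * a (j + 1) := by simp [mu]
    rw [h1, h2, mul_assoc]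
    exact mul_le_mul_of_nonneg_left (norm_mul_le _ _) (Finset.prod_nonneg fun _ _ => norm_nonneg _)
  | succ m hm ih =>
    rw [Finset.prod_range_succ, Finset.prod_range_succ _ (m + 1)]
    have h2 : mu j a m = a (m + 1) := by
      simp only [mu]
      rw [if_neg (by omega), if_neg (by omega)]
    rw [h2]
    exact mul_le_mul_of_nonneg_right ih (norm_nonneg _)

theorem T14_ins_prod (j m : ℕ) (h : j ≤ m) (a : ℕ → A) (x : A) :
    ∏ k ∈ range (m + 1), ‖ins j x a k‖ = ‖x‖ * ∏ k ∈ range m, ‖a k‖ := by
  induction m, h using Nat.le_induction with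
  | base =>
    rw [Finset.prod_range_succ]
    have h1 : ∏ k ∈ range j, ‖ins j x a k‖ = ∏ k ∈ range j, ‖a k‖ := by
      refine Finset.prod_congr rfl fun k hk => ?_
      rw [Finset.mem_range] at hk
      simp [ins, hk]
    have h2 : ins j x a j = x := by simp [ins]
    rw [h1, h2, mul_comm]
  | succ m hm ih =>
    rw [Finset.prod_range_succ, ih, Finset.prod_range_succ _ m]
    have h2 : ins j x a (m + 1) = a m := by
      simp only [ins]
      rw [if_neg (by omega), if_neg (by omega), Nat.add_sub_cancel]
    rw [h2, mul_assoc]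

theorem IsB_zero (m : ℕ) : IsB m (fun _ : ℕ → A => (0 : B)) := by
  refine ⟨fun _ _ _ => rfl, fun _ _ _ _ _ => by simp, fun _ _ _ _ _ => by simp, 0, le_rfl, ?_⟩
  intro a
  simp

theorem IsB_add {m : ℕ} {f g : (ℕ → A) → B} (hf : IsB m f) (hg : IsB m g) :
    IsB m (fun a => f a + g a) := by
  obtain ⟨C, hC, hf4⟩ := hf.bd
  obtain ⟨D, hD, hg4⟩ := hg.bd
  refine ⟨?_, ?_, ?_, C + D, add_nonneg hC hD, ?_⟩
  · intro a b h
    show f a + g a = f b + g b
    rw [hf.dep a b h, hg.dep a b h]
  · intro a k x y hk
    show f _ + g _ = (f _ + g _) + (f _ + g _)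
    rw [hf.add a k x y hk, hg.add a k x y hk]
    abel
  · intro a k c x hk
    show f _ + g _ = c • (f _ + g _)
    rw [hf.smul a k c x hk, hg.smul a k c x hk, smul_add]
  · intro a
    calc ‖f a + g a‖ ≤ ‖f a‖ + ‖g a‖ := norm_add_le _ _
      _ ≤ C * ∏ k ∈ range m, ‖a k‖ + D * ∏ k ∈ range m, ‖a k‖ := add_le_add (hf4 a) (hg4 a)
      _ = _ := by ring

theorem IsB_smul {m : ℕ} {f : (ℕ → A) → B} (c : ℂ) (hf : IsB m f) : IsB m (fun a => c • f a) := by
  obtain ⟨C, hC, hf4⟩ := hf.bd
  refine ⟨?_, ?_, ?_, ‖c‖ * C, mul_nonneg (norm_nonneg _) hC, ?_⟩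
  · intro a b h
    show c • f a = c • f b
    rw [hf.dep a b h]
  · intro a k x y hk
    show c • f _ = c • f _ + c • f _
    rw [hf.add a k x y hk, smul_add]
  · intro a k d x hk
    show c • f _ = d • c • f _
    rw [hf.smul a k d x hk, smul_comm]
  · intro a
    show ‖c • f a‖ ≤ _
    rw [norm_smul, mul_assoc]
    exact mul_le_mul_of_nonneg_left (hf4 a) (norm_nonneg _)

theorem IsB_sum {m : ℕ} {ι : Type*} (s : Finset ι) {f : ι → (ℕ → A) → B} (hf : ∀ i ∈ s, IsB m (f i)) :
    IsB m (fun a => ∑ i ∈ s, f i a) := by
  classical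
  induction s using Finset.induction_on with
  | empty => simpa using (IsB_zero m : IsB m (fun _ : ℕ → A => (0 : B)))
  | insert i s hi ih =>
    have h1 := ih fun j hj => hf j (Finset.mem_insert_of_mem hj)
    have h2 := IsB_add (hf i (Finset.mem_insert_self i s)) h1
    simpa only [Finset.sum_insert hi] using h2

theorem IsB_comp {m : ℕ} {B' : Type*} [NormedAddCommGroup B'] [NormedSpace ℂ B'] {f : (ℕ → A) → B}
    (hf : IsB m f) (l : B →L[ℂ] B') : IsB m (fun a => l (f a)) := by
  obtain ⟨C, hC, hf4⟩ := hf.bd
  refine ⟨?_, ?_, ?_, ‖l‖ * C, mul_nonneg (norm_nonneg _) hC, ?_⟩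
  · intro a b h
    show l (f a) = l (f b)
    rw [hf.dep a b h]
  · intro a k x y hk
    show l (f _) = l (f _) + l (f _)
    rw [hf.add a k x y hk, map_add]
  · intro a k d x hk
    show l (f _) = d • l (f _)
    rw [hf.smul a k d x hk, map_smul]
  · intro a
    show ‖l (f a)‖ ≤ _
    rw [mul_assoc]
    exact (l.le_opNorm _).trans (mul_le_mul_of_nonneg_left (hf4 a) (norm_nonneg _))

theorem T14_face0 {m : ℕ} {f : (ℕ → A) → A} (hf : IsB m f) :
    IsB (m + 1) (fun a => a 0 * f (shift a)) := by
  obtain ⟨C, hC, hf4⟩ := hf.bd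
  refine ⟨?_, ?_, ?_, C, hC, ?_⟩
  · intro a b h
    show a 0 * f (shift a) = b 0 * f (shift b)
    rw [h 0 (Nat.succ_pos _), hf.dep (shift a) (shift b) fun k hk => h (k + 1) (by omega)]
  · intro a k x y hk
    show (Function.update a k (x + y)) 0 * f (shift (Function.update a k (x + y))) =
      (Function.update a k x) 0 * f (shift (Function.update a k x)) +
      (Function.update a k y) 0 * f (shift (Function.update a k y))
    rcases k with _ | k
    · simp only [T14_shift_zero, Function.update_self, add_mul]
    · simp only [T14_shift_succ]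
      rw [hf.add (shift a) k x y (by omega)]
      simp [Function.update_apply, mul_add]
  · intro a k c x hk
    show (Function.update a k (c • x)) 0 * f (shift (Function.update a k (c • x))) =
      c • ((Function.update a k x) 0 * f (shift (Function.update a k x)))
    rcases k with _ | k
    · simp only [T14_shift_zero, Function.update_self, smul_mul_assoc]
    · simp only [T14_shift_succ]
      rw [hf.smul (shift a) k c x (by omega)]
      simp [Function.update_apply, mul_smul_comm]
  · intro a
    rw [Finset.prod_range_succ']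
    calc ‖a 0 * f (shift a)‖ ≤ ‖a 0‖ * ‖f (shift a)‖ := norm_mul_le _ _
      _ ≤ ‖a 0‖ * (C * ∏ k ∈ range m, ‖shift a k‖) :=
          mul_le_mul_of_nonneg_left (hf4 _) (norm_nonneg _)
      _ = C * ((∏ k ∈ range m, ‖a (k + 1)‖) * ‖a 0‖) := by
          simp only [shift]; ring

theorem T14_faceM {m j : ℕ} (hj : j < m) {f : (ℕ → A) → A} (hf : IsB m f) :
    IsB (m + 1) (fun a => f (mu j a)) := by
  obtain ⟨C, hC, hf4⟩ := hf.bd
  refine ⟨?_, ?_, ?_, C, hC, ?_⟩
  · intro a b h
    refine hf.dep _ _ fun k hk => ?_
    simp only [mu]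
    rw [h k (by omega), h j (by omega), h (j + 1) (by omega), h (k + 1) (by omega)]
  · intro a k x y hk
    show f (mu j (Function.update a k (x + y))) = f (mu j (Function.update a k x)) +
      f (mu j (Function.update a k y))
    rcases lt_trichotomy k j with h | h | h
    · simp only [T14_mu_lt j k a _ h]
      exact hf.add _ _ _ _ (by omega)
    · subst h
      simp only [T14_mu_eq, add_mul]
      exact hf.add _ _ _ _ hj
    · obtain ⟨k, rfl⟩ : ∃ l, k = l + 1 := ⟨k - 1, by omega⟩
      rcases Nat.eq_or_lt_of_le (Nat.lt_succ_iff.1 h) with h' | h'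
      · subst h'
        simp only [T14_mu_eq', mul_add]
        exact hf.add _ _ _ _ hj
      · simp only [T14_mu_gt j k a _ h']
        exact hf.add _ _ _ _ (by omega)
  · intro a k c x hk
    show f (mu j (Function.update a k (c • x))) = c • f (mu j (Function.update a k x))
    rcases lt_trichotomy k j with h | h | h
    · simp only [T14_mu_lt j k a _ h]
      exact hf.smul _ _ _ _ (by omega)
    · subst h
      simp only [T14_mu_eq, smul_mul_assoc]
      exact hf.smul _ _ _ _ hj
    · obtain ⟨k, rfl⟩ : ∃ l, k = l + 1 := ⟨k - 1, by omega⟩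
      rcases Nat.eq_or_lt_of_le (Nat.lt_succ_iff.1 h) with h' | h'
      · subst h'
        simp only [T14_mu_eq', mul_smul_comm]
        exact hf.smul _ _ _ _ hj
      · simp only [T14_mu_gt j k a _ h']
        exact hf.smul _ _ _ _ (by omega)
  · intro a
    exact (hf4 _).trans (mul_le_mul_of_nonneg_left (T14_mu_prod j m hj a) hC)

theorem T14_faceL {m : ℕ} {f : (ℕ → A) → A} (hf : IsB m f) :
    IsB (m + 1) (fun a => f a * a m) := by
  obtain ⟨C, hC, hf4⟩ := hf.bd
  have hupd : ∀ (a : ℕ → A) (x : A), f (Function.update a m x) = f a := fun a x =>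
    hf.dep _ _ fun k hk => by rw [Function.update_of_ne (by omega)]
  refine ⟨?_, ?_, ?_, C, hC, ?_⟩
  · intro a b h
    show f a * a m = f b * b m
    rw [h m (Nat.lt_succ_self _), hf.dep a b fun k hk => h k (by omega)]
  · intro a k x y hk
    show f (Function.update a k (x + y)) * (Function.update a k (x + y)) m =
      f (Function.update a k x) * (Function.update a k x) m +
      f (Function.update a k y) * (Function.update a k y) m
    rcases Nat.eq_or_lt_of_le (Nat.lt_succ_iff.1 hk) with h | h
    · subst h
      simp only [hupd, Function.update_self, mul_add]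
    · rw [hf.add a k x y h]
      simp [Function.update_of_ne (show m ≠ k by omega), add_mul]
  · intro a k c x hk
    show f (Function.update a k (c • x)) * (Function.update a k (c • x)) m =
      c • (f (Function.update a k x) * (Function.update a k x) m)
    rcases Nat.eq_or_lt_of_le (Nat.lt_succ_iff.1 hk) with h | h
    · subst h
      simp only [hupd, Function.update_self, mul_smul_comm]
    · rw [hf.smul a k c x h]
      simp [Function.update_of_ne (show m ≠ k by omega), smul_mul_assoc]
  · intro a
    rw [Finset.prod_range_succ]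
    calc ‖f a * a m‖ ≤ ‖f a‖ * ‖a m‖ := norm_mul_le _ _
      _ ≤ (C * ∏ k ∈ range m, ‖a k‖) * ‖a m‖ := mul_le_mul_of_nonneg_right (hf4 _) (norm_nonneg _)
      _ = _ := by ring

theorem IsB_face {m i : ℕ} (hi : i ≤ m + 1) {f : (ℕ → A) → A} (hf : IsB m f) :
    IsB (m + 1) (face m i f) := by
  rcases Nat.eq_zero_or_pos i with h0 | h0
  · have : face m i f = fun a => a 0 * f (shift a) := by
      funext a; simp [face, h0]
    rw [this]
    exact T14_face0 hf
  · rcases Nat.lt_or_ge m i with h1 | h1
    · have : face m i f = fun a => f a * a m := by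
        funext a
        simp only [face]
        rw [if_neg (by omega), if_neg (by omega)]
      rw [this]
      exact T14_faceL hf
    · have : face m i f = fun a => f (mu (i - 1) a) := by
        funext a
        simp only [face]
        rw [if_neg (by omega), if_pos h1]
      rw [this]
      exact T14_faceM (by omega) hf

theorem IsB_dd {m : ℕ} {f : (ℕ → A) → A} (hf : IsB m f) : IsB (m + 1) (dd m f) := by
  have h := IsB_sum (m := m + 1) (range (m + 2)) (f := fun i a => ((-1 : ℂ) ^ i) • face m i f a)
    (fun i hi => IsB_smul _ (IsB_face (by rw [Finset.mem_range] at hi; omega) hf))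
  exact h

theorem IsB_ins {m j : ℕ} (hj : j ≤ m) {f : (ℕ → A) → B} (hf : IsB (m + 1) f) (x : A) :
    IsB m (fun a => f (ins j x a)) := by
  obtain ⟨C, hC, hf4⟩ := hf.bd
  refine ⟨?_, ?_, ?_, C * ‖x‖, mul_nonneg hC (norm_nonneg _), ?_⟩
  · intro a b h
    refine hf.dep _ _ fun k hk => ?_
    simp only [ins]
    split_ifs with h1 h2
    · exact h k (by omega)
    · rfl
    · exact h (k - 1) (by omega)
  · intro a k y z hk
    show f (ins j x (Function.update a k (y + z))) = f (ins j x (Function.update a k y)) +
      f (ins j x (Function.update a k z))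
    rcases Nat.lt_or_ge k j with h | h
    · simp only [T14_ins_lt j k a x _ h]
      exact hf.add _ _ _ _ (by omega)
    · simp only [T14_ins_ge j k a x _ h]
      exact hf.add _ _ _ _ (by omega)
  · intro a k c y hk
    show f (ins j x (Function.update a k (c • y))) = c • f (ins j x (Function.update a k y))
    rcases Nat.lt_or_ge k j with h | h
    · simp only [T14_ins_lt j k a x _ h]
      exact hf.smul _ _ _ _ (by omega)
    · simp only [T14_ins_ge j k a x _ h]
      exact hf.smul _ _ _ _ (by omega)
  · intro a
    refine (hf4 _).trans (le_of_eq ?_)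
    rw [T14_ins_prod j m hj a x]
    ring

end T14

end H730HC
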