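import Pool.Agent.H730R3.HC.Defs

set_option autoImplicit false

namespace H730HC

open Finset
open scoped ComplexConjugate

universe u v

variable {M : Type u} [CStarAlgebra M] {τ : M →ₗ[ℂ] ℂ}



private theorem t01_symm (h : IsTracial M τ) (x y : M) :
    conj (τ (star y * x)) = τ (star x * y) := by
  have h1 := h.real (x + y)
  have h2 := h.real (x + Complex.I • y)
  have hx := h.real x
  have hy := h.real y
  have e1 : τ (star (x + y) * (x + y)) =
      τ (star x * x) + τ (star x * y) + τ (star y * x) + τ (star y * y) := by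
    rw [star_add, add_mul, mul_add, mul_add]
    simp only [map_add]
    ring
  have e2 : τ (star (x + Complex.I • y) * (x + Complex.I • y)) =
      τ (star x * x) + Complex.I * τ (star x * y) - Complex.I * τ (star y * x)
        + τ (star y * y) := by
    rw [star_add, star_smul, add_mul, mul_add, mul_add]
    simp only [smul_mul_assoc, mul_smul_comm, map_add, map_smul, smul_eq_mul, Complex.star_def,
      Complex.conj_I]
    linear_combination (- τ (star y * y)) * Complex.I_mul_I
  rw [e1] at h1
  rw [e2] at h2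
  simp only [Complex.add_im, Complex.sub_im, Complex.mul_im, Complex.I_re, Complex.I_im] at h1 h2
  apply Complex.ext
  · rw [Complex.conj_re]
    linarith
  · rw [Complex.conj_im]
    linarith

theorem tau_star (hτ : IsTracial M τ) (x : M) : τ (star x) = conj (τ x) := by
  have h1 := t01_symm hτ x 1
  rw [star_one, one_mul, mul_one] at h1
  exact h1.symm

theorem sq_nonneg' (hτ : IsTracial M τ) (x : M) : 0 ≤ sq τ x := hτ.nonneg x

theorem sq_star (hτ : IsTracial M τ) (x : M) : sq τ (star x) = sq τ x := by
  unfold sq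
  rw [star_star, hτ.comm]

theorem sq_eq_zero (hτ : IsTracial M τ) {x : M} (h : sq τ x = 0) : x = 0 := hτ.faithful x h

theorem sq_mul_left (hτ : IsTracial M τ) (a x : M) : sq τ (a * x) ≤ ‖a‖ ^ 2 * sq τ x := by
  letI := CStarAlgebra.spectralOrder M
  haveI := CStarAlgebra.spectralOrderedRing M
  have h1 : star a * a ≤ algebraMap ℝ M (‖a‖ ^ 2) := CStarAlgebra.star_mul_le_algebraMap_norm_sq
  obtain ⟨d, hd⟩ := CStarAlgebra.nonneg_iff_eq_star_mul_self.1 (sub_nonneg.2 h1)
  have h2 := hτ.nonneg (d * x)
  have e : star (d * x) * (d * x) =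
      ((‖a‖ ^ 2 : ℝ) : ℂ) • (star x * x) - star (a * x) * (a * x) := by
    have e1 : star (d * x) * (d * x) = star x * (star d * d) * x := by
      rw [star_mul]
      simp only [mul_assoc]
    have e2 : star (a * x) * (a * x) = star x * (star a * a) * x := by
      rw [star_mul]
      simp only [mul_assoc]
    rw [e1, e2, ← hd, mul_sub, sub_mul]
    congr 1
    rw [Algebra.algebraMap_eq_smul_one, mul_smul_comm, mul_one, smul_mul_assoc,
      Complex.coe_smul]
  rw [e, map_sub, map_smul, smul_eq_mul, Complex.sub_re, Complex.re_ofReal_mul] at h2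
  unfold sq
  linarith

theorem sq_mul_right (hτ : IsTracial M τ) (a x : M) : sq τ (x * a) ≤ ‖a‖ ^ 2 * sq τ x := by
  rw [← sq_star hτ (x * a), star_mul, ← sq_star hτ x, ← norm_star a]
  exact sq_mul_left hτ _ _

theorem sq_le_norm (hτ : IsTracial M τ) (x : M) : sq τ x ≤ ‖x‖ ^ 2 := by
  have h1 := sq_mul_left hτ x 1
  have h2 : sq τ (1 : M) = 1 := by
    unfold sq
    rw [star_one, one_mul, hτ.one, Complex.one_re]
  rwa [mul_one, h2, mul_one] at h1

theorem sq_unitary (hτ : IsTracial M τ) (v : unitary M) (x : M) : sq τ ((v : M) * x * star (v : M)) = sq τ x := by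
  unfold sq
  have h1 : star (v : M) * (v : M) = 1 := Unitary.star_mul_self_of_mem v.2
  have e : star ((v : M) * x * star (v : M)) * ((v : M) * x * star (v : M)) =
      (v : M) * (star x * x * star (v : M)) := by
    rw [star_mul, star_mul, star_star]
    calc (v : M) * (star x * star (v : M)) * ((v : M) * x * star (v : M))
        = (v : M) * (star x * (star (v : M) * (v : M)) * x * star (v : M)) := by
          simp only [mul_assoc]
      _ = _ := by rw [h1, mul_one]
  rw [e, hτ.comm, mul_assoc, h1, mul_one]

theorem cs_sq (hτ : IsTracial M τ) (x y : M) : ((τ (star x * y)).re) ^ 2 ≤ sq τ x * sq τ y := by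
  have h : ∀ t : ℝ, 0 ≤ sq τ y * (t * t) + 2 * (τ (star x * y)).re * t + sq τ x := by
    intro t
    have h1 := hτ.nonneg (x + (t : ℂ) • y)
    have e2 : τ (star (x + (t : ℂ) • y) * (x + (t : ℂ) • y)) =
        τ (star x * x) + (t : ℂ) * τ (star x * y) + (t : ℂ) * τ (star y * x)
          + (t * t : ℂ) * τ (star y * y) := by
      rw [star_add, star_smul, add_mul, mul_add, mul_add]
      simp only [smul_mul_assoc, mul_smul_comm, map_add, map_smul, smul_eq_mul, Complex.star_def,
        Complex.conj_ofReal]
      ring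
    have h3 := congrArg Complex.re (t01_symm hτ x y)
    rw [Complex.conj_re] at h3
    rw [e2, ← Complex.ofReal_mul] at h1
    simp only [Complex.add_re, Complex.re_ofReal_mul] at h1
    rw [h3] at h1
    unfold sq
    nlinarith
  have h2 := discrim_le_zero h
  unfold discrim at h2
  nlinarith

theorem sq_sub (hτ : IsTracial M τ) (x y : M) :
    sq τ (x - y) = sq τ x - 2 * (τ (star x * y)).re + sq τ y := by
  have e2 : τ (star (x - y) * (x - y)) =
      τ (star x * x) - τ (star x * y) - τ (star y * x) + τ (star y * y) := by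
    rw [star_sub, sub_mul, mul_sub, mul_sub]
    simp only [map_sub]
    ring
  have h3 := congrArg Complex.re (t01_symm hτ x y)
  rw [Complex.conj_re] at h3
  unfold sq
  rw [e2]
  simp only [Complex.add_re, Complex.sub_re]
  rw [h3]
  ring

theorem sq_smul (hτ : IsTracial M τ) (c : ℂ) (x : M) : sq τ (c • x) = ‖c‖ ^ 2 * sq τ x := by
  unfold sq
  have e : τ (star (c • x) * (c • x)) = ((‖c‖ ^ 2 : ℝ) : ℂ) * τ (star x * x) := by
    rw [star_smul, smul_mul_assoc, mul_smul_comm, smul_smul, map_smul, smul_eq_mul,
      Complex.star_def, ← Complex.normSq_eq_conj_mul_self, Complex.normSq_eq_norm_sq]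
  rw [e, Complex.re_ofReal_mul]

theorem re_le_norm (hτ : IsTracial M τ) (x : M) : |(τ x).re| ≤ ‖x‖ := by
  have h1 := cs_sq hτ 1 x
  have h2 : sq τ (1 : M) = 1 := by
    unfold sq
    rw [star_one, one_mul, hτ.one, Complex.one_re]
  rw [star_one, one_mul, h2, one_mul] at h1
  exact abs_le_of_sq_le_sq (h1.trans (sq_le_norm hτ x)) (norm_nonneg x)

theorem uniq (hτ : IsTracial M τ) {x y : M} (h : ∀ z, (τ (x * z)).re = (τ (y * z)).re) : x = y := by
  have h1 := h (star (x - y))
  have h2 : sq τ (star (x - y)) = 0 := by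
    unfold sq
    rw [star_star, sub_mul, map_sub, Complex.sub_re, h1, sub_self]
  have h3 := sq_eq_zero hτ h2
  have h4 := congrArg star h3
  rw [star_star, star_zero] at h4
  exact sub_eq_zero.1 h4

end H730HC
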