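import Pool.Agent.H730R3.HC.Defs
import Pool.Agent.H730R3.HC.T01

set_option autoImplicit false

namespace H730HC

open Finset
open scoped ComplexConjugate

universe u v

variable {M : Type u} [CStarAlgebra M] {τ : M →ₗ[ℂ] ℂ}



theorem T02_pre (hτ : IsTracial M τ) : ∃ (H : Type u) (_ : NormedAddCommGroup H)
    (_ : InnerProductSpace ℂ H) (L : M ≃ₗ[ℂ] H), ∀ x y, inner ℂ (L x) (L y) = τ (star x * y) := by
  obtain ⟨H0, i1, i2, L⟩ : ∃ (H : Type u) (_ : AddCommGroup H) (_ : Module ℂ H), Nonempty (M ≃ₗ[ℂ] H) :=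
    ⟨ULift M, inferInstance, inferInstance, ⟨ULift.moduleEquiv.symm⟩⟩
  obtain ⟨L⟩ := L
  let core : InnerProductSpace.Core ℂ H0 :=
    { inner := fun a b => τ (star (L.symm a) * L.symm b)
      conj_inner_symm := fun a b => by
        rw [← tau_star hτ, star_mul, star_star]
      re_inner_nonneg := fun a => hτ.nonneg _
      add_left := fun a b c => by
        rw [map_add, star_add, add_mul, map_add]
      smul_left := fun a b r => by
        rw [map_smul, star_smul, smul_mul_assoc, map_smul, smul_eq_mul]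
        rfl
      definite := fun a ha => by
        have h1 : (τ (star (L.symm a) * L.symm a)).re = 0 := by rw [ha]; rfl
        have h2 := hτ.faithful _ h1
        exact (LinearEquiv.map_eq_zero_iff L.symm).mp h2 }
  let n1 : NormedAddCommGroup H0 := core.toNormedAddCommGroup
  let n2 : InnerProductSpace ℂ H0 := InnerProductSpace.ofCore core.toCore
  refine ⟨H0, n1, n2, L, fun x y => ?_⟩
  change τ (star (L.symm (L x)) * L.symm (L y)) = _
  rw [LinearEquiv.symm_apply_apply, LinearEquiv.symm_apply_apply]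

theorem exists_gns (hτ : IsTracial M τ) : ∃ (H : Type u) (_ : NormedAddCommGroup H)
    (_ : InnerProductSpace ℂ H) (_ : CompleteSpace H) (Λ : M →ₗ[ℂ] H),
    DenseRange Λ ∧ ∀ x y, inner ℂ (Λ x) (Λ y) = τ (star x * y) := by
  obtain ⟨H, _, _, L, hL⟩ := T02_pre hτ
  refine ⟨UniformSpace.Completion H, inferInstance, inferInstance, inferInstance,
    (UniformSpace.Completion.toComplL (𝕜 := ℂ) (E := H)).toLinearMap.comp L.toLinearMap, ?_, ?_⟩
  · have h1 : DenseRange ((↑) : H → UniformSpace.Completion H) :=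
      UniformSpace.Completion.denseRange_coe
    have h2 : Function.Surjective L := L.surjective
    have h3 := h1.comp h2.denseRange (UniformSpace.Completion.continuous_coe H)
    exact h3
  · intro x y
    rw [← hL]
    exact UniformSpace.Completion.inner_coe (L x) (L y)

theorem ball_closed (hτ : IsTracial M τ) {H : Type u} [NormedAddCommGroup H] [InnerProductSpace ℂ H]
    [CompleteSpace H] (Λ : M →ₗ[ℂ] H) (hΛ : ∀ x y, inner ℂ (Λ x) (Λ y) = τ (star x * y)) (C : ℝ) :
    IsClosed (Λ '' {x | ‖x‖ ≤ C}) := by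
  have hnorm : ∀ x, (τ (star x * x)).re = ‖Λ x‖ ^ 2 := by
    intro x
    rw [← hΛ, inner_self_eq_norm_sq_to_K]
    norm_cast
  rcases lt_trichotomy C 0 with hC | hC | hC
  · have : {x : M | ‖x‖ ≤ C} = ∅ := by
      ext x
      simp only [Set.mem_ofPred_eq, Set.mem_empty_iff_false, iff_false, not_le]
      exact lt_of_lt_of_le hC (norm_nonneg x)
    rw [this, Set.image_empty]
    exact isClosed_empty
  · have : {x : M | ‖x‖ ≤ C} = {0} := by
      ext x
      simp [hC]
    rw [this, Set.image_singleton]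
    exact isClosed_singleton
  · refine IsSeqClosed.isClosed ?_
    intro ξ p hξ hp
    choose x hx hxξ using hξ
    have hC' : (C : ℂ) ≠ 0 := by exact_mod_cast hC.ne'
    set w : ℕ → M := fun k => ((C : ℂ)⁻¹) • x k with hw
    have hw1 : ∀ k, ‖w k‖ ≤ 1 := by
      intro k
      rw [hw]
      simp only
      rw [norm_smul, norm_inv, Complex.norm_real, Real.norm_of_nonneg hC.le]
      have := hx k
      simp only [Set.mem_ofPred_eq] at this
      rw [inv_mul_le_iff₀ hC, mul_one]
      exact this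
    have hwl : Filter.Tendsto (fun k => Λ (w k)) Filter.atTop (nhds (((C : ℂ)⁻¹) • p)) := by
      have h1 : (fun k => Λ (w k)) = fun k => ((C : ℂ)⁻¹) • ξ k := by
        funext k
        rw [hw]
        simp only
        rw [map_smul, hxξ]
      rw [h1]
      exact hp.const_smul _
    obtain ⟨y, hy1, hy2⟩ := hτ.complete w hw1 (by
      intro ε hε
      obtain ⟨K, hK⟩ := Metric.cauchySeq_iff.mp hwl.cauchySeq (Real.sqrt ε) (Real.sqrt_pos.mpr hε)
      refine ⟨K, fun k hk l hl => ?_⟩
      have h1 := hK k hk l hl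
      rw [dist_eq_norm, ← map_sub] at h1
      rw [hnorm]
      calc ‖Λ (w k - w l)‖ ^ 2 ≤ (Real.sqrt ε) ^ 2 :=
            pow_le_pow_left₀ (norm_nonneg _) h1.le 2
        _ = ε := Real.sq_sqrt hε.le)
    have hyl : Filter.Tendsto (fun k => Λ (w k)) Filter.atTop (nhds (Λ y)) := by
      rw [Metric.tendsto_atTop]
      intro ε hε
      obtain ⟨K, hK⟩ := hy2 ((ε / 2) ^ 2) (by positivity)
      refine ⟨K, fun k hk => ?_⟩
      have h1 := hK k hk
      rw [hnorm] at h1
      have h2 : ‖Λ (w k - y)‖ ≤ ε / 2 := (sq_le_sq₀ (norm_nonneg _) (by positivity)).mp h1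
      rw [dist_eq_norm, ← map_sub]
      linarith
    have hpy : ((C : ℂ)⁻¹) • p = Λ y := tendsto_nhds_unique hwl hyl
    refine ⟨(C : ℂ) • y, ?_, ?_⟩
    · simp only [Set.mem_ofPred_eq]
      rw [norm_smul, Complex.norm_real, Real.norm_of_nonneg hC.le]
      calc C * ‖y‖ ≤ C * 1 := mul_le_mul_of_nonneg_left hy1 hC.le
        _ = C := mul_one C
    · rw [map_smul, ← hpy, smul_inv_smul₀ hC']

end H730HC
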