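import Pool.Agent.H730R3.HC.Defs
import Pool.Agent.H730R3.HC.T01
import Pool.Agent.H730R3.HC.T02

set_option autoImplicit false

namespace H730HC

open Finset
open scoped ComplexConjugate

universe u v

variable {M : Type u} [CStarAlgebra M] {τ : M →ₗ[ℂ] ℂ}



theorem T03_aux (hτ : IsTracial M τ) {I : Type v} {m : (I → ℝ) → ℝ} (hm : IsMean m) (f : I → M)
    (C : ℝ) (hf : ∀ i, ‖f i‖ ≤ C) :
    ∃ x : M, ‖x‖ ≤ C ∧ ∀ y, (τ (x * y)).re = m (fun i => (τ (f i * y)).re) := by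
  classical
  have hI : Nonempty I := by
    by_contra h
    rw [not_nonempty_iff] at h
    have h0 := hm.const 0
    have h1 := hm.const 1
    have h2 : (fun _ : I => (0:ℝ)) = fun _ => (1:ℝ) := funext fun i => h.elim i
    rw [h2, h1] at h0
    exact one_ne_zero h0
  obtain ⟨i₀⟩ := hI
  have hC : 0 ≤ C := (norm_nonneg _).trans (hf i₀)
  obtain ⟨H, _, _, _, Λ, hd, hΛ⟩ := exists_gns hτ
  let _ : InnerProductSpace ℝ H := InnerProductSpace.complexToReal
  have hn : ∀ x, ‖Λ x‖ ≤ ‖x‖ := by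
    intro x
    have h1 : ‖Λ x‖ ^ 2 = sq τ x := by
      have h := hΛ x x
      rw [inner_self_eq_norm_sq_to_K] at h
      have h3 := congrArg Complex.re h
      unfold sq
      rw [← h3]
      norm_cast
    have h2 := sq_le_norm hτ x
    rw [← h1] at h2
    exact (sq_le_sq₀ (norm_nonneg _) (norm_nonneg _)).1 h2
  have hs : ∀ i, ‖Λ (star (f i))‖ ≤ C := fun i => (hn _).trans (by rw [norm_star]; exact hf i)
  have habs : ∀ (η : H) (i : I), |(inner ℂ (Λ (star (f i))) η : ℂ).re| ≤ C * ‖η‖ := by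
    intro η i
    refine (Complex.abs_re_le_norm _).trans ((norm_inner_le_norm _ _).trans ?_)
    exact mul_le_mul_of_nonneg_right (hs i) (norm_nonneg _)
  have hbd : ∀ η : H, Bdd (fun i => (inner ℂ (Λ (star (f i))) η : ℂ).re) :=
    fun η => ⟨C * ‖η‖, habs η⟩
  have hconst : ∀ c : ℝ, Bdd (fun _ : I => c) := fun c => ⟨|c|, fun _ => le_rfl⟩
  let ψl : H →ₗ[ℝ] ℝ :=
    { toFun := fun η => m (fun i => (inner ℂ (Λ (star (f i))) η : ℂ).re)
      map_add' := by
        intro η ζ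
        rw [← hm.add _ _ (hbd η) (hbd ζ)]
        congr 1
        funext i
        rw [inner_add_right, Complex.add_re]
      map_smul' := by
        intro r η
        rw [RingHom.id_apply, smul_eq_mul, ← hm.smul r _ (hbd η)]
        congr 1
        funext i
        rw [← Complex.coe_smul, inner_smul_right, Complex.re_ofReal_mul] }
  have hψ : ∀ η, ‖ψl η‖ ≤ C * ‖η‖ := by
    intro η
    rw [Real.norm_eq_abs, abs_le]
    constructor
    · rw [← hm.const (-(C * ‖η‖))]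
      exact hm.mono _ _ (hconst _) (hbd η) fun i => (abs_le.1 (habs η i)).1
    · have h1 := hm.const (C * ‖η‖)
      rw [← h1]
      exact hm.mono _ _ (hbd η) (hconst _) fun i => (abs_le.1 (habs η i)).2
  let ψ : H →L[ℝ] ℝ := ψl.mkContinuous C hψ
  obtain ⟨ξ, hξ⟩ : ∃ ξ : H, ∀ η, inner ℝ ξ η = ψ η :=
    ⟨(InnerProductSpace.toDual ℝ H).symm ψ, fun η => InnerProductSpace.toDual_symm_apply⟩
  obtain ⟨K, hK⟩ : ∃ K : Set H, K = Λ '' {x | ‖x‖ ≤ C} := ⟨_, rfl⟩
  have hKc : IsClosed K := by rw [hK]; exact ball_closed hτ Λ hΛ C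
  have hKne : K.Nonempty := by
    rw [hK]
    exact ⟨Λ 0, 0, by simpa using hC, rfl⟩
  have hKconv : Convex ℝ K := by
    rw [hK]
    rintro _ ⟨x, hx, rfl⟩ _ ⟨y, hy, rfl⟩ a b ha hb hab
    refine ⟨(a : ℂ) • x + (b : ℂ) • y, ?_, ?_⟩
    · show ‖(a : ℂ) • x + (b : ℂ) • y‖ ≤ C
      refine (norm_add_le _ _).trans ?_
      rw [norm_smul, norm_smul, Complex.norm_real, Complex.norm_real, Real.norm_of_nonneg ha,
        Real.norm_of_nonneg hb]
      have h1 : ‖x‖ ≤ C := hx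
      have h2 : ‖y‖ ≤ C := hy
      nlinarith
    · rw [map_add, map_smul, map_smul, Complex.coe_smul, Complex.coe_smul]
  obtain ⟨p, hpK, hp⟩ := exists_norm_eq_iInf_of_complete_convex hKne hKc.isComplete hKconv ξ
  rw [norm_eq_iInf_iff_real_inner_le_zero hKconv hpK] at hp
  obtain ⟨z, hz⟩ : ∃ z, z = ξ - p := ⟨_, rfl⟩
  rw [← hz] at hp
  have hre : ∀ a b : H, (inner ℝ a b : ℝ) = (inner ℂ a b : ℂ).re := fun a b => rfl
  have h1 : ψ z ≤ inner ℝ p z := by
    have h2 : ∀ i, (inner ℂ (Λ (star (f i))) z : ℂ).re ≤ inner ℝ p z := by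
      intro i
      have h3 : Λ (star (f i)) ∈ K := by
        rw [hK]
        exact ⟨star (f i), by
          show ‖star (f i)‖ ≤ C
          rw [norm_star]; exact hf i, rfl⟩
      have h4 := hp _ h3
      rw [inner_sub_right, real_inner_comm, real_inner_comm p z, hre (Λ (star (f i))) z] at h4
      linarith
    have h5 := hm.mono _ _ (hbd z) (hconst (inner ℝ p z)) h2
    rw [hm.const] at h5
    exact h5
  have hz0 : z = 0 := by
    have h2 : (inner ℝ z z : ℝ) ≤ 0 := by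
      have h3 : (inner ℝ z z : ℝ) = inner ℝ ξ z - inner ℝ p z := by
        rw [← inner_sub_left, ← hz]
      rw [h3, hξ]
      linarith
    have h4 : (inner ℝ z z : ℝ) = ‖z‖ ^ 2 := real_inner_self_eq_norm_sq z
    rw [h4] at h2
    have h5 : ‖z‖ = 0 := by nlinarith [norm_nonneg z]
    exact norm_eq_zero.1 h5
  have hξp : ξ = p := by
    rw [hz] at hz0
    exact sub_eq_zero.1 hz0
  rw [hK] at hpK
  obtain ⟨w, hw, hwp⟩ := hpK
  refine ⟨star w, by rw [norm_star]; exact hw, fun y => ?_⟩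
  have h2 := hξ (Λ y)
  rw [hξp, ← hwp, hre, hΛ] at h2
  rw [h2]
  show m (fun i => (inner ℂ (Λ (star (f i))) (Λ y) : ℂ).re) = _
  congr 1
  funext i
  rw [hΛ, star_star]

theorem EE_spec (hτ : IsTracial M τ) {I : Type v} {m : (I → ℝ) → ℝ} (hm : IsMean m) (f : I → M) (C : ℝ)
    (hf : ∀ i, ‖f i‖ ≤ C) :
    (∀ y, (τ (EE τ m f * y)).re = m (fun i => (τ (f i * y)).re)) ∧ ‖EE τ m f‖ ≤ C := by
  obtain ⟨x, hx, hxy⟩ := T03_aux hτ hm f C hf
  have hex : ∃ x : M, ∀ y : M, (τ (x * y)).re = m (fun i => (τ (f i * y)).re) := ⟨x, hxy⟩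
  have hE : ∀ y : M, (τ (EE τ m f * y)).re = m (fun i => (τ (f i * y)).re) := by
    have h1 : EE τ m f = hex.choose := dif_pos hex
    rw [h1]
    exact hex.choose_spec
  refine ⟨hE, ?_⟩
  have h2 : EE τ m f = x := uniq hτ fun y => by rw [hE, hxy]
  rw [h2]
  exact hx

end H730HC
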