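import Pool.Agent.H730R3.HC.Defs
import Pool.Agent.H730R3.HC.T01
import Pool.Agent.H730R3.HC.T03

set_option autoImplicit false

namespace H730HC

open Finset
open scoped ComplexConjugate

universe u v

variable {M : Type u} [CStarAlgebra M] {τ : M →ₗ[ℂ] ℂ}



theorem T04_bdd (hτ : IsTracial M τ) {I : Type v} {f : I → M} {C : ℝ} (hf : ∀ i, ‖f i‖ ≤ C) (y : M) :
    Bdd (fun i => (τ (f i * y)).re) := by
  refine ⟨C * ‖y‖, fun i => ?_⟩
  refine (re_le_norm hτ _).trans ((norm_mul_le _ _).trans ?_)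
  exact mul_le_mul_of_nonneg_right (hf i) (norm_nonneg y)

theorem EE_unique (hτ : IsTracial M τ) {I : Type v} {m : (I → ℝ) → ℝ} (hm : IsMean m) (f : I → M)
    (C : ℝ) (hf : ∀ i, ‖f i‖ ≤ C) {x : M}
    (h : ∀ y, (τ (x * y)).re = m (fun i => (τ (f i * y)).re)) : EE τ m f = x := by
  refine uniq hτ fun z => ?_
  rw [(EE_spec hτ hm f C hf).1 z, h z]

theorem EE_add (hτ : IsTracial M τ) {I : Type v} {m : (I → ℝ) → ℝ} (hm : IsMean m) (f g : I → M)
    (hf : ∃ C, ∀ i, ‖f i‖ ≤ C) (hg : ∃ C, ∀ i, ‖g i‖ ≤ C) :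
    EE τ m (fun i => f i + g i) = EE τ m f + EE τ m g := by
  obtain ⟨C, hC⟩ := hf
  obtain ⟨D, hD⟩ := hg
  refine EE_unique hτ hm _ (C + D) (fun i => (norm_add_le _ _).trans (add_le_add (hC i) (hD i)))
    fun y => ?_
  rw [add_mul, map_add, Complex.add_re, (EE_spec hτ hm f C hC).1 y, (EE_spec hτ hm g D hD).1 y,
    ← hm.add _ _ (T04_bdd hτ hC y) (T04_bdd hτ hD y)]
  congr 1
  funext i
  rw [add_mul, map_add, Complex.add_re]

theorem EE_smul (hτ : IsTracial M τ) {I : Type v} {m : (I → ℝ) → ℝ} (hm : IsMean m) (c : ℂ) (f : I → M)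
    (hf : ∃ C, ∀ i, ‖f i‖ ≤ C) :
    EE τ m (fun i => c • f i) = c • EE τ m f := by
  obtain ⟨C, hC⟩ := hf
  refine EE_unique hτ hm _ (‖c‖ * C) (fun i => ?_) fun y => ?_
  · rw [norm_smul]
    exact mul_le_mul_of_nonneg_left (hC i) (norm_nonneg c)
  · rw [smul_mul_assoc, ← mul_smul_comm, (EE_spec hτ hm f C hC).1 (c • y)]
    congr 1
    funext i
    rw [smul_mul_assoc, ← mul_smul_comm]

theorem EE_mul_left (hτ : IsTracial M τ) {I : Type v} {m : (I → ℝ) → ℝ} (hm : IsMean m) (a : M)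
    (f : I → M) (hf : ∃ C, ∀ i, ‖f i‖ ≤ C) :
    EE τ m (fun i => a * f i) = a * EE τ m f := by
  obtain ⟨C, hC⟩ := hf
  refine EE_unique hτ hm _ (‖a‖ * C) (fun i => ?_) fun y => ?_
  · exact (norm_mul_le _ _).trans (mul_le_mul_of_nonneg_left (hC i) (norm_nonneg a))
  · rw [mul_assoc, hτ.comm a, mul_assoc, (EE_spec hτ hm f C hC).1 (y * a)]
    congr 1
    funext i
    rw [mul_assoc a, hτ.comm a, mul_assoc]

theorem EE_mul_right (hτ : IsTracial M τ) {I : Type v} {m : (I → ℝ) → ℝ} (hm : IsMean m) (a : M)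
    (f : I → M) (hf : ∃ C, ∀ i, ‖f i‖ ≤ C) :
    EE τ m (fun i => f i * a) = EE τ m f * a := by
  obtain ⟨C, hC⟩ := hf
  refine EE_unique hτ hm _ (C * ‖a‖) (fun i => ?_) fun y => ?_
  · exact (norm_mul_le _ _).trans (mul_le_mul_of_nonneg_right (hC i) (norm_nonneg a))
  · rw [mul_assoc, (EE_spec hτ hm f C hC).1 (a * y)]
    congr 1
    funext i
    rw [mul_assoc]

theorem EE_const (hτ : IsTracial M τ) {I : Type v} {m : (I → ℝ) → ℝ} (hm : IsMean m) (a : M) :
    EE τ m (fun _ => a) = a := by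
  refine EE_unique hτ hm _ ‖a‖ (fun _ => le_rfl) fun y => ?_
  rw [hm.const]

theorem T04_bdd_sum {I : Type v} {ι : Type*} (s : Finset ι) (f : ι → I → M)
    (hf : ∀ j ∈ s, ∃ C, ∀ i, ‖f j i‖ ≤ C) : ∃ C, ∀ i, ‖∑ j ∈ s, f j i‖ ≤ C := by
  classical
  induction s using Finset.induction_on with
  | empty => exact ⟨0, fun i => by simp⟩
  | insert j s hj ih =>
    obtain ⟨C, hC⟩ := ih fun k hk => hf k (Finset.mem_insert_of_mem hk)
    obtain ⟨D, hD⟩ := hf j (Finset.mem_insert_self j s)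
    refine ⟨D + C, fun i => ?_⟩
    rw [Finset.sum_insert hj]
    exact (norm_add_le _ _).trans (add_le_add (hD i) (hC i))

theorem EE_sum (hτ : IsTracial M τ) {I : Type v} {m : (I → ℝ) → ℝ} (hm : IsMean m) {ι : Type*}
    (s : Finset ι) (f : ι → I → M) (hf : ∀ j ∈ s, ∃ C, ∀ i, ‖f j i‖ ≤ C) :
    EE τ m (fun i => ∑ j ∈ s, f j i) = ∑ j ∈ s, EE τ m (f j) := by
  classical
  induction s using Finset.induction_on with
  | empty =>
    simp only [Finset.sum_empty]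
    exact EE_const hτ hm 0
  | insert j s hj ih =>
    simp only [Finset.sum_insert hj]
    rw [EE_add hτ hm _ _ (hf j (Finset.mem_insert_self j s))
      (T04_bdd_sum s f fun k hk => hf k (Finset.mem_insert_of_mem hk)),
      ih fun k hk => hf k (Finset.mem_insert_of_mem hk)]

end H730HC
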