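import Pool.Agent.H730R3.HC.Defs
import Pool.Agent.H730R3.HC.T01
import Pool.Agent.H730R3.HC.T02

set_option autoImplicit false

namespace H730HC

open Finset
open scoped ComplexConjugate

universe u v

variable {M : Type u} [CStarAlgebra M] {τ : M →ₗ[ℂ] ℂ}



theorem T05_sq_add (hτ : IsTracial M τ) (x y : M) :
    sq τ (x + y) = sq τ x + 2 * (τ (star x * y)).re + sq τ y := by
  have h := sq_sub hτ x (-y)
  have h1 : sq τ (-y) = sq τ y := by unfold sq; simp
  have h2 : (τ (star x * -y)).re = -(τ (star x * y)).re := by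
    rw [mul_neg, map_neg, Complex.neg_re]
  rw [sub_neg_eq_add, h1, h2] at h
  linarith

theorem T05_sq_neg (x : M) : sq τ (-x) = sq τ x := by unfold sq; simp

theorem T05_sq_comm (x y : M) : sq τ (x - y) = sq τ (y - x) := by
  rw [← T05_sq_neg (x - y), neg_sub]

theorem T05_sq_add_le (hτ : IsTracial M τ) (x y : M) :
    sq τ (x + y) ≤ 2 * sq τ x + 2 * sq τ y := by
  have h1 := T05_sq_add hτ x y
  have h2 := sq_sub hτ x y
  have h3 := sq_nonneg' hτ (x - y)
  linarith

theorem T05_par (hτ : IsTracial M τ) (x y : M) :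
    sq τ (x - y) = 2 * sq τ x + 2 * sq τ y - 4 * sq τ ((1 / 2 : ℂ) • (x + y)) := by
  have h1 := T05_sq_add hτ x y
  have h2 := sq_sub hτ x y
  have h3 := sq_smul hτ (1 / 2 : ℂ) (x + y)
  have h4 : ‖(1 / 2 : ℂ)‖ = 1 / 2 := by norm_num
  rw [h4] at h3
  rw [h3]
  linarith

theorem T05_cen_star {z : M} (hz : IsCen z) : IsCen (star z) := by
  intro y
  have h := congrArg star (hz (star y))
  rw [star_mul, star_mul, star_star] at h
  exact h.symm

theorem T05_cen_smul {z : M} (hz : IsCen z) (c : ℂ) : IsCen (c • z) := by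
  intro y
  rw [smul_mul_assoc, mul_smul_comm, hz y]

theorem T05_cen_sub {z w : M} (hz : IsCen z) (hw : IsCen w) : IsCen (z - w) := by
  intro y
  rw [sub_mul, mul_sub, hz y, hw y]

/-- the hull of the conjugates -/
def T05_K (x : M) : Set M := convexHull ℝ (Set.range fun v : unitary M => (v : M) * x * star (v : M))

theorem T05_K_mem (x : M) : x ∈ T05_K x := by
  apply subset_convexHull
  exact ⟨1, by simp⟩

theorem T05_K_norm (x : M) : ∀ z ∈ T05_K x, ‖z‖ ≤ ‖x‖ := by
  intro z hz
  have h : T05_K x ⊆ Metric.closedBall (0 : M) ‖x‖ := by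
    apply convexHull_min _ (convex_closedBall (0 : M) ‖x‖)
    rintro _ ⟨v, rfl⟩
    rw [mem_closedBall_zero_iff]
    show ‖(v : M) * x * star (v : M)‖ ≤ ‖x‖
    have e : star (v : M) = ((star v : unitary M) : M) := rfl
    rw [e, CStarRing.norm_mul_coe_unitary, CStarRing.norm_coe_unitary_mul]
  exact mem_closedBall_zero_iff.1 (h hz)

theorem T05_K_conj (x : M) (u : unitary M) : ∀ z ∈ T05_K x, (u : M) * z * star (u : M) ∈ T05_K x := by
  intro z hz
  have h : T05_K x ⊆ {z | (u : M) * z * star (u : M) ∈ T05_K x} := by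
    apply convexHull_min
    · rintro _ ⟨v, rfl⟩
      apply subset_convexHull
      refine ⟨u * v, ?_⟩
      show ((u * v : unitary M) : M) * x * star ((u * v : unitary M) : M) =
        (u : M) * ((v : M) * x * star (v : M)) * star (u : M)
      rw [Submonoid.coe_mul, star_mul]
      simp only [mul_assoc]
    · intro a ha b hb s t hs ht hst
      show (u : M) * (s • a + t • b) * star (u : M) ∈ T05_K x
      have e : (u : M) * (s • a + t • b) * star (u : M) =
          s • ((u : M) * a * star (u : M)) + t • ((u : M) * b * star (u : M)) := by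
        rw [mul_add, add_mul, mul_smul_comm, mul_smul_comm, smul_mul_assoc, smul_mul_assoc]
      rw [e]
      exact (convex_convexHull ℝ _) ha hb hs ht hst
  exact h hz

theorem T05_K_tr (hτ : IsTracial M τ) (x : M) {c : M} (hc : IsCen c) :
    ∀ z ∈ T05_K x, τ (z * c) = τ (x * c) := by
  intro z hz
  have h : T05_K x ⊆ {z | τ (z * c) = τ (x * c)} := by
    apply convexHull_min
    · rintro _ ⟨v, rfl⟩
      show τ ((v : M) * x * star (v : M) * c) = τ (x * c)
      rw [mul_assoc, ← hc (star (v : M)), ← mul_assoc, hτ.comm, ← mul_assoc, ← mul_assoc,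
        Unitary.coe_star_mul_self, one_mul]
    · intro a ha b hb s t hs ht hst
      show τ ((s • a + t • b) * c) = τ (x * c)
      have ha' : τ (a * c) = τ (x * c) := ha
      have hb' : τ (b * c) = τ (x * c) := hb
      rw [← Complex.coe_smul, ← Complex.coe_smul, add_mul, smul_mul_assoc, smul_mul_assoc, map_add,
        map_smul, map_smul, ha', hb', ← add_smul, ← Complex.ofReal_add, hst, Complex.ofReal_one,
        one_smul]
  exact h hz

theorem T05_exists (hτ : IsTracial M τ) (x : M) :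
    ∃ w : M, IsCen w ∧ (∀ c, IsCen c → τ (w * c) = τ (x * c)) ∧ ‖w‖ ≤ ‖x‖ := by
  by_cases hx : x = 0
  · subst hx
    exact ⟨0, fun y => by simp, fun c _ => rfl, le_rfl⟩
  have hC : 0 < ‖x‖ := norm_pos_iff.2 hx
  set C : ℝ := ‖x‖ with hCdef
  -- the infimum
  have hbdd : BddBelow (sq τ '' T05_K x) := ⟨0, by rintro _ ⟨z, -, rfl⟩; exact sq_nonneg' hτ z⟩
  have hne : (sq τ '' T05_K x).Nonempty := ⟨_, x, T05_K_mem x, rfl⟩
  set δ : ℝ := sInf (sq τ '' T05_K x) with hδ
  have hlow : ∀ z ∈ T05_K x, δ ≤ sq τ z := fun z hz => csInf_le hbdd ⟨z, hz, rfl⟩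
  have hseq : ∀ k : ℕ, ∃ z ∈ T05_K x, sq τ z < δ + 1 / ((k : ℝ) + 1) := by
    intro k
    have hpos : (0 : ℝ) < 1 / ((k : ℝ) + 1) := by positivity
    obtain ⟨_, ⟨z, hz, rfl⟩, h⟩ := exists_lt_of_csInf_lt hne (lt_add_of_pos_right δ hpos)
    exact ⟨z, hz, h⟩
  choose z hz hzlt using hseq
  -- closeness of almost minimal elements
  have hclose : ∀ a ∈ T05_K x, ∀ b ∈ T05_K x, ∀ e : ℝ, sq τ a ≤ δ + e → sq τ b ≤ δ + e →
      sq τ (a - b) ≤ 4 * e := by
    intro a ha b hb e hea heb
    have hmid : (1 / 2 : ℂ) • (a + b) ∈ T05_K x := by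
      have h := (convex_convexHull ℝ (Set.range fun v : unitary M => (v : M) * x * star (v : M)))
        ha hb (by norm_num : (0 : ℝ) ≤ 1 / 2) (by norm_num : (0 : ℝ) ≤ 1 / 2) (by norm_num)
      have e2 : (1 / 2 : ℂ) • (a + b) = (1 / 2 : ℝ) • a + (1 / 2 : ℝ) • b := by
        rw [smul_add, ← Complex.coe_smul, ← Complex.coe_smul]
        norm_num
      rw [e2]
      exact h
    have h1 := T05_par hτ a b
    have h2 := hlow _ hmid
    linarith
  have hCC : ‖((C⁻¹ : ℝ) : ℂ)‖ = C⁻¹ := by
    rw [Complex.norm_real, Real.norm_eq_abs, abs_of_pos (inv_pos.2 hC)]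
  have hcauchy : ∀ e > 0, ∃ K : ℕ, ∀ k ≥ K, ∀ l ≥ K, sq τ (z k - z l) ≤ e := by
    intro e he
    obtain ⟨K, hK⟩ := exists_nat_one_div_lt (show (0 : ℝ) < e / 4 by positivity)
    refine ⟨K, fun k hk l hl => ?_⟩
    have hmono : ∀ j ≥ K, 1 / ((j : ℝ) + 1) ≤ e / 4 := by
      intro j hj
      have : 1 / ((j : ℝ) + 1) ≤ 1 / ((K : ℝ) + 1) := by
        apply one_div_le_one_div_of_le (by positivity)
        have : (K : ℝ) ≤ j := by exact_mod_cast hj
        linarith
      linarith
    have h := hclose (z k) (hz k) (z l) (hz l) (e / 4)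
      (by have := hzlt k; have := hmono k hk; linarith)
      (by have := hzlt l; have := hmono l hl; linarith)
    linarith
  obtain ⟨y, hy1, hy2⟩ := hτ.complete (fun k => ((C⁻¹ : ℝ) : ℂ) • z k) (by
      intro k
      rw [norm_smul, hCC]
      have := T05_K_norm x (z k) (hz k)
      rw [inv_mul_le_iff₀ hC, mul_one]
      exact this) (by
      intro e he
      obtain ⟨K, hK⟩ := hcauchy (C ^ 2 * e) (by positivity)
      refine ⟨K, fun k hk l hl => ?_⟩
      have h := hK k hk l hl
      show sq τ (((C⁻¹ : ℝ) : ℂ) • z k - ((C⁻¹ : ℝ) : ℂ) • z l) ≤ e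
      rw [← smul_sub, sq_smul hτ, hCC]
      calc C⁻¹ ^ 2 * sq τ (z k - z l) ≤ C⁻¹ ^ 2 * (C ^ 2 * e) := by gcongr
        _ = e := by field_simp)
  set w : M := ((C : ℝ) : ℂ) • y with hw
  have hCn : ((C : ℝ) : ℂ) ≠ 0 := by exact_mod_cast hC.ne'
  have hlim : ∀ e > 0, ∃ K : ℕ, ∀ k ≥ K, sq τ (z k - w) ≤ e := by
    intro e he
    obtain ⟨K, hK⟩ := hy2 (e / C ^ 2) (by positivity)
    refine ⟨K, fun k hk => ?_⟩
    have h : sq τ (((C⁻¹ : ℝ) : ℂ) • z k - y) ≤ e / C ^ 2 := hK k hk
    have e1 : z k - w = ((C : ℝ) : ℂ) • (((C⁻¹ : ℝ) : ℂ) • z k - y) := by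
      rw [smul_sub, smul_smul, hw]
      congr 1
      rw [Complex.ofReal_inv, mul_inv_cancel₀ hCn, one_smul]
    rw [e1, sq_smul hτ, Complex.norm_real, Real.norm_eq_abs, abs_of_pos hC]
    calc C ^ 2 * sq τ (((C⁻¹ : ℝ) : ℂ) • z k - y) ≤ C ^ 2 * (e / C ^ 2) := by gcongr
      _ = e := by field_simp
  have hinv : ∀ u : unitary M, (u : M) * w * star (u : M) = w := by
    intro u
    rw [← sub_eq_zero]
    apply sq_eq_zero hτ
    apply le_antisymm _ (sq_nonneg' hτ _)
    apply le_of_forall_pos_le_add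
    intro e he
    rw [zero_add]
    have he' : (0 : ℝ) < e / 22 := by positivity
    obtain ⟨K, hK⟩ := hlim (e / 22) he'
    obtain ⟨K', hK'⟩ := exists_nat_one_div_lt he'
    set k := max K K' with hk
    have h1 := hK k (le_max_left _ _)
    have h2 : 1 / ((k : ℝ) + 1) ≤ e / 22 := by
      have : 1 / ((k : ℝ) + 1) ≤ 1 / ((K' : ℝ) + 1) := by
        apply one_div_le_one_div_of_le (by positivity)
        have : (K' : ℝ) ≤ k := by exact_mod_cast le_max_right K K'
        linarith
      linarith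
    have h3 : sq τ ((u : M) * z k * star (u : M) - z k) ≤ 4 * (e / 22) := by
      apply hclose _ (T05_K_conj x u _ (hz k)) _ (hz k)
      · rw [sq_unitary hτ]
        have := hzlt k
        linarith
      · have := hzlt k
        linarith
    have h4 : sq τ ((u : M) * (w - z k) * star (u : M)) ≤ e / 22 := by
      rw [sq_unitary hτ, T05_sq_comm]
      exact h1
    have e5 : (u : M) * w * star (u : M) - w = (u : M) * (w - z k) * star (u : M) +
        (((u : M) * z k * star (u : M) - z k) + (z k - w)) := by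
      rw [mul_sub, sub_mul]
      abel
    have h5 := T05_sq_add_le hτ ((u : M) * (w - z k) * star (u : M))
      (((u : M) * z k * star (u : M) - z k) + (z k - w))
    have h6 := T05_sq_add_le hτ ((u : M) * z k * star (u : M) - z k) (z k - w)
    rw [e5]
    linarith
  have hcen : IsCen w := by
    intro y'
    have hy' : y' ∈ Submodule.span ℂ (unitary M : Set M) := by
      rw [CStarAlgebra.span_unitary]
      exact Submodule.mem_top
    induction hy' using Submodule.span_induction with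
    | mem u hu =>
      have h := hinv ⟨u, hu⟩
      have h' : u * w * star u = w := h
      have h2 : star u * u = 1 := (Unitary.mem_iff.1 hu).1
      calc w * u = (u * w * star u) * u := by rw [h']
        _ = u * w * (star u * u) := by rw [mul_assoc]
        _ = u * w := by rw [h2, mul_one]
    | zero => simp
    | add a b _ _ ha hb => rw [mul_add, add_mul, ha, hb]
    | smul c a _ ha => rw [mul_smul_comm c w a, smul_mul_assoc c a w, ha]
  have hre : ∀ c, IsCen c → (τ (w * c) - τ (x * c)).re = 0 := by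
    intro c hc
    have hsq : ((τ (w * c) - τ (x * c)).re) ^ 2 ≤ 0 := by
      apply le_of_forall_pos_le_add
      intro e he
      rw [zero_add]
      have hc0 := sq_nonneg' hτ c
      obtain ⟨K, hK⟩ := hlim (e / (sq τ c + 1)) (by positivity)
      have h1 := hK K le_rfl
      have h2 := cs_sq hτ (star (w - z K)) c
      rw [star_star, sq_star hτ, T05_sq_comm] at h2
      have h3 : τ ((w - z K) * c) = τ (w * c) - τ (x * c) := by
        rw [sub_mul, map_sub, T05_K_tr hτ x hc (z K) (hz K)]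
      rw [h3] at h2
      calc ((τ (w * c) - τ (x * c)).re) ^ 2 ≤ sq τ (z K - w) * sq τ c := h2
        _ ≤ (e / (sq τ c + 1)) * sq τ c := by gcongr
        _ ≤ (e / (sq τ c + 1)) * (sq τ c + 1) := by
          gcongr
          linarith
        _ = e := by field_simp
    have := sq_nonneg ((τ (w * c) - τ (x * c)).re)
    exact pow_eq_zero_iff (two_ne_zero) |>.1 (le_antisymm hsq this)
  refine ⟨w, hcen, fun c hc => ?_, ?_⟩
  · have h1 := hre c hc
    have h2 := hre (Complex.I • c) (T05_cen_smul hc Complex.I)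
    rw [mul_smul_comm, mul_smul_comm, map_smul, map_smul, ← smul_sub, smul_eq_mul] at h2
    have h3 : (Complex.I * (τ (w * c) - τ (x * c))).re = -(τ (w * c) - τ (x * c)).im := by
      simp [Complex.mul_re]
    rw [h3] at h2
    have h4 : τ (w * c) - τ (x * c) = 0 := by
      apply Complex.ext
      · rw [h1]; rfl
      · have : (τ (w * c) - τ (x * c)).im = 0 := by linarith
        rw [this]; rfl
    exact sub_eq_zero.1 h4
  · rw [hw, norm_smul, Complex.norm_real, Real.norm_eq_abs, abs_of_pos hC]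
    calc C * ‖y‖ ≤ C * 1 := by gcongr
      _ = C := mul_one C

theorem Ez_spec (hτ : IsTracial M τ) (x : M) :
    IsCen (Ez τ x) ∧ (∀ c, IsCen c → τ (Ez τ x * c) = τ (x * c)) ∧ ‖Ez τ x‖ ≤ ‖x‖ := by
  obtain ⟨w, hw1, hw2, hw3⟩ := T05_exists hτ x
  have hex : ∃ z : M, IsCen z ∧ ∀ c : M, IsCen c → τ (z * c) = τ (x * c) := ⟨w, hw1, hw2⟩
  have hE : Ez τ x = hex.choose := by
    unfold Ez
    rw [dif_pos hex]
  have hs := hex.choose_spec
  rw [← hE] at hs
  obtain ⟨h1, h2⟩ := hs
  have heq : Ez τ x = w := by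
    have hcd := T05_cen_star (T05_cen_sub h1 hw1)
    have h3 : τ ((Ez τ x - w) * star (Ez τ x - w)) = 0 := by
      rw [sub_mul, map_sub, h2 _ hcd, hw2 _ hcd, sub_self]
    have h4 : sq τ (star (Ez τ x - w)) = 0 := by
      unfold sq
      rw [star_star, h3]
      rfl
    have h5 := sq_eq_zero hτ h4
    exact sub_eq_zero.1 (star_eq_zero.1 h5)
  exact ⟨h1, h2, by rw [heq]; exact hw3⟩

end H730HC
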