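import Pool.Agent.H730R3.HC.Defs
import Pool.Agent.H730R3.HC.T01
import Pool.Agent.H730R3.HC.T05

set_option autoImplicit false

namespace H730HC

open Finset
open scoped ComplexConjugate

universe u v

variable {M : Type u} [CStarAlgebra M] {τ : M →ₗ[ℂ] ℂ}



theorem T06_isCen_add {z w : M} (hz : IsCen z) (hw : IsCen w) : IsCen (z + w) := fun y => by
  rw [add_mul, mul_add, hz y, hw y]

theorem T06_isCen_sub {z w : M} (hz : IsCen z) (hw : IsCen w) : IsCen (z - w) := fun y => by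
  rw [sub_mul, mul_sub, hz y, hw y]

theorem T06_isCen_smul (c : ℂ) {z : M} (hz : IsCen z) : IsCen (c • z) := fun y => by
  rw [smul_mul_assoc, mul_smul_comm, hz y]

theorem T06_isCen_mul {z w : M} (hz : IsCen z) (hw : IsCen w) : IsCen (z * w) := fun y => by
  rw [mul_assoc, hw y, ← mul_assoc, hz y, mul_assoc]

theorem T06_isCen_star {z : M} (hz : IsCen z) : IsCen (star z) := fun y => by
  have h := congrArg star (hz (star y))
  rw [star_mul, star_mul, star_star] at h
  exact h.symm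

theorem Ez_unique (hτ : IsTracial M τ) {x z : M} (hz : IsCen z)
    (h : ∀ c, IsCen c → τ (z * c) = τ (x * c)) : Ez τ x = z := by
  obtain ⟨h1, h2, -⟩ := Ez_spec hτ x
  have hd : IsCen (Ez τ x - z) := T06_isCen_sub h1 hz
  have hs : IsCen (star (Ez τ x - z)) := T06_isCen_star hd
  have h0 : τ ((Ez τ x - z) * star (Ez τ x - z)) = 0 := by
    rw [sub_mul, map_sub, h2 _ hs, h _ hs, sub_self]
  have h3 : (τ (star (Ez τ x - z) * (Ez τ x - z))).re = 0 := by
    rw [hτ.comm, h0, Complex.zero_re]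
  exact sub_eq_zero.mp (hτ.faithful _ h3)

theorem Ez_add (hτ : IsTracial M τ) (x y : M) : Ez τ (x + y) = Ez τ x + Ez τ y := by
  obtain ⟨h1, h2, -⟩ := Ez_spec hτ x
  obtain ⟨h3, h4, -⟩ := Ez_spec hτ y
  refine Ez_unique hτ (T06_isCen_add h1 h3) fun c hc => ?_
  rw [add_mul, map_add, h2 c hc, h4 c hc, add_mul, map_add]

theorem Ez_smul (hτ : IsTracial M τ) (c : ℂ) (x : M) : Ez τ (c • x) = c • Ez τ x := by
  obtain ⟨h1, h2, -⟩ := Ez_spec hτ x
  refine Ez_unique hτ (T06_isCen_smul c h1) fun d hd => ?_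
  rw [smul_mul_assoc, map_smul, h2 d hd, smul_mul_assoc, map_smul]

theorem Ez_cen (hτ : IsTracial M τ) {z : M} (hz : IsCen z) : Ez τ z = z :=
  Ez_unique hτ hz fun _ _ => rfl

theorem Ez_mul_cen (hτ : IsTracial M τ) {z : M} (hz : IsCen z) (x : M) :
    Ez τ (x * z) = Ez τ x * z := by
  obtain ⟨h1, h2, -⟩ := Ez_spec hτ x
  refine Ez_unique hτ (T06_isCen_mul h1 hz) fun d hd => ?_
  rw [mul_assoc, h2 _ (T06_isCen_mul hz hd), mul_assoc]

theorem Ez_comm (hτ : IsTracial M τ) (x y : M) : Ez τ (x * y) = Ez τ (y * x) := by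
  obtain ⟨h1, h2, -⟩ := Ez_spec hτ (y * x)
  refine Ez_unique hτ h1 fun c hc => ?_
  rw [h2 c hc, mul_assoc, hτ.comm y (x * c), mul_assoc, hc y, mul_assoc]

theorem Ez_star (hτ : IsTracial M τ) (x : M) : Ez τ (star x) = star (Ez τ x) := by
  obtain ⟨h1, h2, -⟩ := Ez_spec hτ x
  refine Ez_unique hτ (T06_isCen_star h1) fun c hc => ?_
  have hs := T06_isCen_star hc
  have e1 : star (Ez τ x) * c = star (star c * Ez τ x) := by
    rw [star_mul, star_star]
  have e2 : c * star x = star (x * star c) := by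
    rw [star_mul, star_star]
  rw [e1, tau_star hτ, hτ.comm (star c) (Ez τ x), h2 _ hs, ← tau_star hτ, ← e2, hτ.comm]

theorem T06_Ez_sub (hτ : IsTracial M τ) (x y : M) : Ez τ (x - y) = Ez τ x - Ez τ y := by
  obtain ⟨h1, h2, -⟩ := Ez_spec hτ x
  obtain ⟨h3, h4, -⟩ := Ez_spec hτ y
  refine Ez_unique hτ (T06_isCen_sub h1 h3) fun c hc => ?_
  rw [sub_mul, map_sub, h2 c hc, h4 c hc, sub_mul, map_sub]

theorem Ez_perp (hτ : IsTracial M τ) (x : M) : Ez τ (perp τ x) = 0 := by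
  unfold perp
  rw [T06_Ez_sub hτ, Ez_cen hτ (Ez_spec hτ x).1, sub_self]

theorem T06_tau_cen_perp (hτ : IsTracial M τ) (x : M) {z : M} (hz : IsCen z) :
    τ (z * perp τ x) = 0 := by
  have h := (Ez_spec hτ (perp τ x)).2.1 z hz
  rw [Ez_perp hτ, zero_mul, map_zero] at h
  rw [hτ.comm, ← h]

theorem re_perp (hτ : IsTracial M τ) (x : M) : (τ (star x * perp τ x)).re = sq τ (perp τ x) := by
  have h1 : star x = star (perp τ x) + star (Ez τ x) := by
    unfold perp
    rw [← star_add, sub_add_cancel]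
  have h2 := T06_tau_cen_perp hτ x (T06_isCen_star (Ez_spec hτ x).1)
  unfold sq
  conv_lhs => rw [h1]
  rw [add_mul, map_add, h2, add_zero]

theorem sq_perp_le (hτ : IsTracial M τ) (x : M) : sq τ (perp τ x) ≤ sq τ x := by
  have h1 := sq_sub hτ x (perp τ x)
  rw [re_perp hτ] at h1
  have h2 := sq_nonneg' hτ (x - perp τ x)
  linarith

theorem perp_add (hτ : IsTracial M τ) (x y : M) : perp τ (x + y) = perp τ x + perp τ y := by
  unfold perp
  rw [Ez_add hτ]
  abel

end H730HC
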