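import Pool.Agent.H730R3.HC.Defs

set_option autoImplicit false

namespace H730HC

open Finset
open scoped ComplexConjugate

universe u v

variable {M : Type u} [CStarAlgebra M] {τ : M →ₗ[ℂ] ℂ}



theorem T08_bdd_const {I : Type v} (c : ℝ) : Bdd (fun _ : I => c) := ⟨|c|, fun _ => le_rfl⟩

theorem T08_mean_le {I : Type v} {m : (I → ℝ) → ℝ} (hm : IsMean m) {f : I → ℝ} {C : ℝ}
    (hf : ∀ i, |f i| ≤ C) : |m f| ≤ C := by
  rw [abs_le]
  constructor
  · have h := hm.mono (fun _ => -C) f (T08_bdd_const _) ⟨C, hf⟩ (fun i => (abs_le.mp (hf i)).1)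
    rwa [hm.const] at h
  · have h := hm.mono f (fun _ => C) ⟨C, hf⟩ (T08_bdd_const _) (fun i => (abs_le.mp (hf i)).2)
    rwa [hm.const] at h

theorem T08_mean_point {I : Type v} (i : I) : IsMean (fun f : I → ℝ => f i) where
  add _ _ _ _ := rfl
  smul _ _ _ := rfl
  mono _ _ _ _ h := h i
  const _ := rfl

theorem T08_mean_pull {I : Type v} {J : Type v} {m : (J → ℝ) → ℝ} (hm : IsMean m) (φ : J → I) :
    IsMean (fun f : I → ℝ => m (fun j => f (φ j))) where
  add f g hf hg := by
    obtain ⟨C, hC⟩ := hf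
    obtain ⟨C', hC'⟩ := hg
    exact hm.add _ _ ⟨C, fun j => hC _⟩ ⟨C', fun j => hC' _⟩
  smul c f hf := by
    obtain ⟨C, hC⟩ := hf
    exact hm.smul c _ ⟨C, fun j => hC _⟩
  mono f g hf hg h := by
    obtain ⟨C, hC⟩ := hf
    obtain ⟨C', hC'⟩ := hg
    exact hm.mono _ _ ⟨C, fun j => hC _⟩ ⟨C', fun j => hC' _⟩ (fun j => h _)
  const c := hm.const c

theorem T08_mean_bind {I : Type v} {J : Type v} {m0 : (J → ℝ) → ℝ} (hm0 : IsMean m0)
    (m : J → (I → ℝ) → ℝ) (hm : ∀ j, IsMean (m j)) :
    IsMean (fun f : I → ℝ => m0 (fun j => m j f)) where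
  add f g hf hg := by
    have h : (fun j => m j (fun i => f i + g i)) = fun j => m j f + m j g :=
      funext fun j => (hm j).add f g hf hg
    obtain ⟨C, hC⟩ := hf
    obtain ⟨C', hC'⟩ := hg
    change m0 (fun j => m j (fun i => f i + g i)) = _
    rw [h]
    exact hm0.add _ _ ⟨C, fun j => T08_mean_le (hm j) hC⟩ ⟨C', fun j => T08_mean_le (hm j) hC'⟩
  smul c f hf := by
    have h : (fun j => m j (fun i => c * f i)) = fun j => c * m j f :=
      funext fun j => (hm j).smul c f hf
    obtain ⟨C, hC⟩ := hf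
    change m0 (fun j => m j (fun i => c * f i)) = _
    rw [h]
    exact hm0.smul c _ ⟨C, fun j => T08_mean_le (hm j) hC⟩
  mono f g hf hg h := by
    have h1 : ∀ j, m j f ≤ m j g := fun j => (hm j).mono f g hf hg h
    obtain ⟨C, hC⟩ := hf
    obtain ⟨C', hC'⟩ := hg
    exact hm0.mono _ _ ⟨C, fun j => T08_mean_le (hm j) hC⟩ ⟨C', fun j => T08_mean_le (hm j) hC'⟩ h1
  const c := by
    have h : (fun j => m j (fun _ => c)) = fun _ => c := funext fun j => (hm j).const c
    change m0 (fun j => m j (fun _ => c)) = _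
    rw [h]
    exact hm0.const c

theorem T08_mean_avg {I : Type v} {U : Type v} (G : Finset U) (hG : G.Nonempty)
    (m : U → (I → ℝ) → ℝ) (hm : ∀ g, IsMean (m g)) :
    IsMean (fun f : I → ℝ => (∑ g ∈ G, m g f) / (G.card : ℝ)) where
  add f g hf hg := by
    simp only [(hm _).add f g hf hg, Finset.sum_add_distrib, add_div]
  smul c f hf := by
    simp only [(hm _).smul c f hf, ← Finset.mul_sum, mul_div_assoc]
  mono f g hf hg h := by
    have hpos : (0 : ℝ) ≤ (G.card : ℝ) := Nat.cast_nonneg _
    exact div_le_div_of_nonneg_right (Finset.sum_le_sum fun j _ => (hm j).mono f g hf hg h) hpos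
  const c := by
    have hpos : (G.card : ℝ) ≠ 0 := by
      exact_mod_cast (Finset.card_pos.mpr hG).ne'
    simp only [(hm _).const c, Finset.sum_const, nsmul_eq_mul]
    field_simp

theorem nu_isMean {U : Type v} [Group U] (G : Finset U) (hG : G.Nonempty) (m0 : (U → ℝ) → ℝ)
    (hm0 : IsMean m0) (r : ℕ) : IsMean (nu G m0 r) := by
  induction r with
  | zero =>
    have h : nu G m0 0 = fun f : U → ℝ => f 1 := by
      funext f
      simp only [nu]
    rw [h]
    exact T08_mean_point 1
  | succ r ih =>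
    have h : nu G m0 (r + 1) = fun f : U → ℝ =>
        (∑ g ∈ G, m0 (fun v => nu G m0 r (fun A => f (v * g * v⁻¹ * A)))) / (G.card : ℝ) := by
      funext f
      simp only [nu]
    rw [h]
    exact T08_mean_avg G hG (fun g f => m0 (fun v => nu G m0 r (fun A => f (v * g * v⁻¹ * A))))
      (fun g => T08_mean_bind hm0 (fun v f => nu G m0 r (fun A => f (v * g * v⁻¹ * A)))
        (fun v => T08_mean_pull ih (fun A => v * g * v⁻¹ * A)))

theorem Er_isMean {U : Type v} [Group U] (G : Finset U) (hG : G.Nonempty) (m0 : (U → ℝ) → ℝ)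
    (hm0 : IsMean m0) (r k : ℕ) : IsMean (Er G m0 r k) := by
  induction r generalizing k with
  | zero =>
    have h : Er G m0 0 k = fun f : U × U → ℝ => f (1, 1) := by
      funext f
      simp only [Er]
    rw [h]
    exact T08_mean_point (1, 1)
  | succ r ih =>
    cases k with
    | zero =>
      have h : Er G m0 (r + 1) 0 = fun f : U × U → ℝ =>
          m0 (fun v => nu G m0 r (fun A => f (v, v⁻¹ * A))) := by
        funext f
        simp only [Er]
      rw [h]
      exact T08_mean_bind hm0 (fun v f => nu G m0 r (fun A => f (v, v⁻¹ * A)))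
        (fun v => T08_mean_pull (nu_isMean G hG m0 hm0 r) (fun A => (v, v⁻¹ * A)))
    | succ k =>
      have h : Er G m0 (r + 1) (k + 1) = fun f : U × U → ℝ =>
          (∑ g ∈ G, m0 (fun v => Er G m0 r k (fun p => f (v * g * v⁻¹ * p.1, p.2)))) /
            (G.card : ℝ) := by
        funext f
        simp only [Er]
      rw [h]
      exact T08_mean_avg G hG
        (fun g f => m0 (fun v => Er G m0 r k (fun p => f (v * g * v⁻¹ * p.1, p.2))))
        (fun g => T08_mean_bind hm0 (fun v f => Er G m0 r k (fun p => f (v * g * v⁻¹ * p.1, p.2)))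
          (fun v => T08_mean_pull (ih k) (fun p => (v * g * v⁻¹ * p.1, p.2))))

theorem ultra_tendsto {I : Type v} {κ : Type v} (F : Ultrafilter κ) (m : κ → (I → ℝ) → ℝ)
    (hm : ∀ k, IsMean (m k)) (f : I → ℝ) (hf : Bdd f) :
    Filter.Tendsto (fun k => m k f) (F : Filter κ) (nhds (ulim F (fun k => m k f))) := by
  obtain ⟨C, hC⟩ := hf
  have hmem : ∀ k, m k f ∈ Set.Icc (-C) C := fun k => abs_le.mp (T08_mean_le (hm k) hC)
  have hle : ((F.map (fun k => m k f) : Ultrafilter ℝ) : Filter ℝ) ≤
      Filter.principal (Set.Icc (-C) C) := by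
    rw [Ultrafilter.coe_map, Filter.le_principal_iff, Filter.mem_map]
    exact Filter.Eventually.of_forall hmem
  obtain ⟨y, _, hy⟩ := isCompact_Icc.ultrafilter_le_nhds _ hle
  have hex : ∃ y, Filter.Tendsto (fun k => m k f) (F : Filter κ) (nhds y) := ⟨y, hy⟩
  exact Classical.epsilon_spec hex

theorem ultra_isMean {I : Type v} {κ : Type v} (F : Ultrafilter κ) (m : κ → (I → ℝ) → ℝ)
    (hm : ∀ k, IsMean (m k)) : IsMean (fun f => ulim F (fun k => m k f)) where
  add f g hf hg := by
    have hfg : Bdd (fun i => f i + g i) := by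
      obtain ⟨C, hC⟩ := hf
      obtain ⟨C', hC'⟩ := hg
      exact ⟨C + C', fun i => (abs_add_le _ _).trans (add_le_add (hC i) (hC' i))⟩
    have h1 := ultra_tendsto F m hm _ hfg
    have h2 := (ultra_tendsto F m hm f hf).add (ultra_tendsto F m hm g hg)
    have h3 : (fun k => m k (fun i => f i + g i)) = fun k => m k f + m k g :=
      funext fun k => (hm k).add f g hf hg
    rw [← h3] at h2
    exact tendsto_nhds_unique h1 h2
  smul c f hf := by
    have hcf : Bdd (fun i => c * f i) := by
      obtain ⟨C, hC⟩ := hf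
      refine ⟨|c| * C, fun i => ?_⟩
      rw [abs_mul]
      exact mul_le_mul_of_nonneg_left (hC i) (abs_nonneg c)
    have h1 := ultra_tendsto F m hm _ hcf
    have h2 := (ultra_tendsto F m hm f hf).const_mul c
    have h3 : (fun k => m k (fun i => c * f i)) = fun k => c * m k f :=
      funext fun k => (hm k).smul c f hf
    rw [← h3] at h2
    exact tendsto_nhds_unique h1 h2
  mono f g hf hg h :=
    le_of_tendsto_of_tendsto' (ultra_tendsto F m hm f hf) (ultra_tendsto F m hm g hg)
      (fun k => (hm k).mono f g hf hg h)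
  const c := by
    have h1 := ultra_tendsto F m hm (fun _ => c) (T08_bdd_const c)
    have h3 : (fun k => m k (fun _ => c)) = fun _ => c := funext fun k => (hm k).const c
    have h2 : Filter.Tendsto (fun k => m k (fun _ => c)) (F : Filter κ) (nhds c) := by
      rw [h3]
      exact tendsto_const_nhds
    exact tendsto_nhds_unique h1 h2

end H730HC
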