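import Pool.Agent.H730R3.HC.Defs
import Pool.Agent.H730R3.HC.T01
import Pool.Agent.H730R3.HC.T05
import Pool.Agent.H730R3.HC.T06
import Pool.Agent.H730R3.HC.T08
import Pool.Agent.H730R3.HC.T34

set_option autoImplicit false

namespace H730HC

open Finset
open scoped ComplexConjugate

universe u v

variable {M : Type u} [CStarAlgebra M] {τ : M →ₗ[ℂ] ℂ}



theorem exists_mix (hτ : IsTracial M τ) : ∃ m0 : (unitary M → ℝ) → ℝ, IsMean m0 ∧
    ∀ a x : M, m0 (fun v => (τ (a * ((v : M) * x * star (v : M)))).re) = (τ (a * Ez τ x)).re := by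
  classical
  have hd : ∀ k : Finset M × ℕ, ∃ (J : Finset (unitary M)) (l : unitary M → ℝ),
      (∀ v ∈ J, 0 ≤ l v) ∧ ∑ v ∈ J, l v = 1 ∧
      ∀ x ∈ k.1, sq τ ((∑ v ∈ J, (l v : ℂ) • ((v : M) * x * star (v : M))) - Ez τ x) ≤
        1 / ((k.2 : ℝ) + 1) :=
    fun k => dixmier hτ k.1 _ (by positivity)
  choose J l h0 h1 h2 using hd
  let m : (Finset M × ℕ) → (unitary M → ℝ) → ℝ := fun k f => ∑ v ∈ J k, l k v * f v
  have hm : ∀ k, IsMean (m k) := by
    intro k
    constructor
    · intro f g _ _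
      simp only [m, mul_add, sum_add_distrib]
    · intro c f _
      simp only [m, mul_sum]
      exact sum_congr rfl fun v _ => by ring
    · intro f g _ _ h
      exact sum_le_sum fun v hv => mul_le_mul_of_nonneg_left (h v) (h0 k v hv)
    · intro c
      simp only [m, ← sum_mul, h1, one_mul]
  let F : Ultrafilter (Finset M × ℕ) := Ultrafilter.of Filter.atTop
  have hF : (F : Filter (Finset M × ℕ)) ≤ Filter.atTop := Ultrafilter.of_le _
  refine ⟨fun f => ulim F (fun k => m k f), ultra_isMean F m hm, fun a x => ?_⟩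
  have hb : Bdd (fun v : unitary M => (τ (a * ((v : M) * x * star (v : M)))).re) := by
    refine ⟨‖a‖ * ‖x‖, fun v => (re_le_norm hτ _).trans ?_⟩
    refine (norm_mul_le _ _).trans (mul_le_mul_of_nonneg_left ?_ (norm_nonneg _))
    have h1 : ‖(v : M) * x * star (v : M)‖ = ‖x‖ := by
      have h := CStarRing.norm_mul_coe_unitary ((v : M) * x) (star v)
      rw [Unitary.coe_star] at h
      rw [h, CStarRing.norm_coe_unitary_mul]
    exact h1.le
  have ht := ultra_tendsto F m hm _ hb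
  refine tendsto_nhds_unique ht (Filter.Tendsto.mono_left ?_ hF)
  rw [Metric.tendsto_atTop]
  intro ε hε
  obtain ⟨K, hK⟩ := exists_nat_gt (sq τ (star a) / ε ^ 2)
  refine ⟨({x}, K), fun k hk => ?_⟩
  have hk1 : x ∈ k.1 := hk.1 (Finset.mem_singleton_self x)
  have hk2 : K ≤ k.2 := hk.2
  set D : M := (∑ v ∈ J k, (l k v : ℂ) • ((v : M) * x * star (v : M))) - Ez τ x with hD
  have e1 : m k (fun v => (τ (a * ((v : M) * x * star (v : M)))).re) - (τ (a * Ez τ x)).re
      = (τ (star (star a) * D)).re := by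
    have : a * D = (∑ v ∈ J k, (l k v : ℂ) • (a * ((v : M) * x * star (v : M)))) - a * Ez τ x := by
      rw [hD, mul_sub, mul_sum]
      congr 1
      exact sum_congr rfl fun v _ => mul_smul_comm _ _ _
    rw [star_star, this, map_sub, map_sum, Complex.sub_re, Complex.re_sum]
    congr 1
    refine sum_congr rfl fun v _ => ?_
    rw [map_smul, smul_eq_mul, Complex.re_ofReal_mul]
  rw [Real.dist_eq, e1]
  have e2 := cs_sq hτ (star a) D
  have e3 : sq τ D ≤ 1 / ((k.2 : ℝ) + 1) := h2 k x hk1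
  have hs0 := sq_nonneg' hτ (star a)
  have e4 : sq τ (star a) * sq τ D < ε ^ 2 := by
    have hk3 : (K : ℝ) ≤ (k.2 : ℝ) := by exact_mod_cast hk2
    have hpos : (0 : ℝ) < (k.2 : ℝ) + 1 := by positivity
    calc sq τ (star a) * sq τ D ≤ sq τ (star a) * (1 / ((k.2 : ℝ) + 1)) :=
          mul_le_mul_of_nonneg_left e3 hs0
      _ = sq τ (star a) / ((k.2 : ℝ) + 1) := by ring
      _ < ε ^ 2 := by
          rw [div_lt_iff₀ hpos]
          have : sq τ (star a) < K * ε ^ 2 := (div_lt_iff₀ (by positivity)).1 hK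
          nlinarith [sq_nonneg ε, mul_le_mul_of_nonneg_right hk3 (sq_nonneg ε)]
  exact abs_lt_of_sq_lt_sq (lt_of_le_of_lt e2 e4) hε.le

end H730HC
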