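import Pool.Agent.H730R3.HC.Defs
import Pool.Agent.H730R3.HC.T01
import Pool.Agent.H730R3.HC.T03
import Pool.Agent.H730R3.HC.T04
import Pool.Agent.H730R3.HC.T06
import Pool.Agent.H730R3.HC.T08

set_option autoImplicit false

namespace H730HC

open Finset
open scoped ComplexConjugate

universe u v

variable {M : Type u} [CStarAlgebra M] {τ : M →ₗ[ℂ] ℂ}



/-! ### helper lemmas for T09 -/

theorem T09_mean_bound {I : Type*} {m : (I → ℝ) → ℝ} (hm : IsMean m) {f : I → ℝ} {C : ℝ}
    (h : ∀ i, |f i| ≤ C) : |m f| ≤ C := by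
  have hf : Bdd f := ⟨C, h⟩
  have hc : ∀ c : ℝ, Bdd (fun _ : I => c) := fun c => ⟨|c|, fun _ => le_refl _⟩
  have h1 : m f ≤ C := by
    have := hm.mono f (fun _ => C) hf (hc C) (fun i => (abs_le.1 (h i)).2)
    rwa [hm.const] at this
  have h2 : -C ≤ m f := by
    have := hm.mono (fun _ => -C) f (hc (-C)) hf (fun i => (abs_le.1 (h i)).1)
    rwa [hm.const] at this
  exact abs_le.2 ⟨h2, h1⟩

theorem T09_bdd_add {I : Type*} {f g : I → ℝ} (hf : Bdd f) (hg : Bdd g) :
    Bdd (fun i => f i + g i) := by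
  obtain ⟨C, hC⟩ := hf
  obtain ⟨D, hD⟩ := hg
  exact ⟨C + D, fun i => (abs_add_le _ _).trans (add_le_add (hC i) (hD i))⟩

theorem T09_bdd_smul {I : Type*} {f : I → ℝ} (c : ℝ) (hf : Bdd f) :
    Bdd (fun i => c * f i) := by
  obtain ⟨C, hC⟩ := hf
  exact ⟨|c| * C, fun i => by rw [abs_mul]; exact mul_le_mul_of_nonneg_left (hC i) (abs_nonneg _)⟩

theorem T09_bdd_const {I : Type*} (c : ℝ) : Bdd (fun _ : I => c) := ⟨|c|, fun _ => le_refl _⟩

theorem T09_bdd_sum {I : Type*} {ι : Type*} (s : Finset ι) (f : ι → I → ℝ)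
    (hf : ∀ j ∈ s, Bdd (f j)) : Bdd (fun i => ∑ j ∈ s, f j i) := by
  classical
  induction s using Finset.induction_on with
  | empty => simpa using T09_bdd_const (I := I) 0
  | insert a s ha ih =>
    have h1 := T09_bdd_add (hf a (Finset.mem_insert_self a s))
      (ih (fun j hj => hf j (Finset.mem_insert_of_mem hj)))
    simpa [Finset.sum_insert ha] using h1

theorem T09_mean_sum {I : Type*} {m : (I → ℝ) → ℝ} (hm : IsMean m) {ι : Type*} (s : Finset ι)
    (f : ι → I → ℝ) (hf : ∀ j ∈ s, Bdd (f j)) :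
    m (fun i => ∑ j ∈ s, f j i) = ∑ j ∈ s, m (f j) := by
  classical
  induction s using Finset.induction_on with
  | empty => simpa using hm.const 0
  | insert a s ha ih =>
    have h1 := hm.add (f a) (fun i => ∑ j ∈ s, f j i) (hf a (Finset.mem_insert_self a s))
      (T09_bdd_sum s f (fun j hj => hf j (Finset.mem_insert_of_mem hj)))
    rw [Finset.sum_insert ha, ← ih (fun j hj => hf j (Finset.mem_insert_of_mem hj)), ← h1]
    congr 1
    funext i
    rw [Finset.sum_insert ha]

theorem T09_mean_sub {I : Type*} {m : (I → ℝ) → ℝ} (hm : IsMean m) {f g : I → ℝ}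
    (hf : Bdd f) (hg : Bdd g) : m (fun i => f i - g i) = m f - m g := by
  have h1 := hm.add f (fun i => (-1) * g i) hf (T09_bdd_smul (-1) hg)
  rw [hm.smul (-1) g hg] at h1
  have h2 : (fun i => f i + (-1) * g i) = (fun i => f i - g i) := by funext i; ring
  rw [h2] at h1
  rw [h1]; ring

/-- average over the letter and the conjugating unitary -/
noncomputable def T09_av {U : Type*} (G : Finset U) (m0 : (U → ℝ) → ℝ) (f : U × U → ℝ) : ℝ :=
  (∑ g ∈ G, m0 (fun v => f (g, v))) / (G.card : ℝ)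

theorem T09_av_isMean {U : Type*} (G : Finset U) (hG : G.Nonempty) (m0 : (U → ℝ) → ℝ)
    (hm0 : IsMean m0) : IsMean (T09_av G m0) := by
  have hN : (0 : ℝ) < (G.card : ℝ) := by exact_mod_cast Finset.card_pos.2 hG
  have hb : ∀ (f : U × U → ℝ), Bdd f → ∀ g, Bdd (fun v => f (g, v)) := by
    rintro f ⟨C, hC⟩ g
    exact ⟨C, fun v => hC (g, v)⟩
  refine ⟨?_, ?_, ?_, ?_⟩
  · intro f g hf hg
    unfold T09_av
    rw [← add_div, ← Finset.sum_add_distrib]
    congr 1
    exact Finset.sum_congr rfl fun x _ => hm0.add _ _ (hb f hf x) (hb g hg x)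
  · intro c f hf
    unfold T09_av
    rw [← mul_div_assoc, Finset.mul_sum]
    congr 1
    exact Finset.sum_congr rfl fun x _ => hm0.smul _ _ (hb f hf x)
  · intro f g hf hg hfg
    unfold T09_av
    refine div_le_div_of_nonneg_right ?_ hN.le
    exact Finset.sum_le_sum fun x _ => hm0.mono _ _ (hb f hf x) (hb g hg x) fun v => hfg (x, v)
  · intro c
    unfold T09_av
    rw [Finset.sum_congr rfl fun x _ => hm0.const c]
    rw [Finset.sum_const, nsmul_eq_mul]
    field_simp

theorem T09_norm_conj (u : unitary M) (x : M) : ‖(u : M) * x * star (u : M)‖ = ‖x‖ := by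
  rw [← Unitary.coe_star, CStarRing.norm_mul_coe_unitary, CStarRing.norm_coe_unitary_mul]

theorem T09_norm_conj' (u : unitary M) (x : M) : ‖star (u : M) * x * (u : M)‖ = ‖x‖ := by
  rw [CStarRing.norm_mul_coe_unitary, ← Unitary.coe_star, CStarRing.norm_coe_unitary_mul]

theorem T09_re_comm (hτ : IsTracial M τ) (a b : M) :
    (τ (star a * b)).re = (τ (star b * a)).re := by
  have h := tau_star hτ (star a * b)
  rw [star_mul, star_star] at h
  rw [h, Complex.conj_re]

theorem T09_Ez_isCen (x : M) : IsCen (Ez τ x) := by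
  unfold Ez
  split_ifs with h
  · exact h.choose_spec.1
  · intro y; simp

theorem T09_cen_orth (hτ : IsTracial M τ) {z : M} (hz : IsCen z) (x : M) :
    (τ (star z * perp τ x)).re = 0 := by
  have h1 : perp τ (perp τ x + z) = perp τ x := by
    rw [perp_add hτ]
    have h2 : perp τ (perp τ x) = perp τ x := by
      conv_lhs => unfold perp
      have := Ez_perp hτ x
      unfold perp at this
      unfold perp
      rw [this, sub_zero]
    have h3 : perp τ z = 0 := by
      unfold perp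
      rw [Ez_cen hτ hz, sub_self]
    rw [h2, h3, add_zero]
  have h4 := re_perp hτ (perp τ x + z)
  rw [h1, star_add, add_mul, map_add, Complex.add_re] at h4
  unfold sq at h4
  linarith

theorem T09_half (hτ : IsTracial M τ) (x y : M) :
    (τ (star x * y)).re ≤ (sq τ x + sq τ y) / 2 := by
  have h1 := sq_sub hτ x y
  have h2 := sq_nonneg' hτ (x - y)
  linarith

theorem T09_bdd_sq (hτ : IsTracial M τ) {I : Type*} {X : I → M} {C : ℝ} (hX : ∀ i, ‖X i‖ ≤ C) :
    Bdd (fun i => sq τ (X i)) := by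
  refine ⟨C ^ 2, fun i => ?_⟩
  rw [abs_of_nonneg (sq_nonneg' hτ _)]
  exact (sq_le_norm hτ _).trans (pow_le_pow_left₀ (norm_nonneg _) (hX i) 2)

theorem T09_bdd_re (hτ : IsTracial M τ) {I : Type*} {X : I → M} {C : ℝ} (hX : ∀ i, ‖X i‖ ≤ C) :
    Bdd (fun i => (τ (X i)).re) :=
  ⟨C, fun i => (re_le_norm hτ _).trans (hX i)⟩

theorem T09_bdd_sqperp (hτ : IsTracial M τ) {I : Type*} {X : I → M} {C : ℝ}
    (hX : ∀ i, ‖X i‖ ≤ C) : Bdd (fun i => sq τ (perp τ (X i))) := by
  refine ⟨C ^ 2, fun i => ?_⟩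
  rw [abs_of_nonneg (sq_nonneg' hτ _)]
  exact (sq_perp_le hτ _).trans
    ((sq_le_norm hτ _).trans (pow_le_pow_left₀ (norm_nonneg _) (hX i) 2))

/-- Jensen's inequality -/
theorem T09_jensen (hτ : IsTracial M τ) {I : Type*} {m : (I → ℝ) → ℝ} (hm : IsMean m)
    {X : I → M} {C : ℝ} (hX : ∀ i, ‖X i‖ ≤ C) {x : M}
    (hx : ∀ a, (τ (x * a)).re = m (fun i => (τ (X i * a)).re)) :
    sq τ (perp τ x) ≤ m (fun i => sq τ (perp τ (X i))) := by
  have h1 : sq τ (perp τ x) = m (fun i => (τ (X i * star (perp τ x))).re) := by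
    rw [← hx, hτ.comm x, T09_re_comm hτ, re_perp hτ]
  have hb1 : Bdd (fun i => (τ (X i * star (perp τ x))).re) := by
    refine T09_bdd_re hτ (C := C * ‖star (perp τ x)‖) fun i => ?_
    exact (norm_mul_le _ _).trans (mul_le_mul_of_nonneg_right (hX i) (norm_nonneg _))
  have hb2 : Bdd (fun i => sq τ (perp τ (X i))) := T09_bdd_sqperp hτ hX
  have h2 : ∀ i, (τ (X i * star (perp τ x))).re
      ≤ (1 / 2) * sq τ (perp τ x) + (1 / 2) * sq τ (perp τ (X i)) := by
    intro i
    have h3 : (τ (X i * star (perp τ x))).re = (τ (star (perp τ x) * perp τ (X i))).re := by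
      rw [hτ.comm (X i)]
      have h4 : (τ (star (perp τ x) * Ez τ (X i))).re = 0 := by
        rw [T09_re_comm hτ]
        exact T09_cen_orth hτ (T09_Ez_isCen (X i)) x
      have h5 : star (perp τ x) * X i
          = star (perp τ x) * perp τ (X i) + star (perp τ x) * Ez τ (X i) := by
        rw [← mul_add]
        congr 1
        unfold perp
        rw [sub_add_cancel]
      rw [h5, map_add, Complex.add_re, h4, add_zero]
    rw [h3]
    have := T09_half hτ (perp τ x) (perp τ (X i))
    linarith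
  have h3 := hm.mono _ (fun i => (1 / 2) * sq τ (perp τ x) + (1 / 2) * sq τ (perp τ (X i))) hb1
    (T09_bdd_add (T09_bdd_const _) (T09_bdd_smul _ hb2)) h2
  rw [hm.add (fun _ => (1 / 2) * sq τ (perp τ x)) (fun i => (1 / 2) * sq τ (perp τ (X i)))
    (T09_bdd_const _) (T09_bdd_smul _ hb2), hm.const, hm.smul _ _ hb2, ← h1] at h3
  linarith

theorem T09_mean_lin {I : Type*} {m : (I → ℝ) → ℝ} (hm : IsMean m) {f g h s : I → ℝ}
    (hf : Bdd f) (hg : Bdd g) (hh : Bdd h) (hs : Bdd s) :
    m (fun i => f i - 2 * g i + (2 * h i + s i)) = m f - 2 * m g + (2 * m h + m s) := by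
  have e : (fun i => f i - 2 * g i + (2 * h i + s i))
      = (fun i => (f i + (-2) * g i) + (2 * h i + s i)) := by funext i; ring
  rw [e, hm.add (fun i => f i + (-2) * g i) (fun i => 2 * h i + s i)
    (T09_bdd_add hf (T09_bdd_smul _ hg)) (T09_bdd_add (T09_bdd_smul _ hh) hs),
    hm.add f (fun i => (-2) * g i) hf (T09_bdd_smul _ hg),
    hm.add (fun i => 2 * h i) s (T09_bdd_smul _ hh) hs, hm.smul _ g hg, hm.smul _ h hh]
  ring

theorem T09_Ez_norm (hτ : IsTracial M τ) (m0 : (unitary M → ℝ) → ℝ) (hm0 : IsMean m0)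
    (hmix : ∀ a x : M, m0 (fun v => (τ (a * ((v : M) * x * star (v : M)))).re) = (τ (a * Ez τ x)).re)
    (x : M) : ‖Ez τ x‖ ≤ ‖x‖ := by
  have hb : ∀ v : unitary M, ‖(v : M) * x * star (v : M)‖ ≤ ‖x‖ := fun v =>
    (T09_norm_conj v x).le
  have h1 := EE_unique hτ hm0 (fun v : unitary M => (v : M) * x * star (v : M)) ‖x‖ hb
    (x := Ez τ x) (by
      intro y
      rw [hτ.comm (Ez τ x) y, ← hmix y x]
      congr 1
      funext v
      rw [hτ.comm y])
  rw [← h1]
  exact (EE_spec hτ hm0 _ ‖x‖ hb).2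

theorem T09_sq_conj' (hτ : IsTracial M τ) (u : unitary M) (x : M) :
    sq τ (star (u : M) * x * (u : M)) = sq τ x := by
  have h := sq_unitary hτ (star u) x
  rw [Unitary.coe_star, star_star] at h
  exact h

theorem bessel (hτ : IsTracial M τ) (m0 : (unitary M → ℝ) → ℝ) (hm0 : IsMean m0)
    (hmix : ∀ a x : M, m0 (fun v => (τ (a * ((v : M) * x * star (v : M)))).re) = (τ (a * Ez τ x)).re)
    (G : Finset (unitary M)) (hG : G.Nonempty) (r : ℕ) :
    ∀ (C : ℝ) (Z : unitary M → M), (∀ g, ‖Z g‖ ≤ C) → ∀ c : M,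
      ∑ k ∈ range r, (∑ g ∈ G, sq τ (perp τ (EE τ (Er G m0 r k)
        (fun p => star (p.1 : M) * Z (p.1 * g * p.2) * (p.1 : M))))) / (G.card : ℝ)
      ≤ nu G m0 r (fun A => sq τ (Z A - c)) := by
  have hN : (0 : ℝ) < (G.card : ℝ) := by exact_mod_cast Finset.card_pos.2 hG
  induction r with
  | zero =>
    intro C Z hZ c
    simpa [nu] using sq_nonneg' hτ (Z 1 - c)
  | succ r ih =>
    intro C Z hZ c
    -- notation
    set y : unitary M → M := fun g => EE τ (Er G m0 (r + 1) 0)
      (fun p => star (p.1 : M) * Z (p.1 * g * p.2) * (p.1 : M)) with hy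
    set w : unitary M → M := fun g => perp τ (y g) with hw
    have hZb : ∀ (p : unitary M) (A : unitary M), ‖star (p : M) * Z A * (p : M)‖ ≤ C := by
      intro p A
      rw [T09_norm_conj']
      exact hZ A
    set Z' : unitary M × unitary M → unitary M → M := fun q A =>
      star ((q.2 * q.1 * q.2⁻¹ : unitary M) : M) * Z ((q.2 * q.1 * q.2⁻¹) * A) *
        ((q.2 * q.1 * q.2⁻¹ : unitary M) : M) with hZ'
    set b : unitary M × unitary M → M := fun q => (q.2 : M) * w q.1 * star (q.2 : M) with hb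
    set c' : unitary M × unitary M → M := fun q =>
      star ((q.2 * q.1 * q.2⁻¹ : unitary M) : M) * (c + b q) *
        ((q.2 * q.1 * q.2⁻¹ : unitary M) : M) with hc'
    have hZ'b : ∀ q A, ‖Z' q A‖ ≤ C := fun q A => hZb _ _
    set X : ℕ → unitary M → unitary M × unitary M → M := fun k g' q =>
      EE τ (Er G m0 r k) (fun p => star (p.1 : M) * Z' q (p.1 * g' * p.2) * (p.1 : M)) with hX
    have hZ'bb : ∀ q (p : unitary M) (A : unitary M),
        ‖star (p : M) * Z' q A * (p : M)‖ ≤ C := by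
      intro q p A
      rw [T09_norm_conj']
      exact hZ'b q A
    have hXb : ∀ k g' q, ‖X k g' q‖ ≤ C := fun k g' q =>
      (EE_spec hτ (Er_isMean G hG m0 hm0 r k) _ C (fun p => hZ'bb q p.1 _)).2
    have hav := T09_av_isMean G hG m0 hm0
    -- induction hypothesis
    have h1 : ∀ q, ∑ k ∈ range r, (∑ g' ∈ G, sq τ (perp τ (X k g' q))) / (G.card : ℝ)
        ≤ nu G m0 r (fun A => sq τ (Z' q A - c' q)) :=
      fun q => ih C (Z' q) (hZ'b q) (c' q)
    -- Jensen
    have h2 : ∀ k g', sq τ (perp τ (EE τ (Er G m0 (r + 1) (k + 1))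
        (fun p => star (p.1 : M) * Z (p.1 * g' * p.2) * (p.1 : M))))
        ≤ T09_av G m0 (fun q => sq τ (perp τ (X k g' q))) := by
      intro k g'
      refine T09_jensen hτ hav (fun q => hXb k g' q) ?_
      intro a
      rw [(EE_spec hτ (Er_isMean G hG m0 hm0 (r + 1) (k + 1)) _ C (fun p => hZb p.1 _)).1 a]
      have h3 : ∀ q, (τ (X k g' q * a)).re = Er G m0 r k (fun p =>
          (τ (star (p.1 : M) * Z' q (p.1 * g' * p.2) * (p.1 : M) * a)).re) := fun q =>
        (EE_spec hτ (Er_isMean G hG m0 hm0 r k) _ C (fun p => hZ'bb q p.1 _)).1 a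
      simp only [h3]
      show (∑ g ∈ G, m0 (fun v => Er G m0 r k (fun p =>
          (τ (star ((v * g * v⁻¹ * p.1 : unitary M) : M) * Z (v * g * v⁻¹ * p.1 * g' * p.2) *
            ((v * g * v⁻¹ * p.1 : unitary M) : M) * a)).re))) / (G.card : ℝ)
        = (∑ g ∈ G, m0 (fun v => Er G m0 r k (fun p =>
          (τ (star (p.1 : M) * Z' (g, v) (p.1 * g' * p.2) * (p.1 : M) * a)).re))) / (G.card : ℝ)
      congr 1
      refine Finset.sum_congr rfl fun g _ => ?_
      congr 1
      funext v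
      congr 1
      funext p
      congr 3
      simp only [hZ']
      rw [Submonoid.coe_mul (unitary M) (v * g * v⁻¹) p.1, star_mul]
      simp only [mul_assoc]
    have hsum1 : ∀ k, Bdd (fun q => (∑ g' ∈ G, sq τ (perp τ (X k g' q))) / (G.card : ℝ)) := by
      intro k
      have h5 := T09_bdd_smul ((G.card : ℝ)⁻¹) (T09_bdd_sum G
        (fun g' q => sq τ (perp τ (X k g' q))) (fun g' _ => T09_bdd_sqperp hτ (fun q => hXb k g' q)))
      have e : (fun q => (∑ g' ∈ G, sq τ (perp τ (X k g' q))) / (G.card : ℝ))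
        = (fun q => (G.card : ℝ)⁻¹ * ∑ g' ∈ G, sq τ (perp τ (X k g' q))) := by
        funext q; rw [div_eq_inv_mul]
      rw [e]
      exact h5
    have h4 : ∑ k ∈ range r, (∑ g' ∈ G, sq τ (perp τ (EE τ (Er G m0 (r + 1) (k + 1))
        (fun p => star (p.1 : M) * Z (p.1 * g' * p.2) * (p.1 : M))))) / (G.card : ℝ)
        ≤ T09_av G m0 (fun q => ∑ k ∈ range r,
            (∑ g' ∈ G, sq τ (perp τ (X k g' q))) / (G.card : ℝ)) := by
      rw [T09_mean_sum hav (range r)
        (fun k q => (∑ g' ∈ G, sq τ (perp τ (X k g' q))) / (G.card : ℝ)) (fun k _ => hsum1 k)]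
      refine Finset.sum_le_sum fun k _ => ?_
      have e : (fun q => (∑ g' ∈ G, sq τ (perp τ (X k g' q))) / (G.card : ℝ))
        = (fun q => (G.card : ℝ)⁻¹ * ∑ g' ∈ G, sq τ (perp τ (X k g' q))) := by
        funext q; rw [div_eq_inv_mul]
      rw [e, hav.smul _ (fun q => ∑ g' ∈ G, sq τ (perp τ (X k g' q)))
        (T09_bdd_sum G (fun g' q => sq τ (perp τ (X k g' q)))
          (fun g' _ => T09_bdd_sqperp hτ (fun q => hXb k g' q))),
        T09_mean_sum hav G (fun g' q => sq τ (perp τ (X k g' q)))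
          (fun g' _ => T09_bdd_sqperp hτ (fun q => hXb k g' q)), div_eq_inv_mul]
      exact mul_le_mul_of_nonneg_left (Finset.sum_le_sum fun g' _ => h2 k g')
        (inv_nonneg.2 hN.le)
    have hnu := nu_isMean G hG m0 hm0 r
    -- bounds
    have hyb : ∀ g, ‖y g‖ ≤ C := fun g =>
      (EE_spec hτ (Er_isMean G hG m0 hm0 (r + 1) 0) _ C (fun p => hZb p.1 _)).2
    have hwb : ∀ g, ‖w g‖ ≤ C + C := by
      intro g
      simp only [hw]
      unfold perp
      exact (norm_sub_le _ _).trans (add_le_add (hyb g)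
        ((T09_Ez_norm hτ m0 hm0 hmix (y g)).trans (hyb g)))
    have hbb : ∀ q, ‖b q‖ ≤ C + C := by
      intro q
      simp only [hb]
      rw [T09_norm_conj]
      exact hwb q.1
    have hC : 0 ≤ C := (norm_nonneg _).trans (hZ 1)
    have hZcb : ∀ A, ‖Z A - c‖ ≤ C + ‖c‖ := fun A =>
      (norm_sub_le _ _).trans (add_le_add (hZ A) le_rfl)
    have hbZ : ∀ q A, ‖star (b q) * Z A‖ ≤ (C + C) * C := by
      intro q A
      refine (norm_mul_le _ _).trans ?_
      rw [norm_star]
      exact mul_le_mul (hbb q) (hZ A) (norm_nonneg _) (by linarith)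
    have hbc : ∀ q, ‖star (b q) * c‖ ≤ (C + C) * ‖c‖ := by
      intro q
      refine (norm_mul_le _ _).trans ?_
      rw [norm_star]
      exact mul_le_mul_of_nonneg_right (hbb q) (norm_nonneg _)
    have h6 : ∀ q, Bdd (fun A => sq τ (Z' q A - c' q)) := by
      intro q
      refine T09_bdd_sq hτ (C := C + ‖c' q‖) fun A => ?_
      exact (norm_sub_le _ _).trans (add_le_add (hZ'b q A) le_rfl)
    -- expansion
    have h7 : ∀ q A, sq τ (Z' q A - c' q) = sq τ (Z ((q.2 * q.1 * q.2⁻¹) * A) - c)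
        - 2 * (τ (star (b q) * Z ((q.2 * q.1 * q.2⁻¹) * A))).re
        + (2 * (τ (star (b q) * c)).re + sq τ (w q.1)) := by
      intro q A
      have e1 : Z' q A - c' q = star ((q.2 * q.1 * q.2⁻¹ : unitary M) : M)
          * ((Z ((q.2 * q.1 * q.2⁻¹) * A) - c) - b q) * ((q.2 * q.1 * q.2⁻¹ : unitary M) : M) := by
        simp only [hZ', hc']
        rw [← sub_mul, ← mul_sub, sub_sub]
      have e2 : sq τ (b q) = sq τ (w q.1) := sq_unitary hτ q.2 (w q.1)
      rw [e1, T09_sq_conj' hτ, sq_sub hτ, e2, T09_re_comm hτ _ (b q), mul_sub, map_sub,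
        Complex.sub_re]
      ring
    have h8 : ∀ q, nu G m0 r (fun A => sq τ (Z' q A - c' q))
        = nu G m0 r (fun A => sq τ (Z ((q.2 * q.1 * q.2⁻¹) * A) - c))
        - 2 * nu G m0 r (fun A => (τ (star (b q) * Z ((q.2 * q.1 * q.2⁻¹) * A))).re)
        + (2 * (τ (star (b q) * c)).re + sq τ (w q.1)) := by
      intro q
      have e1 : (fun A => sq τ (Z' q A - c' q)) = (fun A => sq τ (Z ((q.2 * q.1 * q.2⁻¹) * A) - c)
        - 2 * (τ (star (b q) * Z ((q.2 * q.1 * q.2⁻¹) * A))).re
        + (2 * (τ (star (b q) * c)).re + sq τ (w q.1))) := funext (h7 q)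
      rw [e1, T09_mean_lin hnu (f := fun A => sq τ (Z ((q.2 * q.1 * q.2⁻¹) * A) - c))
        (g := fun A => (τ (star (b q) * Z ((q.2 * q.1 * q.2⁻¹) * A))).re)
        (h := fun _ => (τ (star (b q) * c)).re) (s := fun _ => sq τ (w q.1))
        (T09_bdd_sq hτ (fun A => hZcb _)) (T09_bdd_re hτ (fun A => hbZ q _))
        (T09_bdd_const _) (T09_bdd_const _), hnu.const, hnu.const]
    have h9 : T09_av G m0 (fun q => nu G m0 r (fun A => sq τ (Z' q A - c' q)))
        = nu G m0 (r + 1) (fun A => sq τ (Z A - c)) - (∑ g ∈ G, sq τ (w g)) / (G.card : ℝ) := by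
      have e1 : (fun q => nu G m0 r (fun A => sq τ (Z' q A - c' q))) = (fun q =>
        nu G m0 r (fun A => sq τ (Z ((q.2 * q.1 * q.2⁻¹) * A) - c))
        - 2 * nu G m0 r (fun A => (τ (star (b q) * Z ((q.2 * q.1 * q.2⁻¹) * A))).re)
        + (2 * (τ (star (b q) * c)).re + sq τ (w q.1))) := funext h8
      have b1 : Bdd (fun q : unitary M × unitary M =>
          nu G m0 r (fun A => sq τ (Z ((q.2 * q.1 * q.2⁻¹) * A) - c))) := by
        refine ⟨(C + ‖c‖) ^ 2, fun q => T09_mean_bound hnu fun A => ?_⟩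
        rw [abs_of_nonneg (sq_nonneg' hτ _)]
        exact (sq_le_norm hτ _).trans (pow_le_pow_left₀ (norm_nonneg _) (hZcb _) 2)
      have b2 : Bdd (fun q : unitary M × unitary M =>
          nu G m0 r (fun A => (τ (star (b q) * Z ((q.2 * q.1 * q.2⁻¹) * A))).re)) :=
        ⟨(C + C) * C, fun q => T09_mean_bound hnu fun A => (re_le_norm hτ _).trans (hbZ q _)⟩
      have b3 : Bdd (fun q : unitary M × unitary M => (τ (star (b q) * c)).re) :=
        T09_bdd_re hτ hbc
      have b4 : Bdd (fun q : unitary M × unitary M => sq τ (w q.1)) :=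
        T09_bdd_sq hτ (fun q => hwb q.1)
      rw [e1, T09_mean_lin hav b1 b2 b3 b4]
      have v1 : T09_av G m0 (fun q : unitary M × unitary M =>
          nu G m0 r (fun A => sq τ (Z ((q.2 * q.1 * q.2⁻¹) * A) - c)))
          = nu G m0 (r + 1) (fun A => sq τ (Z A - c)) := rfl
      have v2 : T09_av G m0 (fun q : unitary M × unitary M =>
          nu G m0 r (fun A => (τ (star (b q) * Z ((q.2 * q.1 * q.2⁻¹) * A))).re))
          = (∑ g ∈ G, sq τ (w g)) / (G.card : ℝ) := by
        unfold T09_av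
        congr 1
        refine Finset.sum_congr rfl fun g _ => ?_
        have e2 : sq τ (w g) = (τ (y g * star (w g))).re := by
          rw [hτ.comm (y g), T09_re_comm hτ]
          exact (re_perp hτ (y g)).symm
        rw [e2]
        have e3 := (EE_spec hτ (Er_isMean G hG m0 hm0 (r + 1) 0)
          (fun p : unitary M × unitary M => star (p.1 : M) * Z (p.1 * g * p.2) * (p.1 : M))
          C (fun p => hZb p.1 _)).1 (star (w g))
        refine Eq.trans ?_ e3.symm
        show m0 (fun v => nu G m0 r (fun A => (τ (star (b (g, v)) * Z ((v * g * v⁻¹) * A))).re))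
          = m0 (fun v => nu G m0 r (fun A =>
            (τ (star (v : M) * Z (v * g * (v⁻¹ * A)) * (v : M) * star (w g))).re))
        congr 1
        funext v
        congr 1
        funext A
        simp only [hb]
        rw [star_mul, star_mul, star_star, ← mul_assoc (v * g) v⁻¹ A]
        have e4 : (v : M) * (star (w g) * star (v : M)) * Z (v * g * v⁻¹ * A)
          = ((v : M) * star (w g)) * (star (v : M) * Z (v * g * v⁻¹ * A)) := by
          simp only [mul_assoc]
        rw [e4, hτ.comm ((v : M) * star (w g))]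
        simp only [mul_assoc]
      have v3 : T09_av G m0 (fun q : unitary M × unitary M => (τ (star (b q) * c)).re) = 0 := by
        unfold T09_av
        rw [div_eq_zero_iff]
        left
        refine Finset.sum_eq_zero fun g _ => ?_
        have e2 : (fun v : unitary M => (τ (star (b (g, v)) * c)).re)
          = (fun v : unitary M => (τ (star c * ((v : M) * w g * star (v : M)))).re) := by
          funext v
          rw [T09_re_comm hτ]
        rw [e2, hmix, Ez_perp hτ, mul_zero, map_zero, Complex.zero_re]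
      have v4 : T09_av G m0 (fun q : unitary M × unitary M => sq τ (w q.1))
          = (∑ g ∈ G, sq τ (w g)) / (G.card : ℝ) := by
        unfold T09_av
        congr 1
        exact Finset.sum_congr rfl fun g _ => hm0.const (sq τ (w g))
      rw [v1, v2, v3, v4]
      ring
    have h10 : T09_av G m0 (fun q => ∑ k ∈ range r,
            (∑ g' ∈ G, sq τ (perp τ (X k g' q))) / (G.card : ℝ))
        ≤ T09_av G m0 (fun q => nu G m0 r (fun A => sq τ (Z' q A - c' q))) := by
      refine hav.mono _ _ (T09_bdd_sum (range r)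
        (fun k q => (∑ g' ∈ G, sq τ (perp τ (X k g' q))) / (G.card : ℝ)) (fun k _ => hsum1 k))
        ?_ h1
      refine ⟨(C + (‖c‖ + (C + C))) ^ 2, fun q => T09_mean_bound hnu fun A => ?_⟩
      rw [abs_of_nonneg (sq_nonneg' hτ _)]
      refine (sq_le_norm hτ _).trans (pow_le_pow_left₀ (norm_nonneg _) ?_ 2)
      refine (norm_sub_le _ _).trans (add_le_add (hZ'b q A) ?_)
      simp only [hc']
      rw [T09_norm_conj']
      exact (norm_add_le _ _).trans (add_le_add le_rfl (hbb q))
    rw [Finset.sum_range_succ']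
    have h11 : (∑ g ∈ G, sq τ (perp τ (EE τ (Er G m0 (r + 1) 0)
        (fun p => star (p.1 : M) * Z (p.1 * g * p.2) * (p.1 : M))))) / (G.card : ℝ)
        = (∑ g ∈ G, sq τ (w g)) / (G.card : ℝ) := rfl
    rw [h11]
    linarith

end H730HC
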