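import Pool.Agent.H730R3.HC.Defs
import Pool.Agent.H730R3.HC.T01
import Pool.Agent.H730R3.HC.T03
import Pool.Agent.H730R3.HC.T06
import Pool.Agent.H730R3.HC.T07
import Pool.Agent.H730R3.HC.T08
import Pool.Agent.H730R3.HC.T09

set_option autoImplicit false

namespace H730HC

open Finset
open scoped ComplexConjugate

universe u v

variable {M : Type u} [CStarAlgebra M] {τ : M →ₗ[ℂ] ℂ}



theorem sm_finite (hτ : IsTracial M τ) (C : ℝ) (Z : unitary M → M) (hZ : ∀ g, ‖Z g‖ ≤ C)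
    (G : Finset (unitary M)) (ε : ℝ) (hε : 0 < ε) :
    ∃ m : (unitary M × unitary M → ℝ) → ℝ, IsMean m ∧ ∀ g ∈ G,
      sq τ (perp τ (EE τ m (fun p => star (p.1 : M) * Z (p.1 * g * p.2) * (p.1 : M)))) ≤ ε := by
  rcases G.eq_empty_or_nonempty with rfl | hG
  · refine ⟨fun f => f (1, 1), ⟨fun _ _ _ _ => rfl, fun _ _ _ => rfl, fun _ _ _ _ h => h _,
      fun _ => rfl⟩, fun g hg => absurd hg (Finset.notMem_empty g)⟩
  · obtain ⟨m0, hm0, hmix⟩ := exists_mix (M := M) hτ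
    have hC0 : 0 ≤ C := (norm_nonneg _).trans (hZ 1)
    have hcard : (0 : ℝ) < (G.card : ℝ) := by exact_mod_cast Finset.card_pos.mpr hG
    obtain ⟨r, hr⟩ := exists_nat_gt (C ^ 2 * G.card / ε)
    have hr0 : (0 : ℝ) < (r : ℝ) := lt_of_le_of_lt (by positivity) hr
    have hb := bessel hτ m0 hm0 hmix G hG r C Z hZ 0
    have hnu : nu G m0 r (fun A => sq τ (Z A - 0)) ≤ C ^ 2 := by
      have hle : ∀ A, sq τ (Z A - 0) ≤ C ^ 2 := by
        intro A
        rw [sub_zero]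
        refine (sq_le_norm hτ (Z A)).trans ?_
        exact pow_le_pow_left₀ (norm_nonneg _) (hZ A) 2
      have hnn : ∀ A, 0 ≤ sq τ (Z A - 0) := fun A => sq_nonneg' hτ _
      have hI := nu_isMean G hG m0 hm0 r
      have h := hI.mono (fun A => sq τ (Z A - 0)) (fun _ => C ^ 2)
        ⟨C ^ 2, fun A => by rw [abs_of_nonneg (hnn A)]; exact hle A⟩
        ⟨|C ^ 2|, fun _ => le_rfl⟩ hle
      rwa [hI.const] at h
    by_contra hcon
    push Not at hcon
    have hk : ∀ k ∈ range r, ε / (G.card : ℝ) < (∑ g ∈ G, sq τ (perp τ (EE τ (Er G m0 r k)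
        (fun p => star (p.1 : M) * Z (p.1 * g * p.2) * (p.1 : M))))) / (G.card : ℝ) := by
      intro k _
      obtain ⟨g, hg, hlt⟩ := hcon (Er G m0 r k) (Er_isMean G hG m0 hm0 r k)
      refine div_lt_div_of_pos_right (lt_of_lt_of_le hlt ?_) hcard
      exact Finset.single_le_sum (f := fun g => sq τ (perp τ (EE τ (Er G m0 r k)
        (fun p => star (p.1 : M) * Z (p.1 * g * p.2) * (p.1 : M)))))
        (fun g _ => sq_nonneg' hτ _) hg
    have hsum : ∑ k ∈ range r, ε / (G.card : ℝ) ≤ ∑ k ∈ range r,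
        (∑ g ∈ G, sq τ (perp τ (EE τ (Er G m0 r k)
        (fun p => star (p.1 : M) * Z (p.1 * g * p.2) * (p.1 : M))))) / (G.card : ℝ) :=
      Finset.sum_le_sum fun k hk' => (hk k hk').le
    rw [Finset.sum_const, Finset.card_range, nsmul_eq_mul] at hsum
    have h1 : (r : ℝ) * (ε / (G.card : ℝ)) ≤ C ^ 2 := (hsum.trans hb).trans hnu
    have h2 : C ^ 2 * G.card < r * ε := by
      rwa [div_lt_iff₀ hε] at hr
    have h3 : (r : ℝ) * ε ≤ C ^ 2 * G.card := by
      rw [mul_div_assoc', div_le_iff₀ hcard] at h1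
      exact h1
    linarith

end H730HC
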