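import Pool.Agent.H730R3.HC.Defs
import Pool.Agent.H730R3.HC.T01
import Pool.Agent.H730R3.HC.T03
import Pool.Agent.H730R3.HC.T04
import Pool.Agent.H730R3.HC.T06
import Pool.Agent.H730R3.HC.T08
import Pool.Agent.H730R3.HC.T10

set_option autoImplicit false

namespace H730HC

open Finset
open scoped ComplexConjugate

universe u v

variable {M : Type u} [CStarAlgebra M] {τ : M →ₗ[ℂ] ℂ}



theorem T11_norm (C : ℝ) (Z : unitary M → M) (hZ : ∀ g, ‖Z g‖ ≤ C) (g : unitary M)
    (p : unitary M × unitary M) :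
    ‖star (p.1 : M) * Z (p.1 * g * p.2) * (p.1 : M)‖ ≤ C := by
  rw [CStarRing.norm_mul_coe_unitary]
  have e : star (p.1 : M) = ((star p.1 : unitary M) : M) := rfl
  rw [e, CStarRing.norm_coe_unitary_mul]
  exact hZ _

theorem T11_isCen_Ez (x : M) : IsCen (Ez τ x) := by
  unfold Ez
  split_ifs with h
  · exact h.choose_spec.1
  · intro y
    rw [zero_mul, mul_zero]

theorem T11_perp_cen (hτ : IsTracial M τ) {z : M} (hz : IsCen z) : perp τ z = 0 := by
  unfold perp
  rw [Ez_cen hτ hz, sub_self]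

theorem T11_orth (hτ : IsTracial M τ) (y : M) {z : M} (hz : IsCen z) :
    (τ (star z * perp τ y)).re = 0 := by
  have h1 := re_perp hτ (y + z)
  rw [perp_add hτ, T11_perp_cen hτ hz, add_zero, star_add, add_mul, map_add, Complex.add_re,
    re_perp hτ y] at h1
  linarith

theorem T11_re_star (hτ : IsTracial M τ) (x y : M) :
    (τ (x * star y)).re = (τ (star x * y)).re := by
  have h1 : τ (x * star y) = conj (τ (y * star x)) := by
    rw [← tau_star hτ, star_mul, star_star]
  rw [h1, Complex.conj_re, hτ.comm]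

theorem sm (hτ : IsTracial M τ) (C : ℝ) (Z : unitary M → M) (hZ : ∀ g, ‖Z g‖ ≤ C) :
    ∃ m : (unitary M × unitary M → ℝ) → ℝ, IsMean m ∧ ∀ g : unitary M,
      IsCen (EE τ m (fun p => star (p.1 : M) * Z (p.1 * g * p.2) * (p.1 : M))) := by
  classical
  have hex : ∀ κ : Finset (unitary M) × ℕ, ∃ m : (unitary M × unitary M → ℝ) → ℝ, IsMean m ∧
      ∀ g ∈ κ.1, sq τ (perp τ (EE τ m (fun p => star (p.1 : M) * Z (p.1 * g * p.2) * (p.1 : M))))
        ≤ 1 / ((κ.2 : ℝ) + 1) := fun κ => sm_finite hτ C Z hZ κ.1 _ (by positivity)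
  choose mk hmk hmk2 using hex
  let F : Ultrafilter (Finset (unitary M) × ℕ) := Ultrafilter.of Filter.atTop
  have hF : (F : Filter (Finset (unitary M) × ℕ)) ≤ Filter.atTop := Ultrafilter.of_le _
  have hm : IsMean (fun f => ulim F (fun k => mk k f)) := ultra_isMean F mk hmk
  refine ⟨fun f => ulim F (fun k => mk k f), hm, ?_⟩
  intro g
  set f : unitary M × unitary M → M :=
    fun p => star (p.1 : M) * Z (p.1 * g * p.2) * (p.1 : M) with hf
  have hfC : ∀ p, ‖f p‖ ≤ C := fun p => T11_norm C Z hZ g p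
  set X : M := EE τ (fun f => ulim F (fun k => mk k f)) f with hX
  have hspec := (EE_spec hτ hm f C hfC).1
  have hbdd : Bdd (fun i => (τ (f i * star (perp τ X))).re) := by
    refine ⟨C * ‖star (perp τ X)‖, fun i => ?_⟩
    refine le_trans (re_le_norm hτ _) ?_
    refine le_trans (norm_mul_le _ _) ?_
    exact mul_le_mul_of_nonneg_right (hfC i) (norm_nonneg _)
  have hlim := ultra_tendsto F mk hmk _ hbdd
  have hval : ulim F (fun k => mk k (fun i => (τ (f i * star (perp τ X))).re)) =
      sq τ (perp τ X) := by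
    have h1 := hspec (star (perp τ X))
    rw [← h1, T11_re_star hτ, re_perp hτ]
  rw [hval] at hlim
  have hbound : ∀ κ : Finset (unitary M) × ℕ, g ∈ κ.1 →
      (mk κ (fun i => (τ (f i * star (perp τ X))).re)) ^ 2 ≤
        1 / ((κ.2 : ℝ) + 1) * sq τ (perp τ X) := by
    intro κ hg
    have h1 := (EE_spec hτ (hmk κ) f C hfC).1 (star (perp τ X))
    rw [← h1]
    set Y : M := EE τ (mk κ) f with hY
    have h2 : (τ (Y * star (perp τ X))).re = (τ (star (perp τ Y) * perp τ X)).re := by
      rw [T11_re_star hτ]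
      have h3 : Y = perp τ Y + Ez τ Y := by unfold perp; abel
      have h4 := T11_orth hτ X (T11_isCen_Ez (τ := τ) Y)
      have h5 : star Y = star (perp τ Y) + star (Ez τ Y) := by
        rw [← star_add, ← h3]
      rw [h5, add_mul, map_add, Complex.add_re, h4, add_zero]
    rw [h2]
    refine le_trans (cs_sq hτ _ _) ?_
    exact mul_le_mul_of_nonneg_right (hmk2 κ g hg) (sq_nonneg' hτ _)
  have hsmall : ∀ k0 : ℕ, (sq τ (perp τ X)) ^ 2 ≤ 1 / ((k0 : ℝ) + 1) * sq τ (perp τ X) := by
    intro k0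
    have hev : ∀ᶠ κ : Finset (unitary M) × ℕ in (F : Filter (Finset (unitary M) × ℕ)),
        (mk κ (fun i => (τ (f i * star (perp τ X))).re)) ^ 2 ≤
          1 / ((k0 : ℝ) + 1) * sq τ (perp τ X) := by
      apply hF
      filter_upwards [Filter.eventually_ge_atTop (({g} : Finset (unitary M)), k0)] with κ hκ
      have hg : g ∈ κ.1 := hκ.1 (Finset.mem_singleton_self g)
      refine le_trans (hbound κ hg) ?_
      apply mul_le_mul_of_nonneg_right _ (sq_nonneg' hτ _)
      apply one_div_le_one_div_of_le (by positivity)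
      have : (k0 : ℝ) ≤ κ.2 := by exact_mod_cast hκ.2
      linarith
    exact le_of_tendsto (hlim.pow 2) hev
  have hzero : sq τ (perp τ X) = 0 := by
    have h0 := sq_nonneg' hτ (perp τ X)
    by_contra hne
    have hpos : 0 < sq τ (perp τ X) := lt_of_le_of_ne h0 (Ne.symm hne)
    obtain ⟨k0, hk0⟩ := exists_nat_one_div_lt hpos
    have h1 := hsmall k0
    have h2 : 1 / ((k0 : ℝ) + 1) * sq τ (perp τ X) < (sq τ (perp τ X)) ^ 2 := by
      rw [pow_two]
      exact mul_lt_mul_of_pos_right hk0 hpos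
    linarith
  have h1 : perp τ X = 0 := sq_eq_zero hτ hzero
  have h2 : X = Ez τ X := by
    unfold perp at h1
    exact sub_eq_zero.mp h1
  rw [h2]
  exact T11_isCen_Ez X

end H730HC
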