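import Pool.Agent.H730R3.HC.Defs
import Pool.Agent.H730R3.HC.T01
import Pool.Agent.H730R3.HC.T03
import Pool.Agent.H730R3.HC.T04
import Pool.Agent.H730R3.HC.T11

set_option autoImplicit false

namespace H730HC

open Finset
open scoped ComplexConjugate

universe u v

variable {M : Type u} [CStarAlgebra M] {τ : M →ₗ[ℂ] ℂ}



theorem sm_cochain_norm_one : ‖(1 : M)‖ ≤ 1 := by
  have h := CStarRing.norm_star_mul_self (x := (1 : M))
  rw [star_one, mul_one] at h
  by_contra hcon
  push Not at hcon
  nlinarith [norm_nonneg (1 : M)]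

theorem sm_cochain_norm_unitary (g : unitary M) : ‖(g : M)‖ ≤ 1 := by
  have h := CStarRing.norm_star_mul_self (x := (g : M))
  rw [Unitary.coe_star_mul_self] at h
  have h1 := sm_cochain_norm_one (M := M)
  by_contra hcon
  push Not at hcon
  nlinarith [norm_nonneg (g : M)]

theorem sm_cochain_al (g : unitary M) (k : ℕ) : ‖al (g : M) k‖ ≤ 1 := by
  unfold al alt
  split_ifs
  · exact sm_cochain_norm_unitary g
  · rw [norm_star]; exact sm_cochain_norm_unitary g

theorem sm_cochain_bound (n : ℕ) (F : (ℕ → M) → M) (C : ℝ) (hC : 0 ≤ C)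
    (hb : ∀ a : ℕ → M, ‖F a‖ ≤ C * ∏ k ∈ range (n + 1), ‖a k‖) (g : unitary M) :
    ‖F (al (g : M))‖ ≤ C := by
  have h2 : ∏ k ∈ range (n + 1), ‖al (g : M) k‖ ≤ 1 :=
    Finset.prod_le_one (fun _ _ => norm_nonneg _) fun k _ => sm_cochain_al g k
  calc _ ≤ C * ∏ k ∈ range (n + 1), ‖al (g : M) k‖ := hb _
    _ ≤ C * 1 := mul_le_mul_of_nonneg_left h2 hC
    _ = C := mul_one _

theorem sm_cochain_seq (w g b : M) :
    (fun k => alt w (star b) k * al g k * alt (star w) b (k + 1)) = al (w * g * b) := by
  funext k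
  unfold al alt
  by_cases hk : Even k
  · have hk1 : ¬ Even (k + 1) := by
      rw [Nat.not_even_iff_odd]; exact hk.add_one
    simp only [if_pos hk, if_neg hk1]
  · have hk1 : Even (k + 1) := by
      rw [Nat.not_even_iff_odd] at hk; exact hk.add_one
    simp only [if_neg hk, if_pos hk1]
    rw [star_mul, star_mul, mul_assoc]

theorem sm_cochain (hτ : IsTracial M τ) (n : ℕ) (F : (ℕ → M) → M) (hF : IsB (n + 1) F) :
    ∃ m : (unitary M × unitary M → ℝ) → ℝ, IsMean m ∧ ∀ g : unitary M,
      if Even (n + 1) then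
        IsCen (EE τ m (fun p => cj (n + 1) (alt (star (p.1 : M)) (p.2 : M))
          (alt (p.1 : M) (star (p.2 : M))) F (al (g : M))))
      else IsCen (EE τ m (fun p => cj (n + 1) (alt (star (p.1 : M)) (p.2 : M))
          (alt (p.1 : M) (star (p.2 : M))) F (al (g : M))) * star (g : M)) := by
  obtain ⟨C, hC, hb⟩ := hF.bd
  have hB := sm_cochain_bound n F C hC hb
  by_cases he : Even (n + 1)
  · obtain ⟨m, hm, h⟩ := sm hτ C (fun g : unitary M => F (al (g : M))) hB
    refine ⟨m, hm, fun g => ?_⟩
    rw [if_pos he]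
    have key : (fun p : unitary M × unitary M =>
        cj (n + 1) (alt (star (p.1 : M)) (p.2 : M)) (alt (p.1 : M) (star (p.2 : M))) F (al (g : M)))
        = fun p => star (p.1 : M) * F (al ((p.1 * g * p.2 : unitary M) : M)) * (p.1 : M) := by
      funext p
      unfold cj
      rw [sm_cochain_seq]
      have h0 : alt (star (p.1 : M)) (p.2 : M) 0 = star (p.1 : M) := by
        unfold alt; rw [if_pos (by decide)]
      have h1 : alt (p.1 : M) (star (p.2 : M)) (n + 1) = (p.1 : M) := by
        unfold alt; rw [if_pos he]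
      rw [h0, h1]
      rfl
    rw [key]
    exact h g
  · have hB2 : ∀ g : unitary M, ‖F (al (g : M)) * star (g : M)‖ ≤ C := by
      intro g
      calc _ ≤ ‖F (al (g : M))‖ * ‖star (g : M)‖ := norm_mul_le _ _
        _ ≤ C * 1 := by
          apply mul_le_mul (hB g) _ (norm_nonneg _) hC
          rw [norm_star]; exact sm_cochain_norm_unitary g
        _ = C := mul_one _
    obtain ⟨m, hm, h⟩ := sm hτ C (fun g : unitary M => F (al (g : M)) * star (g : M)) hB2
    refine ⟨m, hm, fun g => ?_⟩
    rw [if_neg he]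
    have key : ∀ p : unitary M × unitary M,
        cj (n + 1) (alt (star (p.1 : M)) (p.2 : M)) (alt (p.1 : M) (star (p.2 : M))) F (al (g : M))
        = star (p.1 : M) * F (al ((p.1 * g * p.2 : unitary M) : M)) * star (p.2 : M) := by
      intro p
      unfold cj
      rw [sm_cochain_seq]
      have h0 : alt (star (p.1 : M)) (p.2 : M) 0 = star (p.1 : M) := by
        unfold alt; rw [if_pos (by decide)]
      have h1 : alt (p.1 : M) (star (p.2 : M)) (n + 1) = star (p.2 : M) := by
        unfold alt; rw [if_neg he]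
      rw [h0, h1]
      rfl
    have hbd : ∃ C : ℝ, ∀ p : unitary M × unitary M,
        ‖cj (n + 1) (alt (star (p.1 : M)) (p.2 : M)) (alt (p.1 : M) (star (p.2 : M))) F
          (al (g : M))‖ ≤ C := by
      refine ⟨C, fun p => ?_⟩
      rw [key p]
      calc _ ≤ ‖star (p.1 : M) * F (al ((p.1 * g * p.2 : unitary M) : M))‖ * ‖star (p.2 : M)‖ :=
            norm_mul_le _ _
        _ ≤ ‖star (p.1 : M)‖ * ‖F (al ((p.1 * g * p.2 : unitary M) : M))‖ * ‖star (p.2 : M)‖ :=
            mul_le_mul_of_nonneg_right (norm_mul_le _ _) (norm_nonneg _)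
        _ ≤ 1 * C * 1 := by
            have h1 : ‖star (p.1 : M)‖ ≤ 1 := by
              rw [norm_star]; exact sm_cochain_norm_unitary p.1
            have h2 : ‖star (p.2 : M)‖ ≤ 1 := by
              rw [norm_star]; exact sm_cochain_norm_unitary p.2
            exact mul_le_mul (mul_le_mul h1 (hB _) (norm_nonneg _) zero_le_one) h2 (norm_nonneg _)
              (by rw [one_mul]; exact hC)
        _ = C := by ring
    rw [← EE_mul_right hτ hm (star (g : M)) _ hbd]
    have key2 : (fun p : unitary M × unitary M =>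
        cj (n + 1) (alt (star (p.1 : M)) (p.2 : M)) (alt (p.1 : M) (star (p.2 : M))) F (al (g : M))
          * star (g : M))
        = fun p => star (p.1 : M) * (F (al ((p.1 * g * p.2 : unitary M) : M)) *
          star ((p.1 * g * p.2 : unitary M) : M)) * (p.1 : M) := by
      funext p
      rw [key p]
      have h3 : star ((p.1 * g * p.2 : unitary M) : M) * (p.1 : M)
          = star (p.2 : M) * star (g : M) := by
        show star ((p.1 : M) * (g : M) * (p.2 : M)) * (p.1 : M) = _
        rw [star_mul, star_mul, mul_assoc, mul_assoc, Unitary.coe_star_mul_self, mul_one]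
      rw [mul_assoc (star (p.1 : M)) (F _ * _) (p.1 : M), mul_assoc (F _) _ (p.1 : M), h3]
      simp only [mul_assoc]
    rw [key2]
    exact h g

end H730HC
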