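import Pool.Agent.H730R3.HC.Defs
import Pool.Agent.H730R3.HC.T03
import Pool.Agent.H730R3.HC.T04
import Pool.Agent.H730R3.HC.T05
import Pool.Agent.H730R3.HC.T06
import Pool.Agent.H730R3.HC.T14
import Pool.Agent.H730R3.HC.T16
import Pool.Agent.H730R3.HC.T17

set_option autoImplicit false

namespace H730HC

open Finset
open scoped ComplexConjugate

universe u v

variable {M : Type u} [CStarAlgebra M] {τ : M →ₗ[ℂ] ℂ}



theorem T18_even (hτ : IsTracial M τ) {m : ℕ} {D : (ℕ → M) → M} (hD : IsB m D) :
    IsB m (fun X => Ez τ (D X)) where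
  dep a b h := by rw [hD.dep a b h]
  add a k x y hk := by rw [hD.add a k x y hk, Ez_add hτ]
  smul a k c x hk := by rw [hD.smul a k c x hk, Ez_smul hτ]
  bd := by
    obtain ⟨C, hC, h⟩ := hD.bd
    exact ⟨C, hC, fun a => ((Ez_spec hτ (D a)).2.2).trans (h a)⟩

theorem T18_odd (hτ : IsTracial M τ) {n : ℕ} {D : (ℕ → M) → M} (hD : IsB (n + 1) D) :
    IsB (n + 2) (fun X => Ez τ (D X * X (n + 1))) where
  dep a b h := by
    show Ez τ (D a * a (n + 1)) = Ez τ (D b * b (n + 1))
    rw [hD.dep a b fun k hk => h k (by omega), h (n + 1) (by omega)]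
  add a k x y hk := by
    show Ez τ (D (Function.update a k (x + y)) * Function.update a k (x + y) (n + 1)) =
      Ez τ (D (Function.update a k x) * Function.update a k x (n + 1)) +
        Ez τ (D (Function.update a k y) * Function.update a k y (n + 1))
    rcases Nat.lt_or_ge k (n + 1) with h | h
    · have h1 : n + 1 ≠ k := by omega
      rw [Function.update_of_ne h1, Function.update_of_ne h1, Function.update_of_ne h1,
        hD.add a k x y h, add_mul, Ez_add hτ]
    · obtain rfl : k = n + 1 := by omega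
      have h2 : ∀ z, D (Function.update a (n + 1) z) = D a := by
        intro z
        apply hD.dep
        intro j hj
        exact Function.update_of_ne (by omega) _ _
      rw [Function.update_self, Function.update_self, Function.update_self, h2, h2, h2, mul_add,
        Ez_add hτ]
  smul a k c x hk := by
    show Ez τ (D (Function.update a k (c • x)) * Function.update a k (c • x) (n + 1)) =
      c • Ez τ (D (Function.update a k x) * Function.update a k x (n + 1))
    rcases Nat.lt_or_ge k (n + 1) with h | h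
    · have h1 : n + 1 ≠ k := by omega
      rw [Function.update_of_ne h1, Function.update_of_ne h1, hD.smul a k c x h,
        smul_mul_assoc, Ez_smul hτ]
    · obtain rfl : k = n + 1 := by omega
      have h2 : ∀ z, D (Function.update a (n + 1) z) = D a := by
        intro z
        apply hD.dep
        intro j hj
        exact Function.update_of_ne (by omega) _ _
      rw [Function.update_self, Function.update_self, h2, h2, mul_smul_comm, Ez_smul hτ]
  bd := by
    obtain ⟨C, hC, h⟩ := hD.bd
    refine ⟨C, hC, fun a => ((Ez_spec hτ (D a * a (n + 1))).2.2).trans ?_⟩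
    refine (norm_mul_le _ _).trans ?_
    rw [Finset.prod_range_succ, ← mul_assoc]
    exact mul_le_mul_of_nonneg_right (h a) (norm_nonneg _)

theorem key (hτ : IsTracial M τ) (n : ℕ) (F : (ℕ → M) → M) (hF : IsB (n + 1) F)
    (hc : ∀ a, dd (n + 1) F a = 0) :
    ∃ (P : ℕ → (ℕ → M) → M) (Q : (ℕ → M) → M), (∀ i, IsB n (P i)) ∧ (∀ X, IsCen (Q X)) ∧
      ((Even (n + 1) ∧ IsB (n + 1) Q ∧ ∀ g : unitary M,
          F (al (g : M)) = Q (al (g : M)) - ∑ i ∈ range (n + 2), ((-1 : ℂ) ^ i) • face n i (P i) (al (g : M))) ∨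
        (Odd (n + 1) ∧ IsB (n + 2) Q ∧ ∀ g : unitary M,
          F (al (g : M)) = Q (al (g : M)) * (g : M)
            - ∑ i ∈ range (n + 2), ((-1 : ℂ) ^ i) • face n i (P i) (al (g : M)))) := by
  obtain ⟨m, hm, hmg⟩ := sm_cochain hτ n F hF
  obtain ⟨hD, hP, hFX⟩ := avg_prism hτ n F hF hc m hm
  by_cases hev : Even (n + 1)
  · refine ⟨_, fun X => Ez τ (EE τ m (fun p => cj (n + 1) (alt (star (p.1 : M)) (p.2 : M))
      (alt (p.1 : M) (star (p.2 : M))) F X)), hP, fun X => (Ez_spec hτ _).1, Or.inl ⟨hev,
        T18_even hτ hD, fun g => ?_⟩⟩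
    have h1 := hmg g
    rw [if_pos hev] at h1
    beta_reduce
    rw [Ez_cen hτ h1]
    exact hFX _
  · refine ⟨_, fun X => Ez τ (EE τ m (fun p => cj (n + 1) (alt (star (p.1 : M)) (p.2 : M))
      (alt (p.1 : M) (star (p.2 : M))) F X) * X (n + 1)), hP, fun X => (Ez_spec hτ _).1,
        Or.inr ⟨Nat.not_even_iff_odd.1 hev, T18_odd hτ hD, fun g => ?_⟩⟩
    have h1 := hmg g
    rw [if_neg hev] at h1
    have h2 : al (g : M) (n + 1) = star (g : M) := by
      unfold al alt
      rw [if_neg hev]
    beta_reduce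
    rw [h2, Ez_cen hτ h1, mul_assoc, Unitary.coe_star_mul_self, mul_one]
    exact hFX _

end H730HC
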