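import Pool.Agent.H730R3.HC.Defs

set_option autoImplicit false

namespace H730HC

open Finset
open scoped ComplexConjugate

universe u v

variable {M : Type u} [CStarAlgebra M] {τ : M →ₗ[ℂ] ℂ}



namespace T19

/-- extension by zero -/
def ext {A : Type u} [Zero A] {n : ℕ} (v : Fin n → A) : ℕ → A :=
  fun k => if h : k < n then v ⟨k, h⟩ else 0

theorem ext_val {A : Type u} [Zero A] {n : ℕ} (v : Fin n → A) (i : Fin n) : ext v (i : ℕ) = v i := by
  unfold ext
  rw [dif_pos i.2]

theorem ext_update {A : Type u} [Zero A] {n : ℕ} [DecidableEq (Fin n)] (v : Fin n → A) (i : Fin n)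
    (x : A) : ext (Function.update v i x) = Function.update (ext v) (i : ℕ) x := by
  funext k
  by_cases hki : k = (i : ℕ)
  · subst hki
    rw [ext_val, Function.update_self, Function.update_self]
  · rw [Function.update_of_ne hki]
    unfold ext
    by_cases hk : k < n
    · rw [dif_pos hk, dif_pos hk, Function.update_of_ne]
      intro h
      exact hki (congrArg Fin.val h)
    · rw [dif_neg hk, dif_neg hk]

/-- the multilinear map of a bounded multilinear function -/
noncomputable def cm {n : ℕ} (Λ : (ℕ → M) → M) (hΛ : IsB n Λ) :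
    ContinuousMultilinearMap ℝ (fun _ : Fin n => M) M :=
  MultilinearMap.mkContinuous
    { toFun := fun v => Λ (ext v)
      map_update_add' := by
        intro _ v i x y
        rw [ext_update, ext_update, ext_update]
        exact hΛ.add _ _ _ _ i.2
      map_update_smul' := by
        intro _ v i c x
        rw [ext_update, ext_update]
        have := hΛ.smul (ext v) i (c : ℂ) x i.2
        rwa [Complex.coe_smul, Complex.coe_smul] at this }
    hΛ.bd.choose (by
      intro v
      have := hΛ.bd.choose_spec.2 (ext v)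
      rw [Finset.prod_range] at this
      simp only [ext_val] at this
      exact this)

theorem cm_apply {n : ℕ} (Λ : (ℕ → M) → M) (hΛ : IsB n Λ) (v : Fin n → M) :
    cm Λ hΛ v = Λ (ext v) := rfl

theorem hasDeriv {n : ℕ} {Λ : (ℕ → M) → M} (hΛ : IsB n Λ) (X : ℕ → ℝ → M) (X' : ℕ → M)
    (hX : ∀ k < n, HasDerivAt (X k) (X' k) 0) :
    HasDerivAt (fun θ => Λ (fun k => X k θ))
      (∑ m ∈ range n, Λ (Function.update (fun k => X k 0) m (X' m))) 0 := by
  have h1 := HasFDerivAt.multilinear_comp (f := cm Λ hΛ) (g := fun (i : Fin n) => X i)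
    (x := (0:ℝ)) (fun i => (hX i i.2).hasFDerivAt)
  have h2 := h1.hasDerivAt
  have e1 : (fun θ => cm Λ hΛ (fun i : Fin n => X i θ)) = fun θ => Λ (fun k => X k θ) := by
    funext θ
    rw [cm_apply]
    apply hΛ.dep
    intro k hk
    exact ext_val _ ⟨k, hk⟩
  rw [e1] at h2
  refine h2.congr_deriv ?_
  rw [Finset.sum_range]
  rw [_root_.sum_apply]
  apply Finset.sum_congr rfl
  intro i _
  rw [ContinuousLinearMap.comp_apply]
  simp only [ContinuousLinearMap.toSpanSingleton_apply, one_smul]
  rw [ContinuousMultilinearMap.toContinuousLinearMap_apply, cm_apply, ext_update]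
  apply hΛ.dep
  intro k hk
  by_cases hki : k = (i : ℕ)
  · subst hki
    rw [Function.update_self, Function.update_self]
  · rw [Function.update_of_ne hki, Function.update_of_ne hki]
    exact ext_val _ ⟨k, hk⟩

theorem ds_add {n : ℕ} {Λ : (ℕ → M) → M} (hΛ : IsB n Λ) (h h' : M) (X : ℕ → M) :
    ds n (h + h') Λ X = ds n h Λ X + ds n h' Λ X := by
  unfold ds
  rw [← Finset.sum_add_distrib]
  apply Finset.sum_congr rfl
  intro m hm
  rw [← hΛ.add _ _ _ _ (mem_range.1 hm)]
  congr 2
  by_cases he : Even m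
  · simp only [he, if_true]
    rw [mul_add]
  · simp only [he, if_false]
    rw [add_mul, neg_add]

theorem ds_smul {n : ℕ} {Λ : (ℕ → M) → M} (hΛ : IsB n Λ) (c : ℂ) (h : M) (X : ℕ → M) :
    ds n (c • h) Λ X = c • ds n h Λ X := by
  unfold ds
  rw [Finset.smul_sum]
  apply Finset.sum_congr rfl
  intro m hm
  rw [← hΛ.smul _ _ _ _ (mem_range.1 hm)]
  congr 2
  by_cases he : Even m
  · simp only [he, if_true]
    rw [mul_smul_comm]
  · simp only [he, if_false]
    rw [smul_mul_assoc, smul_neg]

/-- the case of a self-adjoint direction, multiplied by `i` -/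
theorem sa_step {ι : Type*} (R : Finset ι) (d : ι → ℕ) (Λ : ι → (ℕ → M) → M)
    (hΛ : ∀ r ∈ R, IsB (d r) (Λ r)) (h0 : ∀ g : unitary M, ∑ r ∈ R, Λ r (al (g : M)) = 0)
    (h : selfAdjoint M) (g : unitary M) :
    ∑ r ∈ R, ds (d r) (Complex.I • (h : M)) (Λ r) (al (g : M)) = 0 := by
  set E : ℝ → M := fun θ => ((selfAdjoint.expUnitary (θ • h) : unitary M) : M) with hE
  have hE0 : E 0 = 1 := by
    rw [hE]
    simp
  have hEd : HasDerivAt E (Complex.I • (h : M)) 0 := by
    have h1 := hasDerivAt_exp_smul_const (𝕂 := ℝ) (Complex.I • (h : M)) (0 : ℝ)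
    rw [zero_smul, NormedSpace.exp_zero, one_mul] at h1
    have e : E = fun θ : ℝ => NormedSpace.exp (θ • (Complex.I • (h : M))) := by
      funext θ
      rw [hE]
      simp only [selfAdjoint.expUnitary_coe, selfAdjoint.val_smul]
      rw [smul_comm]
    rw [e]
    exact h1
  have hX : ∀ k : ℕ, HasDerivAt (fun θ => al ((g : M) * E θ) k)
      (if Even k then al (g : M) k * (Complex.I • (h : M))
        else -((Complex.I • (h : M)) * al (g : M) k)) 0 := by
    intro k
    have h1 : HasDerivAt (fun θ => (g : M) * E θ) ((g : M) * (Complex.I • (h : M))) 0 :=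
      hEd.const_mul _
    by_cases he : Even k
    · unfold al alt
      simp only [he, if_true]
      exact h1
    · unfold al alt
      simp only [he, if_false]
      refine h1.star.congr_deriv ?_
      rw [star_mul, star_smul, h.2.star_eq]
      have : star Complex.I = -Complex.I := Complex.conj_I
      rw [this, neg_smul, neg_mul]
  have hsum : HasDerivAt (fun θ => ∑ r ∈ R, Λ r (al ((g : M) * E θ)))
      (∑ r ∈ R, ds (d r) (Complex.I • (h : M)) (Λ r) (al (g : M))) 0 := by
    have h2 := HasDerivAt.fun_sum (u := R) (A := fun r θ => Λ r (al ((g : M) * E θ)))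
      (A' := fun r => ds (d r) (Complex.I • (h : M)) (Λ r) (al (g : M))) (x := (0:ℝ)) ?_
    · exact h2
    · intro r hr
      have h3 := hasDeriv (hΛ r hr) (fun k θ => al ((g : M) * E θ) k) _ (fun k _ => hX k)
      refine h3.congr_deriv ?_
      unfold ds
      rw [hE0, mul_one]
  have hz : (fun θ => ∑ r ∈ R, Λ r (al ((g : M) * E θ))) = fun _ => 0 := by
    funext θ
    have := h0 (g * selfAdjoint.expUnitary (θ • h))
    exact this
  rw [hz] at hsum
  exact hsum.unique (hasDerivAt_const (0:ℝ) (0:M)) |>.trans rfl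

end T19

open T19 in
theorem der_step {ι : Type*} (R : Finset ι) (d : ι → ℕ) (Λ : ι → (ℕ → M) → M)
    (hΛ : ∀ r ∈ R, IsB (d r) (Λ r)) (h0 : ∀ g : unitary M, ∑ r ∈ R, Λ r (al (g : M)) = 0) (h : M) :
    ∀ g : unitary M, ∑ r ∈ R, ds (d r) h (Λ r) (al (g : M)) = 0 := by
  intro g
  have key : ∀ k : selfAdjoint M, ∑ r ∈ R, ds (d r) (k : M) (Λ r) (al (g : M)) = 0 := by
    intro k
    have h1 := sa_step R d Λ hΛ h0 k g
    have h2 : ∑ r ∈ R, ds (d r) (Complex.I • (k : M)) (Λ r) (al (g : M)) =
        Complex.I • ∑ r ∈ R, ds (d r) (k : M) (Λ r) (al (g : M)) := by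
      rw [Finset.smul_sum]
      exact Finset.sum_congr rfl fun r hr => ds_smul (hΛ r hr) _ _ _
    rw [h2] at h1
    exact (smul_eq_zero.1 h1).resolve_left Complex.I_ne_zero
  have hd := realPart_add_I_smul_imaginaryPart h
  have e : ∑ r ∈ R, ds (d r) h (Λ r) (al (g : M)) =
      ∑ r ∈ R, ds (d r) (realPart h : M) (Λ r) (al (g : M)) +
      Complex.I • ∑ r ∈ R, ds (d r) (imaginaryPart h : M) (Λ r) (al (g : M)) := by
    rw [Finset.smul_sum, ← Finset.sum_add_distrib]
    apply Finset.sum_congr rfl
    intro r hr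
    rw [← ds_smul (hΛ r hr), ← ds_add (hΛ r hr), hd]
  rw [e, key, key, smul_zero, add_zero]

end H730HC
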