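import Pool.Agent.H730R3.HC.Defs

set_option autoImplicit false

namespace H730HC

open Finset
open scoped ComplexConjugate

universe u v

variable {M : Type u} [CStarAlgebra M] {τ : M →ₗ[ℂ] ℂ}

-- BEGIN DEPS (statements proved by other tasks; leave these sorried, keep the marker lines)
-- END DEPS

theorem IsB_ds {A : Type u} {B : Type v} [NormedRing A] [NormedAlgebra ℂ A] [NormedAddCommGroup B]
    [NormedSpace ℂ B] {d : ℕ} {Λ : (ℕ → A) → B} (hΛ : IsB d Λ) (h : A) : IsB d (ds d h Λ) := by
  refine ⟨?_, ?_, ?_, ?_⟩
  · intro a b hab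
    refine Finset.sum_congr rfl fun m hm => ?_
    have hm' := Finset.mem_range.1 hm
    refine hΛ.dep _ _ fun k hk => ?_
    rw [hab m hm']
    by_cases hkm : k = m
    · subst hkm
      simp
    · rw [Function.update_of_ne hkm, Function.update_of_ne hkm, hab k hk]
  · intro a k x y hk
    unfold ds
    rw [← Finset.sum_add_distrib]
    refine Finset.sum_congr rfl fun m hm => ?_
    by_cases hkm : m = k
    · subst hkm
      simp only [Function.update_self, Function.update_idem]
      rw [← hΛ.add a m _ _ hk]
      congr 2
      split_ifs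
      · rw [add_mul]
      · rw [mul_add, neg_add]
    · simp only [Function.update_of_ne hkm]
      rw [Function.update_comm (Ne.symm hkm), Function.update_comm (Ne.symm hkm),
        Function.update_comm (Ne.symm hkm), hΛ.add _ k _ _ hk]
  · intro a k c x hk
    unfold ds
    rw [Finset.smul_sum]
    refine Finset.sum_congr rfl fun m hm => ?_
    by_cases hkm : m = k
    · subst hkm
      simp only [Function.update_self, Function.update_idem]
      rw [← hΛ.smul a m _ _ hk]
      congr 2
      split_ifs
      · rw [smul_mul_assoc]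
      · rw [mul_smul_comm, smul_neg]
    · simp only [Function.update_of_ne hkm]
      rw [Function.update_comm (Ne.symm hkm), Function.update_comm (Ne.symm hkm),
        hΛ.smul _ k _ _ hk]
  · obtain ⟨C, hC, hb⟩ := hΛ.bd
    refine ⟨d * (C * ‖h‖), by positivity, fun a => ?_⟩
    unfold ds
    refine (norm_sum_le _ _).trans ?_
    have key : ∀ m ∈ range d,
        ‖Λ (Function.update a m (if Even m then a m * h else -(h * a m)))‖ ≤
          (C * ‖h‖) * ∏ k ∈ range d, ‖a k‖ := by
      intro m hm
      refine (hb _).trans ?_
      have h1 : ∏ k ∈ range d,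
          ‖Function.update a m (if Even m then a m * h else -(h * a m)) k‖ ≤
          ∏ k ∈ range d, ((if k = m then ‖h‖ else 1) * ‖a k‖) := by
        refine Finset.prod_le_prod (fun _ _ => norm_nonneg _) fun k _ => ?_
        by_cases hkm : k = m
        · subst hkm
          simp only [Function.update_self, if_true]
          split_ifs
          · rw [mul_comm]
            exact (norm_mul_le _ _).trans_eq rfl
          · rw [norm_neg]
            exact norm_mul_le _ _
        · rw [Function.update_of_ne hkm, if_neg hkm, one_mul]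
      have h2 : ∏ k ∈ range d, ((if k = m then ‖h‖ else 1) * ‖a k‖) =
          ‖h‖ * ∏ k ∈ range d, ‖a k‖ := by
        rw [Finset.prod_mul_distrib, Finset.prod_ite_eq', if_pos hm]
      calc C * ∏ k ∈ range d, ‖Function.update a m (if Even m then a m * h else -(h * a m)) k‖
          ≤ C * (‖h‖ * ∏ k ∈ range d, ‖a k‖) := by
            rw [← h2]
            exact mul_le_mul_of_nonneg_left h1 hC
        _ = (C * ‖h‖) * ∏ k ∈ range d, ‖a k‖ := by ring
    refine (Finset.sum_le_sum key).trans_eq ?_
    rw [Finset.sum_const, Finset.card_range, nsmul_eq_mul]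
    ring

theorem IsB_dn {A : Type u} {B : Type v} [NormedRing A] [NormedAlgebra ℂ A] [NormedAddCommGroup B]
    [NormedSpace ℂ B] {d : ℕ} {Λ : (ℕ → A) → B} (hΛ : IsB d Λ) (n : ℕ) (L : ℕ → A) :
    IsB d (dn d n L Λ) := by
  induction n generalizing L with
  | zero => exact hΛ
  | succ n ih => exact IsB_ds (ih (shift L)) (L 0)

theorem dn_eq {A : Type u} {B : Type v} [Ring A] [AddCommGroup B] (d n : ℕ) (L : ℕ → A)
    (Λ : (ℕ → A) → B) (X : ℕ → A) (hdep : ∀ a b, (∀ k < d, a k = b k) → Λ a = Λ b) :
    dn d n L Λ X = ∑ σ : Fin n → Fin d,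
      Λ (fun m => if Even m then X m * word n L σ m else word n L σ m * X m) := by
  induction n generalizing L X with
  | zero =>
    simp only [dn, word, mul_one, one_mul, ite_self]
    rw [Fintype.sum_unique]
  | succ n ih =>
    have h1 : dn d (n + 1) L Λ X = ∑ m ∈ range d, dn d n (shift L) Λ
        (Function.update X m (if Even m then X m * L 0 else -(L 0 * X m))) := rfl
    rw [h1, Finset.sum_range]
    rw [← (Fin.consEquiv (fun _ : Fin (n + 1) => Fin d)).sum_comp, Fintype.sum_prod_type]
    refine Finset.sum_congr rfl fun m _ => ?_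
    rw [ih]
    refine Finset.sum_congr rfl fun σ _ => ?_
    congr 1
    funext p
    have h0 : (Fin.consEquiv (fun _ : Fin (n + 1) => Fin d)) (m, σ) 0 = m := rfl
    have hs : (fun q : Fin n => (Fin.consEquiv (fun _ : Fin (n + 1) => Fin d)) (m, σ) q.succ) = σ :=
      rfl
    simp only [word, h0, hs]
    by_cases hp : (m : ℕ) = p
    · subst hp
      simp only [Function.update_self, if_true]
      split_ifs
      · rw [mul_assoc]
      · simp only [mul_neg, neg_mul, mul_assoc]
    · rw [Function.update_of_ne (Ne.symm hp), if_neg hp]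

end H730HC
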