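import Pool.Agent.H730R3.HC.Defs
import Pool.Agent.H730R3.HC.T19
import Pool.Agent.H730R3.HC.T20

set_option autoImplicit false

namespace H730HC

open Finset
open scoped ComplexConjugate

universe u v

variable {M : Type u} [CStarAlgebra M] {τ : M →ₗ[ℂ] ℂ}



theorem T21_al_one : al (1 : M) = fun _ => 1 := by
  funext k
  unfold al alt
  simp

theorem T21_key {ι : Type*} (R : Finset ι) (d : ι → ℕ) (Λ : ι → (ℕ → M) → M)
    (hΛ : ∀ r ∈ R, IsB (d r) (Λ r)) (h0 : ∀ g : unitary M, ∑ r ∈ R, Λ r (al (g : M)) = 0)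
    (n : ℕ) : ∀ (L : ℕ → M) (g : unitary M), ∑ r ∈ R, dn (d r) n L (Λ r) (al (g : M)) = 0 := by
  induction n with
  | zero =>
    intro L g
    exact h0 g
  | succ n ih =>
    intro L g
    exact der_step R d (fun r => dn (d r) n (shift L) (Λ r))
      (fun r hr => IsB_dn (hΛ r hr) n (shift L)) (ih (shift L)) (L 0) g

theorem pol {ι : Type*} (R : Finset ι) (d : ι → ℕ) (Λ : ι → (ℕ → M) → M)
    (hΛ : ∀ r ∈ R, IsB (d r) (Λ r)) (h0 : ∀ g : unitary M, ∑ r ∈ R, Λ r (al (g : M)) = 0)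
    (n : ℕ) (L : ℕ → M) :
    ∑ r ∈ R, ∑ σ : Fin n → Fin (d r), Λ r (word n L σ) = 0 := by
  have h := T21_key R d Λ hΛ h0 n L 1
  rw [← h]
  refine Finset.sum_congr rfl (fun r hr => ?_)
  have e1 : al ((1 : unitary M) : M) = fun _ => (1 : M) := by
    rw [OneMemClass.coe_one]
    exact T21_al_one
  rw [e1, dn_eq (d r) n L (Λ r) _ (hΛ r hr).dep]
  refine Finset.sum_congr rfl (fun σ _ => ?_)
  congr 1
  funext m
  split_ifs <;> simp

end H730HC
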