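import Pool.Agent.H730R3.HC.Defs

set_option autoImplicit false

namespace H730HC

open Finset
open scoped ComplexConjugate

universe u v

variable {M : Type u} [CStarAlgebra M] {τ : M →ₗ[ℂ] ℂ}



theorem word_inj {R : Type u} [Ring R] {d : ℕ} (n : ℕ) (L : ℕ → R) (σ : Fin n → Fin d)
    (hσ : Function.Injective σ) :
    (∀ q : Fin n, word n L σ (σ q : ℕ) = if Even (σ q : ℕ) then L q else -(L q)) ∧
      ∀ m : ℕ, (∀ q, (σ q : ℕ) ≠ m) → word n L σ m = 1 := by
  induction n generalizing L with
  | zero => exact ⟨fun q => q.elim0, fun _ _ => rfl⟩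
  | succ n ih =>
    have hσ' : Function.Injective (fun q : Fin n => σ q.succ) := fun a b h =>
      Fin.succ_injective n (hσ h)
    obtain ⟨ih1, ih2⟩ := ih (shift L) (fun q => σ q.succ) hσ'
    constructor
    · intro q
      refine Fin.cases ?_ (fun q' => ?_) q
      · have h1 : word n (shift L) (fun q => σ q.succ) (σ 0 : ℕ) = 1 := by
          apply ih2
          intro q h
          have h2 : σ q.succ = σ 0 := Fin.ext h
          exact absurd (hσ h2) (Fin.succ_ne_zero q)
        rw [word, if_pos rfl, h1, mul_one, one_mul]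
        rfl
      · have h0 : (σ 0 : ℕ) ≠ (σ q'.succ : ℕ) := by
          intro h
          have h2 : σ 0 = σ q'.succ := Fin.ext h
          exact absurd (hσ h2).symm (Fin.succ_ne_zero q')
        rw [word, if_neg h0]
        have h1 := ih1 q'
        rw [h1]
        rfl
    · intro m hm
      rw [word, if_neg (hm 0)]
      exact ih2 m fun q => hm q.succ

end H730HC
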