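import Pool.Agent.H730R3.HC.Defs

set_option autoImplicit false

namespace H730HC

open Finset
open scoped ComplexConjugate

universe u v

variable {M : Type u} [CStarAlgebra M] {τ : M →ₗ[ℂ] ℂ}

attribute [local instance] CStarAlgebra.spectralOrder CStarAlgebra.spectralOrderedRing



theorem T23_apply (n : ℕ) (a : ℕ → M) (q : ℕ) (p r : Fin (n + 1)) :
    Lt n a q p r = if (p : ℕ) = q ∧ (r : ℕ) = q + 1 then a q else 0 := rfl

theorem T23_mul (n : ℕ) (X Y : CStarMatrix (Fin (n + 1)) (Fin (n + 1)) M) (p r : Fin (n + 1)) :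
    (X * Y) p r = ∑ j, X p j * Y j r := CStarMatrix.mul_apply

theorem Lt_mul (n : ℕ) (a : ℕ → M) (q q' : ℕ) (h : q' ≠ q + 1) : Lt n a q * Lt n a q' = 0 := by
  ext p r
  rw [T23_mul, CStarMatrix.zero_apply]
  refine Finset.sum_eq_zero fun j _ => ?_
  rw [T23_apply, T23_apply]
  split_ifs with h1 h2
  · exact absurd (h2.1.symm.trans h1.2) h
  · rw [mul_zero]
  · rw [zero_mul]
  · rw [zero_mul]

theorem Lt_pair (n : ℕ) (a : ℕ → M) (q : ℕ) :
    Lt n a q * Lt n a (q + 1) =
      Lt n (Function.update (Function.update a q (a q * a (q + 1))) (q + 1) 1) q *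
      Lt n (Function.update (Function.update a q (a q * a (q + 1))) (q + 1) 1) (q + 1) := by
  ext p r
  rw [T23_mul, T23_mul]
  refine Finset.sum_congr rfl fun j _ => ?_
  rw [T23_apply, T23_apply, T23_apply, T23_apply]
  have h1 : Function.update (Function.update a q (a q * a (q + 1))) (q + 1) 1 q
      = a q * a (q + 1) := by
    rw [Function.update_of_ne (by omega), Function.update_self]
  have h2 : Function.update (Function.update a q (a q * a (q + 1))) (q + 1) 1 (q + 1) = 1 :=
    Function.update_self _ _ _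
  rw [h1, h2]
  split_ifs
  · rw [mul_one]
  · rw [mul_zero, mul_zero]
  · rw [zero_mul, zero_mul]
  · rw [zero_mul]

theorem Lt_mul_entry (n : ℕ) (a : ℕ → M) (q : ℕ) (hq : q < n) (Y : CStarMatrix (Fin (n + 1)) (Fin (n + 1)) M)
    (l : Fin (n + 1)) : (Lt n a q * Y) 0 l = if q = 0 then a 0 * Y ⟨min 1 n, by omega⟩ l else 0 := by
  rw [T23_mul]
  split_ifs with h
  · subst h
    rw [Finset.sum_eq_single (⟨min 1 n, by omega⟩ : Fin (n + 1))]
    · rw [T23_apply, if_pos]
      refine ⟨rfl, ?_⟩
      show min 1 n = 0 + 1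
      omega
    · intro j _ hj
      rw [T23_apply, if_neg, zero_mul]
      rintro ⟨_, h2⟩
      apply hj
      apply Fin.ext
      show (j : ℕ) = min 1 n
      omega
    · intro hn
      exact absurd (Finset.mem_univ _) hn
  · refine Finset.sum_eq_zero fun j _ => ?_
    rw [T23_apply, if_neg, zero_mul]
    rintro ⟨h1, _⟩
    exact h h1.symm

theorem mul_Lt_entry (n : ℕ) (a : ℕ → M) (q : ℕ) (hq : q < n) (Y : CStarMatrix (Fin (n + 1)) (Fin (n + 1)) M)
    (k : Fin (n + 1)) : (Y * Lt n a q) k (Fin.last n) =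
      if q + 1 = n then Y k ⟨n - 1, by omega⟩ * a q else 0 := by
  rw [T23_mul]
  split_ifs with h
  · rw [Finset.sum_eq_single (⟨n - 1, by omega⟩ : Fin (n + 1))]
    · rw [T23_apply, if_pos]
      refine ⟨?_, ?_⟩
      · show n - 1 = q
        omega
      · show n = q + 1
        omega
    · intro j _ hj
      rw [T23_apply, if_neg, mul_zero]
      rintro ⟨h1, _⟩
      apply hj
      apply Fin.ext
      show (j : ℕ) = n - 1
      omega
    · intro hn
      exact absurd (Finset.mem_univ _) hn
  · refine Finset.sum_eq_zero fun j _ => ?_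
    rw [T23_apply, if_neg, mul_zero]
    rintro ⟨_, h2⟩
    have h3 : n = q + 1 := h2
    exact h h3.symm

/-- the matrix with a single entry, as a continuous linear map -/
noncomputable def T23_cl (M : Type u) [CStarAlgebra M] {J : ℕ} (k l : Fin J) :
    M →L[ℂ] CStarMatrix (Fin J) (Fin J) M where
  toFun x := single k l x
  map_add' x y := by
    ext p q
    show (if p = k ∧ q = l then x + y else 0) =
      (if p = k ∧ q = l then x else 0) + (if p = k ∧ q = l then y else 0)
    split_ifs
    · rfl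
    · rw [add_zero]
  map_smul' c x := by
    ext p q
    show (if p = k ∧ q = l then c • x else 0) = c • (if p = k ∧ q = l then x else 0)
    split_ifs
    · rfl
    · rw [smul_zero]
  cont := by
    have h : Continuous (fun x : M => (Matrix.of fun p q : Fin J => if p = k ∧ q = l then x else 0)) := by
      refine continuous_matrix fun i j => ?_
      simp only [Matrix.of_apply]
      split_ifs
      · exact continuous_id
      · exact continuous_const
    exact (CStarMatrix.ofMatrixL (m := Fin J) (n := Fin J) (A := M)).continuous.comp h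

theorem norm_Lt (M : Type u) [CStarAlgebra M] (n : ℕ) : ∃ K : ℝ, 0 ≤ K ∧ ∀ (a : ℕ → M) (q : ℕ), ‖Lt n a q‖ ≤ K * ‖a q‖ := by
  refine ⟨∑ k : Fin (n + 1), ∑ l : Fin (n + 1), ‖T23_cl M k l‖,
    Finset.sum_nonneg fun _ _ => Finset.sum_nonneg fun _ _ => norm_nonneg _, fun a q => ?_⟩
  by_cases hq : q < n
  · have h1 : Lt n a q = T23_cl M (⟨q, by omega⟩ : Fin (n + 1)) ⟨q + 1, by omega⟩ (a q) := by
      ext p r
      show (if (p : ℕ) = q ∧ (r : ℕ) = q + 1 then a q else 0) =
        (if p = ⟨q, _⟩ ∧ r = ⟨q + 1, _⟩ then a q else 0)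
      simp only [Fin.ext_iff]
    rw [h1]
    refine (ContinuousLinearMap.le_opNorm _ _).trans
      (mul_le_mul_of_nonneg_right ?_ (norm_nonneg _))
    have h2 : ‖T23_cl M (⟨q, by omega⟩ : Fin (n + 1)) ⟨q + 1, by omega⟩‖ ≤
        ∑ l : Fin (n + 1), ‖T23_cl M (⟨q, by omega⟩ : Fin (n + 1)) l‖ :=
      Finset.single_le_sum (f := fun l => ‖T23_cl M (⟨q, by omega⟩ : Fin (n + 1)) l‖)
        (fun _ _ => norm_nonneg _) (Finset.mem_univ _)
    exact h2.trans (Finset.single_le_sum
      (f := fun k => ∑ l : Fin (n + 1), ‖T23_cl M k l‖)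
      (fun _ _ => Finset.sum_nonneg fun _ _ => norm_nonneg _) (Finset.mem_univ _))
  · have h1 : Lt n a q = 0 := by
      ext p r
      rw [T23_apply, if_neg, CStarMatrix.zero_apply]
      rintro ⟨_, h2⟩
      have := r.isLt
      omega
    rw [h1, norm_zero]
    exact mul_nonneg (Finset.sum_nonneg fun _ _ => Finset.sum_nonneg fun _ _ => norm_nonneg _)
      (norm_nonneg _)

theorem Lt_add (n : ℕ) (a : ℕ → M) (k : ℕ) (x y : M) :
    Lt n (Function.update a k (x + y)) k = Lt n (Function.update a k x) k + Lt n (Function.update a k y) k := by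
  ext p r
  rw [CStarMatrix.add_apply, T23_apply, T23_apply, T23_apply, Function.update_self,
    Function.update_self, Function.update_self]
  split_ifs
  · rfl
  · rw [add_zero]

theorem Lt_smul (n : ℕ) (a : ℕ → M) (k : ℕ) (c : ℂ) (x : M) :
    Lt n (Function.update a k (c • x)) k = c • Lt n (Function.update a k x) k := by
  ext p r
  rw [CStarMatrix.smul_apply, T23_apply, T23_apply, Function.update_self, Function.update_self]
  split_ifs
  · rfl
  · rw [smul_zero]

theorem Lt_congr (n : ℕ) (a b : ℕ → M) (q : ℕ) (h : a q = b q) : Lt n a q = Lt n b q := by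
  ext p r
  rw [T23_apply, T23_apply, h]

end H730HC
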