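import Pool.Agent.H730R3.HC.Defs
import Pool.Agent.H730R3.HC.T01

set_option autoImplicit false

namespace H730HC

open Finset
open scoped ComplexConjugate

universe u v

variable {M : Type u} [CStarAlgebra M] {τ : M →ₗ[ℂ] ℂ}

attribute [local instance] CStarAlgebra.spectralOrder CStarAlgebra.spectralOrderedRing



section T24gen

variable {A : Type u} [CStarAlgebra A] [PartialOrder A] [StarOrderedRing A] (T : A →ₗ[ℂ] ℂ)

/-- positivity on nonnegative elements -/
theorem T24_pos (hn : ∀ x, 0 ≤ (T (star x * x)).re) {e : A} (he : 0 ≤ e) : 0 ≤ (T e).re := by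
  obtain ⟨b, hb⟩ := CStarAlgebra.nonneg_iff_eq_star_mul_self.mp he
  rw [hb]
  exact hn b

theorem T24_left (hn : ∀ x, 0 ≤ (T (star x * x)).re) (x z : A) :
    (T (star (x * z) * (x * z))).re ≤ ‖x‖ ^ 2 * (T (star z * z)).re := by
  have h1 : star x * x ≤ algebraMap ℝ A (‖x‖ ^ 2) := CStarAlgebra.star_mul_le_algebraMap_norm_sq
  have h2 : 0 ≤ star z * (algebraMap ℝ A (‖x‖ ^ 2) - star x * x) * z :=
    star_left_conjugate_nonneg (sub_nonneg.mpr h1) z
  have h3 := T24_pos T hn h2
  have h4 : star z * (algebraMap ℝ A (‖x‖ ^ 2) - star x * x) * z =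
      ((‖x‖ ^ 2 : ℝ) : ℂ) • (star z * z) - star (x * z) * (x * z) := by
    rw [star_mul, Algebra.algebraMap_eq_smul_one]
    have h5 : (‖x‖ ^ 2 : ℝ) • (1 : A) = ((‖x‖ ^ 2 : ℝ) : ℂ) • (1 : A) := by
      rw [Complex.coe_smul]
    rw [h5, mul_sub, sub_mul, mul_smul_comm, smul_mul_assoc, mul_one]
    noncomm_ring
  rw [h4, map_sub, map_smul, Complex.sub_re, smul_eq_mul, Complex.re_ofReal_mul] at h3
  linarith

theorem T24_star (hc : ∀ x y, T (x * y) = T (y * x)) (x : A) :
    (T (star (star x) * star x)).re = (T (star x * x)).re := by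
  rw [star_star, hc]

theorem T24_right (hn : ∀ x, 0 ≤ (T (star x * x)).re) (hc : ∀ x y, T (x * y) = T (y * x))
    (x z : A) : (T (star (x * z) * (x * z))).re ≤ ‖z‖ ^ 2 * (T (star x * x)).re := by
  rw [← T24_star T hc (x * z), star_mul]
  refine (T24_left T hn (star z) (star x)).trans ?_
  rw [T24_star T hc x, norm_star]

theorem T24_sub (hn : ∀ x, 0 ≤ (T (star x * x)).re) (a b : A) (δ : ℝ) (hδ : 0 < δ) :
    (T (star (a - b) * (a - b))).re ≤ (1 + δ) * (T (star a * a)).re +
      (1 + 1 / δ) * (T (star b * b)).re := by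
  have h1 := hn (((δ : ℝ) : ℂ) • a + b)
  have h2 : star (((δ : ℝ) : ℂ) • a + b) * (((δ : ℝ) : ℂ) • a + b) =
      ((δ * δ : ℝ) : ℂ) • (star a * a) + ((δ : ℝ) : ℂ) • (star a * b + star b * a) + star b * b := by
    rw [star_add, star_smul]
    have h3 : star ((δ : ℝ) : ℂ) = ((δ : ℝ) : ℂ) := Complex.conj_ofReal δ
    rw [h3, add_mul, mul_add, mul_add, smul_mul_smul_comm, smul_mul_assoc, mul_smul_comm,
      smul_add, Complex.ofReal_mul]
    abel
  rw [h2, map_add, map_add, map_smul, map_smul, Complex.add_re, Complex.add_re, smul_eq_mul,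
    smul_eq_mul, Complex.re_ofReal_mul, Complex.re_ofReal_mul, map_add, Complex.add_re] at h1
  have h4 : star (a - b) * (a - b) = star a * a - (star a * b + star b * a) + star b * b := by
    rw [star_sub]
    noncomm_ring
  rw [h4, map_add, map_sub, map_add, Complex.add_re, Complex.sub_re, Complex.add_re]
  set R : ℝ := (T (star a * b)).re + (T (star b * a)).re
  set Sa : ℝ := (T (star a * a)).re
  set Sb : ℝ := (T (star b * b)).re
  have h5 : -R ≤ δ * Sa + 1 / δ * Sb := by
    have h6 : δ * (δ * Sa + 1 / δ * Sb + R) = δ * δ * Sa + δ * R + Sb := by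
      have h9 : δ * (1 / δ) = 1 := by
        rw [mul_one_div, div_self hδ.ne']
      calc δ * (δ * Sa + 1 / δ * Sb + R) = δ * δ * Sa + (δ * (1 / δ)) * Sb + δ * R := by ring
        _ = _ := by rw [h9]; ring
    have h7 : 0 ≤ δ * (δ * Sa + 1 / δ * Sb + R) := by
      rw [h6]
      exact h1
    have h8 := nonneg_of_mul_nonneg_right h7 hδ
    linarith
  linarith

theorem T24_ball (hf : ∀ x, (T (star x * x)).re ≤ 0 → x = 0) (y : A)
    (hy : ∀ z, (T (star (y * z) * (y * z))).re ≤ (T (star z * z)).re) : ‖y‖ ≤ 1 := by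
  set c : A := star y * y with hc
  have hcs : IsSelfAdjoint c := IsSelfAdjoint.star_mul_self y
  set f : ℝ → ℝ := fun t => Real.sqrt (max (t - 1) 0) with hfd
  set g : ℝ → ℝ := fun t => max (t - 1) 0 with hgd
  have hfc : Continuous f := by rw [hfd]; fun_prop
  have hgc : Continuous g := by rw [hgd]; fun_prop
  set z : A := cfc f c with hz
  set p : A := cfc g c with hp
  have hzs : star z = z := (cfc_predicate f c : IsSelfAdjoint z)
  have hps : star p = p := (cfc_predicate g c : IsSelfAdjoint p)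
  have hid : cfc (fun t : ℝ => t) c = c := cfc_id' ℝ c
  have h1 : z * c * z - z * z = p * p := by
    have e1 : z * c * z = cfc (fun t => f t * t * f t) c := by
      conv_lhs => rw [← hid]
      rw [hz, ← cfc_mul f (fun t : ℝ => t) c hfc.continuousOn continuousOn_id,
        ← cfc_mul (fun t => f t * t) f c (hfc.mul continuous_id).continuousOn hfc.continuousOn]
    have e2 : z * z = cfc (fun t => f t * f t) c := by
      rw [hz, ← cfc_mul f f c hfc.continuousOn hfc.continuousOn]
    have e3 : p * p = cfc (fun t => g t * g t) c := by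
      rw [hp, ← cfc_mul g g c hgc.continuousOn hgc.continuousOn]
    rw [e1, e2, e3, ← cfc_sub (fun t => f t * t * f t) (fun t => f t * f t) c
      ((hfc.mul continuous_id).mul hfc).continuousOn (hfc.mul hfc).continuousOn]
    apply cfc_congr
    intro t _
    have h2 : f t * f t = g t := Real.mul_self_sqrt (le_max_right _ _)
    have h3 : g t * (t - 1) = g t * g t := by
      rcases le_total (t - 1) 0 with h | h
      · have : g t = 0 := max_eq_right h
        rw [this]; ring
      · have : g t = t - 1 := max_eq_left h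
        rw [this]
    show f t * t * f t - f t * f t = g t * g t
    calc f t * t * f t - f t * f t = (f t * f t) * (t - 1) := by ring
      _ = g t * (t - 1) := by rw [h2]
      _ = g t * g t := h3
  have h2 : p = 0 := by
    apply hf
    rw [hps, ← h1, map_sub, Complex.sub_re]
    have h3 := hy z
    have h4 : star (y * z) * (y * z) = z * c * z := by
      rw [star_mul, hzs, hc]
      noncomm_ring
    rw [h4, hzs] at h3
    linarith
  have h3 : ∀ t ∈ spectrum ℝ c, t ≤ 1 := by
    intro t ht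
    have h4 : Set.EqOn g (fun _ => (0 : ℝ)) (spectrum ℝ c) := by
      have h7 : cfc g c = cfc (fun _ : ℝ => (0 : ℝ)) c := by
        rw [cfc_const_zero]
        exact h2
      exact eqOn_of_cfc_eq_cfc (R := ℝ) (f := g) (g := fun _ => (0 : ℝ)) (a := c) h7 hgc.continuousOn
        continuousOn_const hcs
    have h5 : max (t - 1) 0 = 0 := h4 ht
    have h6 : t - 1 ≤ 0 := by
      rw [← h5]
      exact le_max_left _ _
    linarith
  have h4 : ‖c‖ ≤ 1 := by
    rw [← hid]
    apply norm_cfc_le zero_le_one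
    intro t ht
    have h5 : 0 ≤ t := spectrum_star_mul_self_nonneg t ht
    rw [Real.norm_eq_abs, abs_of_nonneg h5]
    exact h3 t ht
  rw [hc, CStarRing.norm_star_mul_self] at h4
  nlinarith [norm_nonneg y]

end T24gen

theorem T24_mul_apply {J : ℕ} (x y : CStarMatrix (Fin J) (Fin J) M) (k : Fin J) :
    (x * y) k k = ∑ l, x k l * y l k := CStarMatrix.mul_apply

theorem T24_tau (J : ℕ) (x : CStarMatrix (Fin J) (Fin J) M) :
    tauM J τ x = (J : ℂ)⁻¹ * ∑ k, τ (x k k) := rfl

theorem T24_comm (hτ : IsTracial M τ) (J : ℕ) (x y : CStarMatrix (Fin J) (Fin J) M) :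
    tauM J τ (x * y) = tauM J τ (y * x) := by
  rw [T24_tau, T24_tau]
  congr 1
  simp only [T24_mul_apply, map_sum]
  rw [Finset.sum_comm]
  exact Finset.sum_congr rfl fun k _ => Finset.sum_congr rfl fun l _ => hτ.comm _ _

theorem T24_form (J : ℕ) (x : CStarMatrix (Fin J) (Fin J) M) :
    tauM J τ (star x * x) = (J : ℂ)⁻¹ * ∑ k, ∑ l, τ (star (x l k) * x l k) := by
  rw [T24_tau]
  simp only [T24_mul_apply, map_sum]
  rfl

theorem T24_re (J : ℕ) (x : CStarMatrix (Fin J) (Fin J) M) :
    (tauM J τ (star x * x)).re = (J : ℝ)⁻¹ * ∑ k, ∑ l, sq τ (x l k) := by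
  rw [T24_form]
  have h1 : ((J : ℂ))⁻¹ = (((J : ℝ)⁻¹ : ℝ) : ℂ) := by push_cast; rfl
  rw [h1, Complex.re_ofReal_mul, Complex.re_sum]
  simp only [Complex.re_sum]
  rfl

theorem T24_nonneg (hτ : IsTracial M τ) (J : ℕ) (x : CStarMatrix (Fin J) (Fin J) M) :
    0 ≤ (tauM J τ (star x * x)).re := by
  rw [T24_re]
  exact mul_nonneg (by positivity) (Finset.sum_nonneg fun k _ => Finset.sum_nonneg fun l _ =>
    hτ.nonneg _)

theorem T24_entry (hτ : IsTracial M τ) (n : ℕ) (x : CStarMatrix (Fin (n + 1)) (Fin (n + 1)) M)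
    (i j : Fin (n + 1)) : sq τ (x i j) ≤ ((n : ℝ) + 1) * (tauM (n + 1) τ (star x * x)).re := by
  rw [T24_re]
  have h1 : ((n : ℝ) + 1) * ((((n + 1 : ℕ) : ℝ))⁻¹ * ∑ k, ∑ l, sq τ (x l k)) =
      ∑ k, ∑ l, sq τ (x l k) := by
    push_cast
    field_simp
  rw [h1]
  have h2 : sq τ (x i j) ≤ ∑ l, sq τ (x l j) :=
    Finset.single_le_sum (f := fun l => sq τ (x l j)) (fun l _ => hτ.nonneg _) (Finset.mem_univ i)
  exact h2.trans (Finset.single_le_sum (f := fun k => ∑ l, sq τ (x l k))
    (fun k _ => Finset.sum_nonneg fun l _ => hτ.nonneg _) (Finset.mem_univ j))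

theorem T24_faith (hτ : IsTracial M τ) (n : ℕ) (x : CStarMatrix (Fin (n + 1)) (Fin (n + 1)) M)
    (h : (tauM (n + 1) τ (star x * x)).re ≤ 0) : x = 0 := by
  ext i j
  rw [CStarMatrix.zero_apply]
  apply hτ.faithful
  have h1 := T24_entry hτ n x i j
  have h2 : 0 ≤ sq τ (x i j) := hτ.nonneg _
  have h3 : ((n : ℝ) + 1) * (tauM (n + 1) τ (star x * x)).re ≤ 0 :=
    mul_nonpos_of_nonneg_of_nonpos (by positivity) h
  have h4 : sq τ (x i j) = 0 := le_antisymm (h1.trans h3) h2
  exact h4

theorem tracial_matrix (hτ : IsTracial M τ) (n : ℕ) :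
    IsTracial (CStarMatrix (Fin (n + 1)) (Fin (n + 1)) M) (tauM (n + 1) τ) := by
  have hn : ∀ x : CStarMatrix (Fin (n + 1)) (Fin (n + 1)) M, 0 ≤ (tauM (n + 1) τ (star x * x)).re :=
    T24_nonneg hτ (n + 1)
  have hc := T24_comm hτ (n + 1)
  refine ⟨?_, hc, hn, ?_, fun x h => T24_faith hτ n x h.le, ?_⟩
  · rw [T24_tau]
    have h1 : ∀ k : Fin (n + 1), (1 : CStarMatrix (Fin (n + 1)) (Fin (n + 1)) M) k k = 1 :=
      fun k => Matrix.one_apply_eq (α := M) k
    simp only [h1, hτ.one, Finset.sum_const, Finset.card_univ, Fintype.card_fin, nsmul_eq_mul,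
      mul_one]
    have : (((n + 1 : ℕ) : ℂ)) ≠ 0 := by exact_mod_cast Nat.succ_ne_zero n
    exact inv_mul_cancel₀ this
  · intro x
    rw [T24_form]
    have h1 : (((n + 1 : ℕ) : ℂ))⁻¹ = (((((n + 1 : ℕ) : ℝ))⁻¹ : ℝ) : ℂ) := by push_cast; rfl
    rw [h1, Complex.im_ofReal_mul, Complex.im_sum]
    simp only [Complex.im_sum, hτ.real, Finset.sum_const_zero, mul_zero]
  · intro x hx hcau
    -- the limits of the entries
    have h1 : ∀ i j : Fin (n + 1), ∃ w : M, ‖w‖ ≤ 1 ∧ ∀ ε > 0, ∃ K, ∀ k ≥ K,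
        (τ (star (x k i j - w) * (x k i j - w))).re ≤ ε := by
      intro i j
      apply hτ.complete (fun k => x k i j)
      · intro k
        exact CStarMatrix.norm_entry_le_norm.trans (hx k)
      · intro ε hε
        obtain ⟨K, hK⟩ := hcau (ε / ((n : ℝ) + 1)) (by positivity)
        refine ⟨K, fun k hk l hl => ?_⟩
        have h2 := T24_entry hτ n (x k - x l) i j
        have h3 := hK k hk l hl
        have h4 : ((n : ℝ) + 1) * (tauM (n + 1) τ (star (x k - x l) * (x k - x l))).re ≤ ε := by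
          calc _ ≤ ((n : ℝ) + 1) * (ε / ((n : ℝ) + 1)) :=
                mul_le_mul_of_nonneg_left h3 (by positivity)
            _ = ε := by field_simp
        exact h2.trans h4
    choose w hw1 hw2 using h1
    set y : CStarMatrix (Fin (n + 1)) (Fin (n + 1)) M :=
      CStarMatrix.ofMatrix (Matrix.of fun i j => w i j) with hy
    have hlim : ∀ ε > 0, ∃ K, ∀ k ≥ K, (tauM (n + 1) τ (star (x k - y) * (x k - y))).re ≤ ε := by
      intro ε hε
      choose K hK using fun i j => hw2 i j (ε / ((n : ℝ) + 1)) (by positivity)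
      refine ⟨∑ i, ∑ j, K i j, fun k hk => ?_⟩
      rw [T24_re]
      have h2 : ∀ i j : Fin (n + 1), sq τ ((x k - y) i j) ≤ ε / ((n : ℝ) + 1) := by
        intro i j
        have h3 : K i j ≤ ∑ i, ∑ j, K i j :=
          (Finset.single_le_sum (f := fun j => K i j) (fun _ _ => Nat.zero_le _)
            (Finset.mem_univ j)).trans
          (Finset.single_le_sum (f := fun i => ∑ j, K i j) (fun _ _ => Nat.zero_le _)
            (Finset.mem_univ i))
        exact hK i j k (h3.trans hk)
      calc (((n + 1 : ℕ) : ℝ))⁻¹ * ∑ j, ∑ i, sq τ ((x k - y) i j)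
          ≤ (((n + 1 : ℕ) : ℝ))⁻¹ * ∑ _j : Fin (n + 1), ∑ _i : Fin (n + 1), ε / ((n : ℝ) + 1) := by
            apply mul_le_mul_of_nonneg_left _ (by positivity)
            exact Finset.sum_le_sum fun j _ => Finset.sum_le_sum fun i _ => h2 i j
        _ = ε := by
            simp only [Finset.sum_const, Finset.card_univ, Fintype.card_fin, nsmul_eq_mul]
            push_cast
            field_simp
    refine ⟨y, ?_, hlim⟩
    -- the norm
    apply T24_ball (tauM (n + 1) τ) (T24_faith hτ n)
    intro z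
    set S : ℝ := (tauM (n + 1) τ (star z * z)).re with hS
    have hS0 : 0 ≤ S := hn z
    have key : ∀ δ : ℝ, 0 < δ → (tauM (n + 1) τ (star (y * z) * (y * z))).re ≤ (1 + δ) * S + δ := by
      intro δ hδ
      set B : ℝ := (1 + 1 / δ) * (‖z‖ ^ 2 + 1) with hB
      have hB0 : 0 < B := by positivity
      obtain ⟨K, hK⟩ := hlim (δ / B) (by positivity)
      have h2 := hK K le_rfl
      have h3 : y * z = x K * z - (x K - y) * z := by
        rw [sub_mul]
        abel
      rw [h3]
      refine (T24_sub (tauM (n + 1) τ) hn (x K * z) ((x K - y) * z) δ hδ).trans ?_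
      have h4 : (tauM (n + 1) τ (star (x K * z) * (x K * z))).re ≤ S := by
        refine (T24_left (tauM (n + 1) τ) hn (x K) z).trans ?_
        have h5 : ‖x K‖ ^ 2 ≤ 1 := pow_le_one₀ (norm_nonneg _) (hx K)
        calc ‖x K‖ ^ 2 * (tauM (n + 1) τ (star z * z)).re ≤ 1 * S :=
              mul_le_mul_of_nonneg_right h5 hS0
          _ = S := one_mul S
      have h5 : (1 + 1 / δ) * (tauM (n + 1) τ (star ((x K - y) * z) * ((x K - y) * z))).re ≤ δ := by
        calc (1 + 1 / δ) * (tauM (n + 1) τ (star ((x K - y) * z) * ((x K - y) * z))).re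
            ≤ (1 + 1 / δ) * (‖z‖ ^ 2 * (tauM (n + 1) τ (star (x K - y) * (x K - y))).re) := by
              apply mul_le_mul_of_nonneg_left _ (by positivity)
              exact T24_right (tauM (n + 1) τ) hn hc (x K - y) z
          _ ≤ (1 + 1 / δ) * ((‖z‖ ^ 2 + 1) * (δ / B)) := by
              apply mul_le_mul_of_nonneg_left _ (by positivity)
              apply mul_le_mul _ h2 (hn _) (by positivity)
              linarith
          _ = δ := by
              rw [← mul_assoc, ← hB]
              field_simp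
      have h6 := mul_le_mul_of_nonneg_left h4 (show (0 : ℝ) ≤ 1 + δ by positivity)
      linarith
    apply le_of_forall_pos_le_add
    intro ε hε
    have h2 := key (ε / (S + 1)) (by positivity)
    have h3 : (1 + ε / (S + 1)) * S + ε / (S + 1) = S + ε := by
      field_simp
      ring
    rw [h3] at h2
    exact h2

end H730HC
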