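import Pool.Agent.H730R3.HC.Defs
import Pool.Agent.H730R3.HC.T14

set_option autoImplicit false

namespace H730HC

open Finset
open scoped ComplexConjugate

universe u v

variable {M : Type u} [CStarAlgebra M] {τ : M →ₗ[ℂ] ℂ}

attribute [local instance] CStarAlgebra.spectralOrder CStarAlgebra.spectralOrderedRing



theorem T26_mul_left {J : ℕ} (n : ℕ) : ∀ (k l : Fin J) (x : M) (T : (ℕ → M) → M)
    (X : ℕ → Fin J → Fin J → M),
    amp n k l (fun a => x * T a) X = x * amp n k l T X := by
  induction n with
  | zero =>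
    intro k l x T X
    simp only [amp]
    split_ifs
    · rfl
    · rw [mul_zero]
  | succ n ih =>
    intro k l x T X
    simp only [amp]
    rw [Finset.mul_sum]
    exact Finset.sum_congr rfl fun j _ => ih j l x (fun a => T (cons (X 0 k j) a)) _

theorem T26_zero {J : ℕ} (n : ℕ) : ∀ (k l : Fin J) (X : ℕ → Fin J → Fin J → M),
    amp n k l (fun _ => (0 : M)) X = 0 := by
  induction n with
  | zero =>
    intro k l X
    simp only [amp]
    split_ifs <;> rfl
  | succ n ih =>
    intro k l X
    simp only [amp]
    exact Finset.sum_eq_zero fun j _ => ih j l _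

theorem T26_add {J : ℕ} (n : ℕ) : ∀ (k l : Fin J) (T S : (ℕ → M) → M)
    (X : ℕ → Fin J → Fin J → M),
    amp n k l (fun a => T a + S a) X = amp n k l T X + amp n k l S X := by
  induction n with
  | zero =>
    intro k l T S X
    simp only [amp]
    split_ifs
    · rfl
    · rw [add_zero]
  | succ n ih =>
    intro k l T S X
    simp only [amp]
    rw [← Finset.sum_add_distrib]
    exact Finset.sum_congr rfl fun j _ =>
      ih j l (fun a => T (cons (X 0 k j) a)) (fun a => S (cons (X 0 k j) a)) _

theorem T26_sum {J : ℕ} {ι : Type*} (n : ℕ) (k l : Fin J) (s : Finset ι)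
    (T : ι → (ℕ → M) → M) (X : ℕ → Fin J → Fin J → M) :
    amp n k l (fun a => ∑ i ∈ s, T i a) X = ∑ i ∈ s, amp n k l (T i) X := by
  classical
  induction s using Finset.induction_on with
  | empty => simpa using T26_zero n k l X
  | insert i s hi ih =>
    rw [Finset.sum_insert hi, ← ih, ← T26_add]
    congr 1
    funext a
    rw [Finset.sum_insert hi]

theorem T26_mul_right {J : ℕ} (m : ℕ) : ∀ (k l : Fin J) (T : (ℕ → M) → M)
    (_ : ∀ a b : ℕ → M, (∀ k < m, a k = b k) → T a = T b)
    (X : ℕ → Fin J → Fin J → M),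
    amp (m + 1) k l (fun a => T a * a m) X = ∑ p, amp m k p T X * X m p l := by
  induction m with
  | zero =>
    intro k l T hT X
    simp only [amp]
    rw [Finset.sum_eq_single l, Finset.sum_eq_single k]
    · rw [if_pos rfl, if_pos rfl]
      have h : T (cons (X 0 k l) fun _ => 0) = T fun _ => 0 :=
        hT _ _ fun k hk => absurd hk (Nat.not_lt_zero k)
      rw [h]
      rfl
    · intro p _ hp
      rw [if_neg (Ne.symm hp), zero_mul]
    · intro h
      exact absurd (Finset.mem_univ k) h
    · intro p _ hp
      rw [if_neg hp]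
    · intro h
      exact absurd (Finset.mem_univ l) h
  | succ m ih =>
    intro k l T hT X
    have hT' : ∀ x : M, ∀ a b : ℕ → M, (∀ k < m, a k = b k) → T (cons x a) = T (cons x b) := by
      intro x a b hab
      apply hT
      intro k hk
      rcases Nat.eq_zero_or_pos k with rfl | hk0
      · rfl
      · have h1 : cons x a k = a (k - 1) := if_neg hk0.ne'
        have h2 : cons x b k = b (k - 1) := if_neg hk0.ne'
        rw [h1, h2]
        exact hab _ (by omega)
    have h1 : amp (m + 1 + 1) k l (fun a => T a * a (m + 1)) X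
        = ∑ j, amp (m + 1) j l (fun a => T (cons (X 0 k j) a) * a m) (fun i => X (i + 1)) := rfl
    have h2 : ∀ p, amp (m + 1) k p T X
        = ∑ j, amp m j p (fun a => T (cons (X 0 k j) a)) (fun i => X (i + 1)) := fun p => rfl
    rw [h1]
    simp only [h2, Finset.sum_mul]
    rw [Finset.sum_comm]
    exact Finset.sum_congr rfl fun j _ =>
      ih j l (fun a => T (cons (X 0 k j) a)) (hT' _) (fun i => X (i + 1))

theorem T26_cons_zero (x : M) (a : ℕ → M) : cons x a 0 = x := rfl

theorem T26_cons_succ (x : M) (a : ℕ → M) (k : ℕ) : cons x a (k + 1) = a k := rfl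

theorem T26_cons_update (x y : M) (a : ℕ → M) (k : ℕ) :
    cons x (Function.update a k y) = Function.update (cons x a) (k + 1) y := by
  funext n
  cases n with
  | zero =>
    rw [Function.update_of_ne (by omega)]
    rfl
  | succ n =>
    rw [T26_cons_succ]
    by_cases h : n = k
    · subst h
      rw [Function.update_self, Function.update_self]
    · rw [Function.update_of_ne h, Function.update_of_ne (by omega), T26_cons_succ]

theorem T26_cons_eq_update (y : M) (a : ℕ → M) :
    cons y a = Function.update (cons 0 a) 0 y := by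
  funext n
  cases n with
  | zero => rw [Function.update_self]; rfl
  | succ n => rw [Function.update_of_ne (by omega)]; rfl

theorem T26_cons_sum {m : ℕ} (hm : 0 < m) {T : (ℕ → M) → M}
    (hadd : ∀ (a : ℕ → M) (k : ℕ) (x y : M), k < m →
      T (Function.update a k (x + y)) = T (Function.update a k x) + T (Function.update a k y))
    {ι : Type*} (s : Finset ι) (f : ι → M) (a : ℕ → M) :
    T (cons (∑ i ∈ s, f i) a) = ∑ i ∈ s, T (cons (f i) a) := by
  have key : ∀ x y : M, T (cons (x + y) a) = T (cons x a) + T (cons y a) := by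
    intro x y
    rw [T26_cons_eq_update (x + y), T26_cons_eq_update x, T26_cons_eq_update y]
    exact hadd _ 0 x y hm
  exact map_sum (AddMonoidHom.mk' (fun y => T (cons y a)) key) f s

theorem T26_mu_zero (x y : M) (a : ℕ → M) : mu 0 (cons x (cons y a)) = cons (x * y) a := by
  funext n
  cases n with
  | zero => rfl
  | succ n => rfl

theorem T26_mu_succ (i : ℕ) (x : M) (a : ℕ → M) : mu (i + 1) (cons x a) = cons x (mu i a) := by
  funext n
  cases n with
  | zero =>
    have h : (0 : ℕ) < i + 1 := Nat.succ_pos i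
    simp only [mu, h, if_true]
    rfl
  | succ n =>
    rw [T26_cons_succ]
    simp only [mu, T26_cons_succ, add_lt_add_iff_right, add_left_inj]

/-- multiply the matrices `i` and `i+1` -/
def T26_mm {J : ℕ} (i : ℕ) (X : ℕ → Fin J → Fin J → M) : ℕ → Fin J → Fin J → M :=
  fun n => if n < i then X n else if n = i then fun p q => ∑ r, X i p r * X (i + 1) r q
    else X (n + 1)

theorem T26_mm_zero_zero {J : ℕ} (X : ℕ → Fin J → Fin J → M) (p q : Fin J) :
    T26_mm 0 X 0 p q = ∑ r, X 0 p r * X 1 r q := rfl

theorem T26_mm_zero_succ {J : ℕ} (X : ℕ → Fin J → Fin J → M) (n : ℕ) :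
    T26_mm 0 X (n + 1) = X (n + 1 + 1) := rfl

theorem T26_mm_succ_zero {J : ℕ} (i : ℕ) (X : ℕ → Fin J → Fin J → M) :
    T26_mm (i + 1) X 0 = X 0 := by
  have h : (0 : ℕ) < i + 1 := Nat.succ_pos i
  simp only [T26_mm, h, if_true]

theorem T26_mm_succ_succ {J : ℕ} (i : ℕ) (X : ℕ → Fin J → Fin J → M) (n : ℕ) :
    T26_mm (i + 1) X (n + 1) = T26_mm i (fun n => X (n + 1)) n := by
  simp only [T26_mm, add_lt_add_iff_right, add_left_inj]

theorem T26_mu {J : ℕ} (i : ℕ) : ∀ (m : ℕ) (_ : i < m) (k l : Fin J) (T : (ℕ → M) → M)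
    (_ : ∀ (a : ℕ → M) (k : ℕ) (x y : M), k < m →
      T (Function.update a k (x + y)) = T (Function.update a k x) + T (Function.update a k y))
    (X : ℕ → Fin J → Fin J → M),
    amp (m + 1) k l (fun a => T (mu i a)) X = amp m k l T (T26_mm i X) := by
  induction i with
  | zero =>
    intro m hm k l T hT X
    obtain ⟨m, rfl⟩ : ∃ m', m = m' + 1 := ⟨m - 1, by omega⟩
    have h1 : amp (m + 1 + 1) k l (fun a => T (mu 0 a)) X
        = ∑ j, ∑ p, amp m p l (fun a => T (mu 0 (cons (X 0 k j) (cons (X 1 j p) a))))
          (fun i => X (i + 1 + 1)) := rfl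
    have h2 : amp (m + 1) k l T (T26_mm 0 X)
        = ∑ p, amp m p l (fun a => T (cons (T26_mm 0 X 0 k p) a))
          (fun i => T26_mm 0 X (i + 1)) := rfl
    rw [h1, h2, Finset.sum_comm]
    refine Finset.sum_congr rfl fun p _ => ?_
    simp only [T26_mu_zero, T26_mm_zero_zero, T26_mm_zero_succ]
    rw [← T26_sum]
    congr 1
    funext a
    rw [T26_cons_sum hm hT]
  | succ i ih =>
    intro m hm k l T hT X
    obtain ⟨m, rfl⟩ : ∃ m', m = m' + 1 := ⟨m - 1, by omega⟩
    have h1 : amp (m + 1 + 1) k l (fun a => T (mu (i + 1) a)) X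
        = ∑ j, amp (m + 1) j l (fun a => T (mu (i + 1) (cons (X 0 k j) a)))
          (fun i => X (i + 1)) := rfl
    have h2 : amp (m + 1) k l T (T26_mm (i + 1) X)
        = ∑ j, amp m j l (fun a => T (cons (T26_mm (i + 1) X 0 k j) a))
          (fun n => T26_mm (i + 1) X (n + 1)) := rfl
    rw [h1, h2]
    refine Finset.sum_congr rfl fun j _ => ?_
    simp only [T26_mu_succ, T26_mm_succ_zero, T26_mm_succ_succ]
    refine ih m (by omega) j l (fun a => T (cons (X 0 k j) a)) ?_ (fun n => X (n + 1))
    intro a n x y hn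
    simp only [T26_cons_update]
    exact hT _ (n + 1) x y (by omega)

theorem ampM_face {m i J : ℕ} (hi : i ≤ m + 1) {T : (ℕ → M) → M} (hT : IsB m T)
    (X : ℕ → CStarMatrix (Fin J) (Fin J) M) : ampM (m + 1) (face m i T) X = face m i (ampM m T) X := by
  have hE : ∀ (n : ℕ) (S : (ℕ → M) → M) (Y : ℕ → CStarMatrix (Fin J) (Fin J) M) (k l : Fin J),
      ampM n S Y k l = amp n k l S (fun i p q => Y i p q) := fun n S Y k l => rfl
  refine CStarMatrix.ext fun k l => ?_
  rw [hE]
  rcases Nat.eq_zero_or_pos i with rfl | hi0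
  · have h1 : face m 0 (ampM m T) X = X 0 * ampM m T (shift X) := rfl
    have h2 : face m 0 T = fun a => a 0 * T (shift a) := rfl
    rw [h1, h2, CStarMatrix.mul_apply]
    have h3 : amp (m + 1) k l (fun a => a 0 * T (shift a)) (fun i p q => X i p q)
        = ∑ j, amp m j l (fun a => X 0 k j * T a) (fun i p q => X (i + 1) p q) := rfl
    rw [h3]
    refine Finset.sum_congr rfl fun j _ => ?_
    rw [T26_mul_left, hE]
    rfl
  · by_cases him : i ≤ m
    · have h1 : face m i (ampM m T) X = ampM m T (mu (i - 1) X) := by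
        simp only [face, if_neg hi0.ne', if_pos him]
      have h2 : face m i T = fun a => T (mu (i - 1) a) := by
        funext a
        simp only [face, if_neg hi0.ne', if_pos him]
      rw [h1, h2, hE, T26_mu (i - 1) m (by omega) k l T hT.add]
      have h3 : T26_mm (i - 1) (fun i p q => X i p q) = fun n p q => mu (i - 1) X n p q := by
        funext n p q
        simp only [T26_mm, mu]
        split_ifs
        · rfl
        · rw [CStarMatrix.mul_apply]
        · rfl
      rw [h3]
    · have h1 : face m i (ampM m T) X = ampM m T X * X m := by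
        simp only [face, if_neg hi0.ne', if_neg him]
      have h2 : face m i T = fun a => T a * a m := by
        funext a
        simp only [face, if_neg hi0.ne', if_neg him]
      rw [h1, h2, T26_mul_right m k l T hT.dep, CStarMatrix.mul_apply]
      rfl

end H730HC
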