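import Pool.Agent.H730R3.HC.Defs

set_option autoImplicit false

namespace H730HC

open Finset
open scoped ComplexConjugate

universe u v

variable {M : Type u} [CStarAlgebra M] {τ : M →ₗ[ℂ] ℂ}



theorem word_congr_pair {R : Type u} [Ring R] {d : ℕ} (n : ℕ) (L L' : ℕ → R) (σ : Fin n → Fin d)
    (q : ℕ) (hq : q + 1 < n) (hL : ∀ k, k ≠ q → k ≠ q + 1 → L k = L' k)
    (hσ : σ ⟨q, by omega⟩ = σ ⟨q + 1, hq⟩) (he : Even ((σ ⟨q, by omega⟩ : Fin d) : ℕ))
    (h : L q * L (q + 1) = L' q * L' (q + 1)) (m : ℕ) : word n L σ m = word n L' σ m := by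
  induction q generalizing n L L' with
  | zero =>
    obtain ⟨n, rfl⟩ : ∃ k, n = k + 2 := ⟨n - 2, by omega⟩
    have hs : shift (shift L) = shift (shift L') := by
      funext k
      exact hL (k + 2) (by omega) (by omega)
    have h01 : σ 1 = σ 0 := hσ.symm
    have he0 : Even ((σ 0 : Fin d) : ℕ) := he
    have hsucc : σ (Fin.succ 0) = σ 0 := h01
    simp only [word, hs, hsucc]
    by_cases hm : ((σ 0 : Fin d) : ℕ) = m
    · have hem : Even m := hm ▸ he0
      simp only [if_pos hm, if_pos hem]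
      have h1 : shift L 0 = L 1 := rfl
      have h2 : shift L' 0 = L' 1 := rfl
      rw [h1, h2, ← mul_assoc, ← mul_assoc]
      have h' : L 0 * L 1 = L' 0 * L' 1 := h
      rw [h']
    · simp only [if_neg hm]
  | succ q ih =>
    obtain ⟨n, rfl⟩ : ∃ k, n = k + 1 := ⟨n - 1, by omega⟩
    have h0 : L 0 = L' 0 := hL 0 (by omega) (by omega)
    have hrec := ih n (shift L) (shift L') (fun k => σ k.succ) (by omega)
      (fun k h1 h2 => hL (k + 1) (by omega) (by omega)) hσ he h
    simp only [word, hrec, h0]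

end H730HC
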