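import Pool.Agent.H730R3.HC.Defs

set_option autoImplicit false

namespace H730HC

open Finset
open scoped ComplexConjugate

universe u v

variable {M : Type u} [CStarAlgebra M] {τ : M →ₗ[ℂ] ℂ}



theorem T36_first {d : ℕ} {R : Type u} [Ring R] : ∀ (n : ℕ) (L : ℕ → R) (σ : Fin n → Fin d)
    (m : ℕ), (∃ q, (σ q : ℕ) = m) → ∃ (q0 : Fin n) (W : R), (σ q0 : ℕ) = m ∧
      word n L σ m = if Even m then L q0 * W else W * (-(L q0)) := by
  intro n
  induction n with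
  | zero =>
    rintro L σ m ⟨q, -⟩
    exact q.elim0
  | succ n ih =>
    rintro L σ m ⟨q, hq⟩
    by_cases h0 : (σ 0 : ℕ) = m
    · refine ⟨0, word n (shift L) (fun q => σ q.succ) m, h0, ?_⟩
      rw [word, if_pos h0]
      rfl
    · have hq0 : q ≠ 0 := by
        rintro rfl
        exact h0 hq
      obtain ⟨p, rfl⟩ := Fin.exists_succ_eq.2 hq0
      obtain ⟨q0, W, h1, h2⟩ := ih (shift L) (fun q => σ q.succ) m ⟨p, hq⟩
      refine ⟨q0.succ, W, h1, ?_⟩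
      rw [word, if_neg h0, h2]
      rfl

theorem T36_zero {d : ℕ} {R : Type u} [Ring R] : ∀ (n : ℕ) (L : ℕ → R) (σ : Fin n → Fin d)
    (m : ℕ), (∀ q q', q' ≠ q + 1 → L q * L q' = 0) →
    (∀ (q : ℕ) (hq : q + 1 < n), (σ ⟨q, by omega⟩ : ℕ) = m → (σ ⟨q + 1, hq⟩ : ℕ) = m → ¬ Even m) →
    (∃ q q' : Fin n, q < q' ∧ (σ q : ℕ) = m ∧ (σ q' : ℕ) = m) → word n L σ m = 0 := by
  intro n
  induction n with
  | zero =>
    rintro L σ m - - ⟨q, -⟩
    exact q.elim0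
  | succ n ih =>
    rintro L σ m hL hA ⟨q, q', hqq, hq, hq'⟩
    obtain ⟨p', rfl⟩ := Fin.exists_succ_eq.2 (Fin.ne_of_gt (lt_of_le_of_lt (Fin.zero_le q) hqq))
    by_cases h0 : (σ 0 : ℕ) = m
    · obtain ⟨q0, W, h1, h2⟩ := T36_first n (shift L) (fun q => σ q.succ) m ⟨p', hq'⟩
      rw [word, if_pos h0, h2]
      by_cases hm : Even m
      · rw [if_pos hm, if_pos hm, ← mul_assoc]
        have h3 : L 0 * shift L q0 = 0 := by
          refine hL 0 (q0 + 1) fun h4 => ?_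
          have h5 : (q0 : ℕ) = 0 := by omega
          have hn : 0 + 1 < n + 1 := by have := q0.isLt; omega
          refine hA 0 hn h0 ?_ hm
          have h6 : (⟨0 + 1, hn⟩ : Fin (n + 1)) = q0.succ := Fin.ext (by simp [h5])
          rw [h6]
          exact h1
        rw [h3, zero_mul]
      · rw [if_neg hm, if_neg hm, mul_assoc, neg_mul_neg]
        have h3 : shift L q0 * L 0 = 0 := hL (q0 + 1) 0 (by omega)
        rw [h3, mul_zero]
    · have hq0 : q ≠ 0 := by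
        rintro rfl
        exact h0 hq
      obtain ⟨p, rfl⟩ := Fin.exists_succ_eq.2 hq0
      rw [word, if_neg h0]
      refine ih (shift L) (fun q => σ q.succ) m (fun a b hab => hL (a + 1) (b + 1) (by omega))
        (fun a ha h5 h6 => ?_) ⟨p, p', Fin.succ_lt_succ_iff.1 hqq, hq, hq'⟩
      exact hA (a + 1) (by omega) h5 h6

theorem word_gap {d : ℕ} (n : ℕ) (σ : Fin n → Fin d) (hσ : ¬ Function.Injective σ) :
    (∃ (q : ℕ) (hq : q + 1 < n), σ ⟨q, by omega⟩ = σ ⟨q + 1, hq⟩ ∧ Even ((σ ⟨q, by omega⟩ : Fin d) : ℕ)) ∨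
    ∃ m : Fin d, ∀ (R : Type u) [Ring R] (L : ℕ → R), (∀ q q', q' ≠ q + 1 → L q * L q' = 0) →
      word n L σ m = 0 := by
  by_cases hA : ∃ (q : ℕ) (hq : q + 1 < n), σ ⟨q, by omega⟩ = σ ⟨q + 1, hq⟩ ∧
      Even ((σ ⟨q, by omega⟩ : Fin d) : ℕ)
  · exact Or.inl hA
  right
  obtain ⟨a, b, hab, hne, hlt⟩ : ∃ a b : Fin n, σ a = σ b ∧ a ≠ b ∧ a < b := by
    rw [Function.Injective] at hσ
    push Not at hσ
    obtain ⟨a, b, h1, h2⟩ := hσ
    rcases lt_or_gt_of_ne h2 with h | h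
    · exact ⟨a, b, h1, h2, h⟩
    · exact ⟨b, a, h1.symm, h2.symm, h⟩
  refine ⟨σ a, fun R _ L hL => T36_zero n L σ _ hL (fun q hq h1 h2 hm => hA ⟨q, hq, ?_, ?_⟩)
    ⟨a, b, hlt, rfl, by rw [hab]⟩⟩
  · exact Fin.ext (h1.trans h2.symm)
  · rw [h1]
    exact hm

end H730HC
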