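import Pool.Agent.H730R3.HC.Defs
import Pool.Agent.H730R3.HC.T23

set_option autoImplicit false

namespace H730HC

open Finset
open scoped ComplexConjugate

universe u v

variable {M : Type u} [CStarAlgebra M] {τ : M →ₗ[ℂ] ℂ}

attribute [local instance] CStarAlgebra.spectralOrder CStarAlgebra.spectralOrderedRing

/-- the matrix with the entry `c` at `(0,0)` -/
theorem T37_single_mul (n : ℕ) (c : M) (x : CStarMatrix (Fin (n + 1)) (Fin (n + 1)) M)
    (l : Fin (n + 1)) :
    ((CStarMatrix.ofMatrix (Matrix.single 0 0 c) : CStarMatrix (Fin (n + 1)) (Fin (n + 1)) M) * x)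
      0 l = c * x 0 l := by
  classical
  rw [CStarMatrix.mul_apply, Finset.sum_eq_single 0]
  · simp [CStarMatrix.ofMatrix_apply]
  · intro k _ hk
    have : (CStarMatrix.ofMatrix (Matrix.single 0 0 c) :
        CStarMatrix (Fin (n + 1)) (Fin (n + 1)) M) 0 k = 0 := by
      simp [CStarMatrix.ofMatrix_apply, Matrix.single_apply, Ne.symm hk]
    rw [this, zero_mul]
  · intro h
    exact absurd (Finset.mem_univ _) h

theorem T37_mul_single (n : ℕ) (c : M) (x : CStarMatrix (Fin (n + 1)) (Fin (n + 1)) M)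
    (l : Fin (n + 1)) :
    (x * (CStarMatrix.ofMatrix (Matrix.single 0 0 c) : CStarMatrix (Fin (n + 1)) (Fin (n + 1)) M))
      0 l = if l = 0 then x 0 0 * c else 0 := by
  classical
  rw [CStarMatrix.mul_apply]
  split_ifs with hl
  · subst hl
    rw [Finset.sum_eq_single 0]
    · simp [CStarMatrix.ofMatrix_apply]
    · intro k _ hk
      have : (CStarMatrix.ofMatrix (Matrix.single 0 0 c) :
          CStarMatrix (Fin (n + 1)) (Fin (n + 1)) M) k 0 = 0 := by
        simp [CStarMatrix.ofMatrix_apply, Matrix.single_apply, Ne.symm hk]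
      rw [this, mul_zero]
    · intro h
      exact absurd (Finset.mem_univ _) h
  · refine Finset.sum_eq_zero fun k _ => ?_
    have : (CStarMatrix.ofMatrix (Matrix.single 0 0 c) :
        CStarMatrix (Fin (n + 1)) (Fin (n + 1)) M) k l = 0 := by
      simp [CStarMatrix.ofMatrix_apply, Matrix.single_apply, Ne.symm hl]
    rw [this, mul_zero]

theorem cen_matrix (n : ℕ) (hn : 1 ≤ n) (x : CStarMatrix (Fin (n + 1)) (Fin (n + 1)) M) (hx : IsCen x) :
    x 0 (Fin.last n) = 0 ∧ IsCen (x 0 0) ∧
      ∀ (y : CStarMatrix (Fin (n + 1)) (Fin (n + 1)) M) (l : Fin (n + 1)), (x * y) 0 l = x 0 0 * y 0 l := by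
  classical
  have hoff : ∀ l : Fin (n + 1), l ≠ 0 → x 0 l = 0 := by
    intro l hl
    have h1 : (x * (CStarMatrix.ofMatrix (Matrix.single 0 0 (1 : M)) :
        CStarMatrix (Fin (n + 1)) (Fin (n + 1)) M)) 0 l =
        ((CStarMatrix.ofMatrix (Matrix.single 0 0 (1 : M)) :
        CStarMatrix (Fin (n + 1)) (Fin (n + 1)) M) * x) 0 l := by rw [hx]
    rw [T37_single_mul, T37_mul_single, if_neg hl, one_mul] at h1
    exact h1.symm
  refine ⟨?_, ?_, ?_⟩
  · apply hoff
    intro h
    have := congrArg Fin.val h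
    simp at this
    omega
  · intro c
    have h1 : (x * (CStarMatrix.ofMatrix (Matrix.single 0 0 c) :
        CStarMatrix (Fin (n + 1)) (Fin (n + 1)) M)) 0 0 =
        ((CStarMatrix.ofMatrix (Matrix.single 0 0 c) :
        CStarMatrix (Fin (n + 1)) (Fin (n + 1)) M) * x) 0 0 := by rw [hx]
    rw [T37_single_mul, T37_mul_single, if_pos rfl] at h1
    exact h1
  · intro y l
    rw [CStarMatrix.mul_apply, Finset.sum_eq_single 0]
    · intro k _ hk
      rw [hoff k hk, zero_mul]
    · intro h
      exact absurd (Finset.mem_univ _) h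

end H730HC
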