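import Pool.Agent.H730R3.HC.Defs
import Pool.Agent.H730R3.HC.T23

set_option autoImplicit false

namespace H730HC

open Finset
open scoped ComplexConjugate

universe u v

variable {M : Type u} [CStarAlgebra M] {τ : M →ₗ[ℂ] ℂ}

attribute [local instance] CStarAlgebra.spectralOrder CStarAlgebra.spectralOrderedRing



theorem T38_key (n d : ℕ) (a : ℕ → M) (m : ℕ) (hm : Even m) : ∀ (n' j : ℕ), j + n' = n →
    ∀ (σ : Fin n' → Fin d) (p : Fin (n + 1)), (p : ℕ) ≤ j →
    (word n' (fun q => Lt n a (q + j)) σ m) p (Fin.last n) =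
      if (p : ℕ) = j ∧ ∀ q, (σ q : ℕ) = m then pr n' (fun k => a (k + j)) else 0 := by
  intro n'
  induction n' with
  | zero =>
    intro j hj σ p hp
    have hj' : j = n := by omega
    subst hj'
    show (1 : CStarMatrix (Fin (j + 1)) (Fin (j + 1)) M) p (Fin.last j) = _
    rw [CStarMatrix.one_apply]
    by_cases h : (p : ℕ) = j
    · rw [if_pos (Fin.ext h), if_pos ⟨h, fun q => q.elim0⟩]
      rfl
    · rw [if_neg (fun h' => h (by rw [h']; rfl)), if_neg (fun h' => h h'.1)]
  | succ n' ih =>
    intro j hj σ p hp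
    have hs : shift (fun q => Lt n a (q + j)) = fun q => Lt n a (q + (j + 1)) := by
      funext q
      show Lt n a (q + 1 + j) = Lt n a (q + (j + 1))
      rw [Nat.add_right_comm, Nat.add_assoc]
    have hs' : shift (fun k => a (k + j)) = fun k => a (k + (j + 1)) := by
      funext q
      show a (q + 1 + j) = a (q + (j + 1))
      rw [Nat.add_right_comm, Nat.add_assoc]
    simp only [word, hs, if_pos hm]
    by_cases h0 : (σ 0 : ℕ) = m
    · rw [if_pos h0]
      have hmul : (Lt n a (0 + j) * word n' (fun q => Lt n a (q + (j + 1)))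
          (fun q => σ q.succ) m) p (Fin.last n) =
          ∑ i, Lt n a (0 + j) p i * (word n' (fun q => Lt n a (q + (j + 1)))
          (fun q => σ q.succ) m) i (Fin.last n) := CStarMatrix.mul_apply
      rw [hmul, Finset.sum_eq_single (⟨j + 1, by omega⟩ : Fin (n + 1))]
      · rw [ih (j + 1) (by omega) _ _ (le_refl _)]
        have hL : Lt n a (0 + j) p (⟨j + 1, by omega⟩ : Fin (n + 1)) =
            if (p : ℕ) = j then a j else 0 := by
          show (if (p : ℕ) = 0 + j ∧ j + 1 = 0 + j + 1 then a (0 + j) else 0) = _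
          simp only [Nat.zero_add, and_true]
        rw [hL]
        by_cases hp' : (p : ℕ) = j
        · by_cases hall : ∀ q : Fin n', (σ q.succ : ℕ) = m
          · rw [if_pos hp', if_pos ⟨rfl, hall⟩, if_pos ⟨hp', fun q => by
              rcases Fin.eq_zero_or_eq_succ q with h | ⟨r, h⟩
              · rw [h]; exact h0
              · rw [h]; exact hall r⟩]
            show _ = a (0 + j) * pr n' (shift fun k => a (k + j))
            rw [hs', Nat.zero_add]
          · have hR : ¬ ((p : ℕ) = j ∧ ∀ q, (σ q : ℕ) = m) := fun h => hall fun q => h.2 q.succ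
            have hL2 : ¬ (((⟨j + 1, by omega⟩ : Fin (n + 1)) : ℕ) = j + 1 ∧
                ∀ q : Fin n', (σ q.succ : ℕ) = m) := fun h => hall h.2
            rw [if_neg hL2, if_neg hR, mul_zero]
        · have hR : ¬ ((p : ℕ) = j ∧ ∀ q, (σ q : ℕ) = m) := fun h => hp' h.1
          rw [if_neg hp', if_neg hR, zero_mul]
      · intro i _ hi
        have hL : Lt n a (0 + j) p i = 0 := by
          show (if (p : ℕ) = 0 + j ∧ (i : ℕ) = 0 + j + 1 then a (0 + j) else 0) = _
          rw [if_neg]
          rintro ⟨_, h2⟩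
          apply hi
          apply Fin.ext
          show (i : ℕ) = j + 1
          omega
        rw [hL, zero_mul]
      · intro hn
        exact absurd (Finset.mem_univ _) hn
    · have hR : ¬ ((p : ℕ) = j ∧ ∀ q, (σ q : ℕ) = m) := fun h => h0 (h.2 0)
      have hL3 : ¬ ((p : ℕ) = j + 1 ∧ ∀ q : Fin n', (σ q.succ : ℕ) = m) := by
        rintro ⟨h, _⟩
        omega
      rw [if_neg h0, ih (j + 1) (by omega) _ _ (by omega), if_neg hL3, if_neg hR]

theorem word_full (n d : ℕ) (hn : 1 ≤ n) (a : ℕ → M) (σ : Fin n → Fin d) (m : ℕ) (hm : Even m) :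
    (word n (Lt n a) σ m) 0 (Fin.last n) = if ∀ q, (σ q : ℕ) = m then pr n a else 0 := by
  have h := T38_key n d a m hm n 0 (Nat.zero_add n) σ 0 (le_refl _)
  simp only [Nat.add_zero] at h
  rw [show (fun q => Lt n a q) = Lt n a from rfl] at h
  rw [h]
  simp

end H730HC
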