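import Pool.Agent.H730R3.HC.Defs
import Pool.Agent.H730R3.HC.T14
import Pool.Agent.H730R3.HC.T23

set_option autoImplicit false

namespace H730HC

open Finset
open scoped ComplexConjugate

universe u v

variable {M : Type u} [CStarAlgebra M] {τ : M →ₗ[ℂ] ℂ}

attribute [local instance] CStarAlgebra.spectralOrder CStarAlgebra.spectralOrderedRing




theorem t28_word_congr {R : Type*} [Ring R] {d : ℕ} (n : ℕ) : ∀ (L L' : ℕ → R) (σ : Fin n → Fin d),
    (∀ q < n, L q = L' q) → word n L σ = word n L' σ := by
  induction n with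
  | zero => intro L L' σ _; rfl
  | succ n ih =>
    intro L L' σ h
    have h1 : word n (shift L) (fun q => σ q.succ) = word n (shift L') (fun q => σ q.succ) :=
      ih _ _ _ (fun q hq => h (q + 1) (by omega))
    have h0 : L 0 = L' 0 := h 0 (by omega)
    funext m
    simp only [word, h1, h0]

theorem t28_word_update {R : Type*} [Ring R] {d : ℕ} (n : ℕ) : ∀ (L : ℕ → R) (σ : Fin n → Fin d)
    (q : ℕ) (hq : q < n), ∃ W1 W2 : R, ∀ x : R,
      word n (Function.update L q x) σ =
        Function.update (word n L σ) ((σ ⟨q, hq⟩ : Fin d) : ℕ) (W1 * x * W2) := by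
  induction n with
  | zero => intro L σ q hq; omega
  | succ n ih =>
    intro L σ q hq
    rcases q with _ | q
    · have hs : ∀ x : R, shift (Function.update L 0 x) = shift L := fun x => by
        funext k
        simp [shift]
      have h0 : (⟨0, hq⟩ : Fin (n + 1)) = 0 := rfl
      rw [h0]
      by_cases he : Even ((σ 0 : Fin d) : ℕ)
      · refine ⟨1, word n (shift L) (fun q => σ q.succ) (σ 0 : ℕ), fun x => ?_⟩
        funext m
        by_cases hm : ((σ 0 : Fin d) : ℕ) = m
        · subst hm
          simp only [word, hs, if_true, he, Function.update_self, one_mul]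
        · rw [Function.update_of_ne (Ne.symm hm)]
          simp only [word, hs, hm, if_false]
      · refine ⟨-word n (shift L) (fun q => σ q.succ) (σ 0 : ℕ), 1, fun x => ?_⟩
        funext m
        by_cases hm : ((σ 0 : Fin d) : ℕ) = m
        · subst hm
          simp only [word, hs, if_true, he, Function.update_self, mul_one, if_false, neg_mul, mul_neg]
        · rw [Function.update_of_ne (Ne.symm hm)]
          simp only [word, hs, hm, if_false]
    · have hs : ∀ x : R, shift (Function.update L (q + 1) x) = Function.update (shift L) q x := fun x => by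
        funext k
        by_cases hk : k = q
        · subst hk
          simp [shift]
        · rw [Function.update_of_ne hk]
          simp only [shift]
          rw [Function.update_of_ne (by omega)]
      have h0 : ∀ x : R, Function.update L (q + 1) x 0 = L 0 := fun x => by
        rw [Function.update_of_ne (by omega)]
      obtain ⟨W1, W2, hW⟩ := ih (shift L) (fun q => σ q.succ) q (by omega)
      have hsucc : (Fin.succ ⟨q, by omega⟩ : Fin (n + 1)) = ⟨q + 1, hq⟩ := rfl
      simp only [hsucc] at hW
      by_cases hm1 : ((σ 0 : Fin d) : ℕ) = ((σ ⟨q + 1, hq⟩ : Fin d) : ℕ)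
      · by_cases he : Even ((σ ⟨q + 1, hq⟩ : Fin d) : ℕ)
        · refine ⟨L 0 * W1, W2, fun x => ?_⟩
          funext m
          by_cases hm : m = ((σ ⟨q + 1, hq⟩ : Fin d) : ℕ)
          · subst hm
            simp only [word, hs, hW, h0, hm1, he, if_true, Function.update_self, mul_assoc]
          · have hm' : ¬ ((σ 0 : Fin d) : ℕ) = m := fun h => hm (by rw [← h, hm1])
            rw [Function.update_of_ne hm]
            simp only [word, hs, hW, hm', if_false]
            rw [Function.update_of_ne hm]
        · refine ⟨W1, W2 * (-(L 0)), fun x => ?_⟩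
          funext m
          by_cases hm : m = ((σ ⟨q + 1, hq⟩ : Fin d) : ℕ)
          · subst hm
            simp only [word, hs, hW, h0, hm1, he, if_true, if_false, Function.update_self, mul_assoc]
          · have hm' : ¬ ((σ 0 : Fin d) : ℕ) = m := fun h => hm (by rw [← h, hm1])
            rw [Function.update_of_ne hm]
            simp only [word, hs, hW, hm', if_false]
            rw [Function.update_of_ne hm]
      · refine ⟨W1, W2, fun x => ?_⟩
        funext m
        by_cases hm : m = ((σ ⟨q + 1, hq⟩ : Fin d) : ℕ)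
        · subst hm
          simp only [word, hs, hW, h0, hm1, if_false, Function.update_self]
        · rw [Function.update_of_ne hm]
          simp only [word, hs, hW, h0]
          rw [Function.update_of_ne hm]

theorem t28_word_norm {R : Type*} [NormedRing R] {d : ℕ} (n : ℕ) : ∀ (L : ℕ → R) (σ : Fin n → Fin d),
    ∏ m ∈ range d, ‖word n L σ m‖ ≤ ‖(1 : R)‖ ^ d * ∏ q ∈ range n, ‖L q‖ := by
  induction n with
  | zero =>
    intro L σ
    have h : ∀ m : ℕ, word 0 L σ m = 1 := fun m => rfl
    simp only [h, prod_const, card_range, range_zero, prod_empty, mul_one]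
    exact le_rfl
  | succ n ih =>
    intro L σ
    have h1 : ∀ m ∈ range d, ‖word (n + 1) L σ m‖ ≤
        (if ((σ 0 : Fin d) : ℕ) = m then ‖L 0‖ else 1) * ‖word n (shift L) (fun q => σ q.succ) m‖ := by
      intro m _
      by_cases hm : ((σ 0 : Fin d) : ℕ) = m
      · by_cases he : Even m
        · simp only [word, hm, if_true, he]
          exact norm_mul_le _ _
        · simp only [word, hm, if_true, he, if_false]
          refine (norm_mul_le _ _).trans ?_
          rw [norm_neg, mul_comm]
      · simp only [word, hm, if_false, one_mul]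
        exact le_rfl
    refine (prod_le_prod (fun m _ => norm_nonneg _) h1).trans ?_
    rw [prod_mul_distrib, prod_ite_eq, if_pos (mem_range.2 (σ 0).2), prod_range_succ']
    have h2 := mul_le_mul_of_nonneg_left (ih (shift L) (fun q => σ q.succ)) (norm_nonneg (L 0))
    refine h2.trans (le_of_eq ?_)
    have h3 : ∀ q, shift L q = L (q + 1) := fun q => rfl
    simp only [h3]
    ring

theorem t28_Lt_update (n : ℕ) (a : ℕ → M) (k : ℕ) (x : M) :
    Lt n (Function.update a k x) = Function.update (Lt n a) k (Lt n (Function.update a k x) k) := by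
  funext q
  by_cases hq : q = k
  · subst hq
    rw [Function.update_self]
  · rw [Function.update_of_ne hq]
    exact Lt_congr n _ _ q (Function.update_of_ne hq _ _)

theorem IsB_word {n d : ℕ} {Λ : (ℕ → CStarMatrix (Fin (n + 1)) (Fin (n + 1)) M) →
      CStarMatrix (Fin (n + 1)) (Fin (n + 1)) M} (hΛ : IsB d Λ) (σ : Fin n → Fin d) (k l : Fin (n + 1)) :
    IsB n (fun a : ℕ → M => (Λ (word n (Lt n a) σ)) k l) := by
  refine ⟨fun a b h => ?_, fun a q x y hq => ?_, fun a q c x hq => ?_, ?_⟩
  · have h1 : word n (Lt n a) σ = word n (Lt n b) σ :=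
      t28_word_congr n _ _ σ (fun q hq => Lt_congr n a b q (h q hq))
    simp only [h1]
  · obtain ⟨W1, W2, hW⟩ := t28_word_update n (Lt n a) σ q hq
    have e : ∀ z : M, word n (Lt n (Function.update a q z)) σ =
        Function.update (word n (Lt n a) σ) ((σ ⟨q, hq⟩ : Fin d) : ℕ)
          (W1 * Lt n (Function.update a q z) q * W2) := fun z => by
      rw [t28_Lt_update, hW]
      rw [← t28_Lt_update]
    have e2 : W1 * Lt n (Function.update a q (x + y)) q * W2 =
        W1 * Lt n (Function.update a q x) q * W2 + W1 * Lt n (Function.update a q y) q * W2 := by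
      rw [Lt_add, mul_add, add_mul]
    have e3 : Λ (word n (Lt n (Function.update a q (x + y))) σ) =
        Λ (word n (Lt n (Function.update a q x)) σ) + Λ (word n (Lt n (Function.update a q y)) σ) := by
      rw [e, e, e, e2]
      exact hΛ.add _ _ _ _ (σ ⟨q, hq⟩).2
    simp only [e3]
    exact CStarMatrix.add_apply ..
  · obtain ⟨W1, W2, hW⟩ := t28_word_update n (Lt n a) σ q hq
    have e : ∀ z : M, word n (Lt n (Function.update a q z)) σ =
        Function.update (word n (Lt n a) σ) ((σ ⟨q, hq⟩ : Fin d) : ℕ)
          (W1 * Lt n (Function.update a q z) q * W2) := fun z => by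
      rw [t28_Lt_update, hW]
      rw [← t28_Lt_update]
    have e2 : W1 * Lt n (Function.update a q (c • x)) q * W2 =
        c • (W1 * Lt n (Function.update a q x) q * W2) := by
      rw [Lt_smul, mul_smul_comm, smul_mul_assoc]
    have e3 : Λ (word n (Lt n (Function.update a q (c • x))) σ) =
        c • Λ (word n (Lt n (Function.update a q x)) σ) := by
      rw [e, e, e2]
      exact hΛ.smul _ _ _ _ (σ ⟨q, hq⟩).2
    simp only [e3]
    exact CStarMatrix.smul_apply ..
  · obtain ⟨C, hC, hb⟩ := hΛ.bd
    obtain ⟨K, hK, hL⟩ := norm_Lt M n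
    refine ⟨C * (‖(1 : CStarMatrix (Fin (n + 1)) (Fin (n + 1)) M)‖ ^ d * K ^ n), by positivity, fun a => ?_⟩
    have h1 : ‖(Λ (word n (Lt n a) σ)) k l‖ ≤ ‖Λ (word n (Lt n a) σ)‖ := CStarMatrix.norm_entry_le_norm
    have h2 := hb (word n (Lt n a) σ)
    have h3 := t28_word_norm n (Lt n a) σ
    have h4 : ∏ q ∈ range n, ‖Lt n a q‖ ≤ ∏ q ∈ range n, (K * ‖a q‖) :=
      prod_le_prod (fun q _ => norm_nonneg _) (fun q _ => hL a q)
    have h5 : ∏ q ∈ range n, (K * ‖a q‖) = K ^ n * ∏ q ∈ range n, ‖a q‖ := by
      rw [prod_mul_distrib, prod_const, card_range]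
    calc ‖(Λ (word n (Lt n a) σ)) k l‖ ≤ C * ∏ m ∈ range d, ‖word n (Lt n a) σ m‖ := h1.trans h2
      _ ≤ C * (‖(1 : CStarMatrix (Fin (n + 1)) (Fin (n + 1)) M)‖ ^ d * ∏ q ∈ range n, ‖Lt n a q‖) :=
          mul_le_mul_of_nonneg_left h3 hC
      _ ≤ C * (‖(1 : CStarMatrix (Fin (n + 1)) (Fin (n + 1)) M)‖ ^ d * (K ^ n * ∏ q ∈ range n, ‖a q‖)) := by
          refine mul_le_mul_of_nonneg_left (mul_le_mul_of_nonneg_left (h4.trans h5.le) (by positivity)) hC
      _ = C * (‖(1 : CStarMatrix (Fin (n + 1)) (Fin (n + 1)) M)‖ ^ d * K ^ n) * ∏ q ∈ range n, ‖a q‖ := by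
          ring


end H730HC
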