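import Pool.Agent.H730R3.HC.Defs
import Pool.Agent.H730R3.HC.T14
import Pool.Agent.H730R3.HC.T22
import Pool.Agent.H730R3.HC.T23
import Pool.Agent.H730R3.HC.T28
import Pool.Agent.H730R3.HC.T35
import Pool.Agent.H730R3.HC.T36
import Pool.Agent.H730R3.HC.T37
import Pool.Agent.H730R3.HC.T38
import Pool.Agent.H730R3.HC.T39

set_option autoImplicit false

namespace H730HC

open Finset
open scoped ComplexConjugate

universe u v

variable {M : Type u} [CStarAlgebra M] {τ : M →ₗ[ℂ] ℂ}

attribute [local instance] CStarAlgebra.spectralOrder CStarAlgebra.spectralOrderedRing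



theorem SumF_noninj {m d : ℕ} {Λ : (ℕ → CStarMatrix (Fin (m + 1 + 1)) (Fin (m + 1 + 1)) M) →
      CStarMatrix (Fin (m + 1 + 1)) (Fin (m + 1 + 1)) M} (hΛ : IsB d Λ) (σ : Fin (m + 1) → Fin d)
    (hσ : ¬ Function.Injective σ) :
    SumF m 0 (fun a : ℕ → M => (Λ (word (m + 1) (Lt (m + 1) a) σ)) 0 (Fin.last (m + 1))) := by
  have hf : IsB (m + 1)
      (fun a : ℕ → M => (Λ (word (m + 1) (Lt (m + 1) a) σ)) 0 (Fin.last (m + 1))) :=
    IsB_word hΛ σ 0 (Fin.last (m + 1))
  rcases word_gap.{u} (m + 1) σ hσ with ⟨q, hq, h1, h2⟩ | ⟨m0, h0⟩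
  · refine SumF_Mid (q := q) (by omega) hf ?_
    intro a
    have key : word (m + 1) (Lt (m + 1) a) σ = word (m + 1)
        (Lt (m + 1) (Function.update (Function.update a q (a q * a (q + 1))) (q + 1) 1)) σ := by
      funext mm
      refine word_congr_pair (m + 1) _ _ σ q hq ?_ h1 h2 (Lt_pair (m + 1) a q) mm
      intro k hk1 hk2
      apply Lt_congr
      rw [Function.update_of_ne hk2, Function.update_of_ne hk1]
    show (Λ (word (m + 1) (Lt (m + 1) a) σ)) 0 (Fin.last (m + 1)) = _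
    rw [key]
  · have hzero : (fun a : ℕ → M => (Λ (word (m + 1) (Lt (m + 1) a) σ)) 0 (Fin.last (m + 1))) =
        fun _ => (0 : M) := by
      funext a
      have h3 : word (m + 1) (Lt (m + 1) a) σ (m0 : ℕ) = 0 :=
        h0 _ (Lt (m + 1) a) (Lt_mul (m + 1) a)
      have h4 : Λ (word (m + 1) (Lt (m + 1) a) σ) = 0 := by
        have h5 := hΛ.smul (word (m + 1) (Lt (m + 1) a) σ) m0 0 0 m0.2
        have h6 : Function.update (word (m + 1) (Lt (m + 1) a) σ) (m0 : ℕ)
            ((0 : ℂ) • (0 : CStarMatrix (Fin (m + 1 + 1)) (Fin (m + 1 + 1)) M)) =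
            word (m + 1) (Lt (m + 1) a) σ := by
          rw [smul_zero, ← h3, Function.update_eq_self]
        rw [h6, zero_smul] at h5
        exact h5
      rw [h4]
      rfl
    rw [hzero]
    exact SumF_zero m

end H730HC
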