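import Pool.Agent.H730R3.HC.Defs
import Pool.Agent.H730R3.HC.T14
import Pool.Agent.H730R3.HC.T22
import Pool.Agent.H730R3.HC.T23
import Pool.Agent.H730R3.HC.T28
import Pool.Agent.H730R3.HC.T35
import Pool.Agent.H730R3.HC.T36
import Pool.Agent.H730R3.HC.T37
import Pool.Agent.H730R3.HC.T38
import Pool.Agent.H730R3.HC.T39

set_option autoImplicit false

namespace H730HC

open Finset
open scoped ComplexConjugate

universe u v

variable {M : Type u} [CStarAlgebra M] {τ : M →ₗ[ℂ] ℂ}

attribute [local instance] CStarAlgebra.spectralOrder CStarAlgebra.spectralOrderedRing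



theorem T31_word_one {R : Type u} [Ring R] {d : ℕ} (k : ℕ) : ∀ (n : ℕ) (L : ℕ → R)
    (σ : Fin n → Fin d), (∀ q, (σ q : ℕ) ≠ k) → word n L σ k = 1
  | 0, _, _, _ => rfl
  | n + 1, L, σ, h => by
    rw [word, if_neg (h 0)]
    exact T31_word_one k n (shift L) _ (fun q => h q.succ)

theorem T31_shift_zero {R : Type u} (a : ℕ → R) (x : R) :
    shift (Function.update a 0 x) = shift a := by
  funext k
  simp [shift]

theorem T31_shift_succ {R : Type u} (a : ℕ → R) (k : ℕ) (x : R) :
    shift (Function.update a (k + 1) x) = Function.update (shift a) k x := by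
  funext j
  unfold shift
  by_cases h : j = k
  · subst h
    simp
  · rw [Function.update_of_ne (by omega), Function.update_of_ne h]

theorem T31_pr (n : ℕ) : IsB n (fun a : ℕ → M => pr n a) := by
  induction n with
  | zero =>
    refine ⟨fun a b _ => rfl, fun a k x y hk => absurd hk (Nat.not_lt_zero k),
      fun a k c x hk => absurd hk (Nat.not_lt_zero k), ‖(1 : M)‖, norm_nonneg _, fun a => ?_⟩
    simp [pr]
  | succ n ih =>
    obtain ⟨C, hC, hb⟩ := ih.bd
    refine ⟨fun a b h => ?_, fun a k x y hk => ?_, fun a k c x hk => ?_, C, hC, fun a => ?_⟩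
    · simp only [pr]
      have h1 := ih.dep (shift a) (shift b) (fun k hk => h (k + 1) (by omega))
      rw [h 0 (by omega), h1]
    · rcases k with _ | k
      · simp only [pr, T31_shift_zero, Function.update_self, add_mul]
      · have h1 := ih.add (shift a) k x y (by omega)
        simp only [pr, T31_shift_succ]
        rw [h1, mul_add, Function.update_of_ne (by omega), Function.update_of_ne (by omega),
          Function.update_of_ne (by omega)]
    · rcases k with _ | k
      · simp only [pr, T31_shift_zero, Function.update_self, smul_mul_assoc]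
      · have h1 := ih.smul (shift a) k c x (by omega)
        simp only [pr, T31_shift_succ]
        rw [h1, mul_smul_comm, Function.update_of_ne (by omega),
          Function.update_of_ne (by omega)]
    · simp only [pr]
      rw [Finset.prod_range_succ']
      calc ‖a 0 * pr n (shift a)‖ ≤ ‖a 0‖ * ‖pr n (shift a)‖ := norm_mul_le _ _
        _ ≤ ‖a 0‖ * (C * ∏ k ∈ range n, ‖shift a k‖) :=
          mul_le_mul_of_nonneg_left (hb (shift a)) (norm_nonneg _)
        _ = C * ((∏ k ∈ range n, ‖a (k + 1)‖) * ‖a 0‖) := by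
          unfold shift
          ring

theorem SumF_Q {m d : ℕ} {Q : (ℕ → CStarMatrix (Fin (m + 1 + 1)) (Fin (m + 1 + 1)) M) →
      CStarMatrix (Fin (m + 1 + 1)) (Fin (m + 1 + 1)) M} (hd : Even d) (hQ : IsB d Q) (hQc : ∀ X, IsCen (Q X))
    (σ : Fin (m + 1) → Fin (d + 1)) :
    SumF m 0 (fun a : ℕ → M => (Q (word (m + 1) (Lt (m + 1) a) σ) * word (m + 1) (Lt (m + 1) a) σ d) 0
      (Fin.last (m + 1))) := by
  have h1 : ∀ a : ℕ → M, (Q (word (m + 1) (Lt (m + 1) a) σ) *
      word (m + 1) (Lt (m + 1) a) σ d) 0 (Fin.last (m + 1)) =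
      (Q (word (m + 1) (Lt (m + 1) a) σ)) 0 0 *
        (if ∀ q, (σ q : ℕ) = d then pr (m + 1) a else 0) := by
    intro a
    rw [(cen_matrix (m + 1) (by omega) _ (hQc _)).2.2, word_full (m + 1) (d + 1) (by omega) a σ d hd]
  simp only [h1]
  by_cases hσ : ∀ q, (σ q : ℕ) = d
  · simp only [if_pos hσ]
    have h2 : ∀ a : ℕ → M, Q (word (m + 1) (Lt (m + 1) a) σ) = Q (fun _ => 1) := by
      intro a
      apply hQ.dep
      intro k hk
      exact T31_word_one k (m + 1) _ σ (fun q => by rw [hσ q]; omega)
    simp only [h2]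
    obtain ⟨z, hz⟩ : ∃ z : M, z = (Q (fun _ => 1)) 0 0 := ⟨_, rfl⟩
    have hzc : IsCen z := by
      rw [hz]
      exact (cen_matrix (m + 1) (by omega) _ (hQc _)).2.1
    rw [← hz]
    apply SumF_L
    · exact IsB_comp (T31_pr (m + 1)) (ContinuousLinearMap.mul ℂ M z)
    · intro a
      simp only [pr, T31_shift_zero, Function.update_self, one_mul]
      rw [← mul_assoc, hzc (a 0), mul_assoc]
  · simp only [if_neg hσ, mul_zero]
    exact SumF_zero m

end H730HC
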