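import Pool.Agent.H730R3.HC.Defs
import Pool.Agent.H730R3.HC.T14
import Pool.Agent.H730R3.HC.T26

set_option autoImplicit false

namespace H730HC

open Finset
open scoped ComplexConjugate

universe u v

variable {M : Type u} [CStarAlgebra M] {τ : M →ₗ[ℂ] ℂ}

attribute [local instance] CStarAlgebra.spectralOrder CStarAlgebra.spectralOrderedRing



theorem T41_amp_sum {J : ℕ} {ι : Type*} (s : Finset ι) (c : ι → ℂ) : ∀ (n : ℕ) (k l : Fin J)
    (T : ι → (ℕ → M) → M) (X : ℕ → Fin J → Fin J → M),
    amp n k l (fun a => ∑ i ∈ s, c i • T i a) X = ∑ i ∈ s, c i • amp n k l (T i) X := by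
  intro n
  induction n with
  | zero =>
    intro k l T X
    unfold amp
    split_ifs with h
    · rfl
    · simp
  | succ n ih =>
    intro k l T X
    simp only [amp]
    have e : ∀ j : Fin J, amp n j l (fun a => ∑ i ∈ s, c i • T i (cons (X 0 k j) a))
        (fun i => X (i + 1)) = ∑ i ∈ s, c i • amp n j l (fun a => T i (cons (X 0 k j) a))
        (fun i => X (i + 1)) := fun j => ih j l (fun i a => T i (cons (X 0 k j) a)) _
    simp only [e]
    rw [Finset.sum_comm]
    exact Finset.sum_congr rfl (fun i _ => (Finset.smul_sum).symm)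

theorem T41_amp_zero {J : ℕ} : ∀ (n : ℕ) (k l : Fin J) (X : ℕ → Fin J → Fin J → M),
    amp n k l (fun _ => (0 : M)) X = 0 := by
  intro n
  induction n with
  | zero => intro k l X; unfold amp; simp
  | succ n ih =>
    intro k l X
    simp only [amp, ih]
    exact Finset.sum_const_zero

/-- entries as an additive map -/
def T41_ent {J : ℕ} (k l : Fin J) : CStarMatrix (Fin J) (Fin J) M →+ M where
  toFun A := A k l
  map_zero' := rfl
  map_add' _ _ := rfl

theorem ampM_cocycle {m J : ℕ} {T : (ℕ → M) → M} (hT : IsB m T) (hc : ∀ a, dd m T a = 0)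
    (X : ℕ → CStarMatrix (Fin J) (Fin J) M) : dd m (ampM m T) X = 0 := by
  have h1 : dd m (ampM m T) X = ∑ i ∈ range (m + 2), ((-1 : ℂ) ^ i) •
      ampM (m + 1) (face m i T) X := by
    unfold dd
    refine Finset.sum_congr rfl (fun i hi => ?_)
    rw [ampM_face (by rw [mem_range] at hi; omega) hT]
  rw [h1]
  refine CStarMatrix.ext (fun k l => ?_)
  have h2 : (∑ i ∈ range (m + 2), ((-1 : ℂ) ^ i) • ampM (m + 1) (face m i T) X) k l =
      ∑ i ∈ range (m + 2), ((-1 : ℂ) ^ i) • amp (m + 1) k l (face m i T)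
        (fun i p q => X i p q) := by
    have := map_sum (T41_ent (M := M) k l) (fun i => ((-1 : ℂ) ^ i) •
      ampM (m + 1) (face m i T) X) (range (m + 2))
    exact this
  rw [h2, ← T41_amp_sum]
  have h3 : (fun a => ∑ i ∈ range (m + 2), ((-1 : ℂ) ^ i) • face m i T a) = fun _ => (0 : M) := by
    funext a
    exact hc a
  rw [h3, T41_amp_zero]
  rfl

end H730HC
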