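import Pool.Agent.H730R3.HC.Defs
import Pool.Agent.H730R3.HC.T14
import Pool.Agent.H730R3.HC.T18
import Pool.Agent.H730R3.HC.T21
import Pool.Agent.H730R3.HC.T22
import Pool.Agent.H730R3.HC.T23
import Pool.Agent.H730R3.HC.T24
import Pool.Agent.H730R3.HC.T25
import Pool.Agent.H730R3.HC.T26
import Pool.Agent.H730R3.HC.T27
import Pool.Agent.H730R3.HC.T29
import Pool.Agent.H730R3.HC.T30
import Pool.Agent.H730R3.HC.T31
import Pool.Agent.H730R3.HC.T35
import Pool.Agent.H730R3.HC.T36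
import Pool.Agent.H730R3.HC.T37
import Pool.Agent.H730R3.HC.T38
import Pool.Agent.H730R3.HC.T39
import Pool.Agent.H730R3.HC.T41

set_option autoImplicit false

namespace H730HC

open Finset
open scoped ComplexConjugate

universe u v

variable {M : Type u} [CStarAlgebra M] {τ : M →ₗ[ℂ] ℂ}

attribute [local instance] CStarAlgebra.spectralOrder CStarAlgebra.spectralOrderedRing



theorem T32_congr {m : ℕ} {f g : (ℕ → M) → M} (hf : SumF m 0 f) (h : ∀ a, g a = f a) : SumF m 0 g := by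
  obtain ⟨w, hw, hs⟩ := hf
  exact ⟨w, hw, fun a => by rw [h a, hs a]⟩

theorem T32_entry_sum {J : ℕ} {ι : Type*} (s : Finset ι) (f : ι → CStarMatrix (Fin J) (Fin J) M)
    (k l : Fin J) : (∑ r ∈ s, f r) k l = ∑ r ∈ s, (f r) k l := by
  classical
  induction s using Finset.induction_on with
  | empty => simp [CStarMatrix.zero_apply]
  | insert a s ha ih => rw [Finset.sum_insert ha, Finset.sum_insert ha, CStarMatrix.add_apply, ih]

/-- the terms attached to the amplification of `T` -/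
theorem T32_F {m : ℕ} {T : (ℕ → M) → M} (hT : IsB (m + 1) T) :
    SumF m 0 (fun a : ℕ → M =>
      (∑ σ : Fin (m + 1) → Fin (m + 1),
        (ampM (J := m + 1 + 1) (m + 1) T (word (m + 1) (Lt (m + 1) a) σ)) 0 (Fin.last (m + 1)))
        - ((-1 : ℂ) ^ ((m + 1) / 2)) • T a) := by
  classical
  have h1 : SumF m 0 (fun a : ℕ → M =>
      ∑ σ ∈ (univ : Finset (Fin (m + 1) → Fin (m + 1))).filter (fun σ => ¬ Function.Injective σ),
        (ampM (J := m + 1 + 1) (m + 1) T (word (m + 1) (Lt (m + 1) a) σ)) 0 (Fin.last (m + 1))) := by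
    refine SumF_sum _ fun σ hσ => ?_
    exact SumF_noninj (IsB_ampM hT) σ (Finset.mem_filter.1 hσ).2
  refine T32_congr h1 fun a => ?_
  rw [← Finset.sum_filter_add_sum_filter_not univ (fun σ : Fin (m + 1) → Fin (m + 1) =>
    Function.Injective σ)]
  have h2 : ∑ σ ∈ (univ : Finset (Fin (m + 1) → Fin (m + 1))).filter (fun σ => Function.Injective σ),
      (ampM (J := m + 1 + 1) (m + 1) T (word (m + 1) (Lt (m + 1) a) σ)) 0 (Fin.last (m + 1))
      = ((-1 : ℂ) ^ ((m + 1) / 2)) • T a := by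
    rw [Finset.sum_congr rfl (fun σ hσ => ampM_word hT a σ (Finset.mem_filter.1 hσ).2)]
    rw [Finset.sum_eq_single (fun q => q)]
    · simp
    · intro σ _ hne
      rw [if_neg]
      intro h
      exact hne (funext h)
    · intro h
      exact absurd (Finset.mem_filter.2 ⟨Finset.mem_univ _, fun x y hxy => hxy⟩) h
  rw [h2]
  abel

theorem T32_face {m i : ℕ} (hi : i ≤ m + 1) {P : (ℕ → CStarMatrix (Fin (m + 1 + 1)) (Fin (m + 1 + 1)) M) →
      CStarMatrix (Fin (m + 1 + 1)) (Fin (m + 1 + 1)) M} (hP : IsB m P) :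
    SumF m 0 (fun a : ℕ → M =>
      ∑ σ : Fin (m + 1) → Fin (m + 1),
        ((((-1 : ℂ) ^ i) • face m i P (word (m + 1) (Lt (m + 1) a) σ)) :
          CStarMatrix (Fin (m + 1 + 1)) (Fin (m + 1 + 1)) M) 0 (Fin.last (m + 1))) := by
  refine SumF_sum _ fun σ _ => ?_
  refine T32_congr (SumF_smul ((-1 : ℂ) ^ i) (?_ : SumF m 0 (fun a : ℕ → M =>
    (face m i P (word (m + 1) (Lt (m + 1) a) σ)) 0 (Fin.last (m + 1))))) fun a => ?_
  · by_cases hσ : Function.Injective σ
    · exact SumF_face hi hP σ hσ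
    · exact SumF_noninj (IsB_face hi hP) σ hσ
  · rw [CStarMatrix.smul_apply]

/-- the degrees -/
def T32_d (m e : ℕ) : ℕ → ℕ
  | 0 => m + 1
  | 1 => e
  | _ + 2 => m + 1

/-- the family of terms -/
noncomputable def T32_L {N : Type u} [Ring N] [Algebra ℂ N] (m : ℕ) (F q : (ℕ → N) → N)
    (P : ℕ → (ℕ → N) → N) : ℕ → (ℕ → N) → N
  | 0 => F
  | 1 => fun X => (-1 : ℂ) • q X
  | i + 2 => fun X => ((-1 : ℂ) ^ i) • face m i (P i) X

theorem T32_core {m : ℕ} {T : (ℕ → M) → M} (hT : IsB (m + 1) T)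
    (P : ℕ → (ℕ → CStarMatrix (Fin (m + 1 + 1)) (Fin (m + 1 + 1)) M) →
      CStarMatrix (Fin (m + 1 + 1)) (Fin (m + 1 + 1)) M) (hP : ∀ i, IsB m (P i)) (e : ℕ)
    (q : (ℕ → CStarMatrix (Fin (m + 1 + 1)) (Fin (m + 1 + 1)) M) →
      CStarMatrix (Fin (m + 1 + 1)) (Fin (m + 1 + 1)) M) (hq : IsB e q)
    (hqS : ∀ σ : Fin (m + 1) → Fin e, SumF m 0 (fun a : ℕ → M =>
      (q (word (m + 1) (Lt (m + 1) a) σ)) 0 (Fin.last (m + 1))))
    (h0 : ∀ g : unitary (CStarMatrix (Fin (m + 1 + 1)) (Fin (m + 1 + 1)) M),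
      ampM (m + 1) T (al (g : CStarMatrix (Fin (m + 1 + 1)) (Fin (m + 1 + 1)) M)) =
        q (al (g : CStarMatrix (Fin (m + 1 + 1)) (Fin (m + 1 + 1)) M)) -
          ∑ i ∈ range (m + 2), ((-1 : ℂ) ^ i) •
            face m i (P i) (al (g : CStarMatrix (Fin (m + 1 + 1)) (Fin (m + 1 + 1)) M))) :
    SumF m 0 T := by
  have hB : ∀ r ∈ range (m + 4), IsB (T32_d m e r) (T32_L m (ampM (m + 1) T) q P r) := by
    intro r hr
    rw [Finset.mem_range] at hr
    match r, hr with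
    | 0, _ => exact IsB_ampM hT
    | 1, _ => exact IsB_smul (-1 : ℂ) hq
    | i + 2, hr => exact IsB_smul ((-1 : ℂ) ^ i) (IsB_face (by omega) (hP i))
  have hS : ∀ g : unitary (CStarMatrix (Fin (m + 1 + 1)) (Fin (m + 1 + 1)) M),
      ∑ r ∈ range (m + 4), T32_L m (ampM (m + 1) T) q P r
        (al (g : CStarMatrix (Fin (m + 1 + 1)) (Fin (m + 1 + 1)) M)) = 0 := by
    intro g
    rw [Finset.sum_range_succ', Finset.sum_range_succ']
    have h1 := h0 g
    have h2 : ∑ i ∈ range (m + 2), T32_L m (ampM (m + 1) T) q P (i + 1 + 1)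
        (al (g : CStarMatrix (Fin (m + 1 + 1)) (Fin (m + 1 + 1)) M)) =
        ∑ i ∈ range (m + 2), ((-1 : ℂ) ^ i) •
            face m i (P i) (al (g : CStarMatrix (Fin (m + 1 + 1)) (Fin (m + 1 + 1)) M)) :=
      Finset.sum_congr rfl fun i _ => rfl
    have h3 : T32_L m (ampM (m + 1) T) q P (0 + 1)
        (al (g : CStarMatrix (Fin (m + 1 + 1)) (Fin (m + 1 + 1)) M)) =
        -(q (al (g : CStarMatrix (Fin (m + 1 + 1)) (Fin (m + 1 + 1)) M))) := by
      show (-1 : ℂ) • q (al (g : CStarMatrix (Fin (m + 1 + 1)) (Fin (m + 1 + 1)) M)) = _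
      rw [neg_smul, one_smul]
    have h4 : T32_L m (ampM (m + 1) T) q P 0
        (al (g : CStarMatrix (Fin (m + 1 + 1)) (Fin (m + 1 + 1)) M)) =
        ampM (m + 1) T (al (g : CStarMatrix (Fin (m + 1 + 1)) (Fin (m + 1 + 1)) M)) := rfl
    rw [h2, h3, h4, h1]
    abel
  have hpol : ∀ a : ℕ → M, ∑ r ∈ range (m + 4), ∑ σ : Fin (m + 1) → Fin (T32_d m e r),
      (T32_L m (ampM (m + 1) T) q P r (word (m + 1) (Lt (m + 1) a) σ)) 0 (Fin.last (m + 1)) = 0 := by
    intro a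
    have h := pol (range (m + 4)) (T32_d m e) (T32_L m (ampM (m + 1) T) q P) hB hS (m + 1)
      (Lt (m + 1) a)
    have h' := congrArg (fun Y : CStarMatrix (Fin (m + 1 + 1)) (Fin (m + 1 + 1)) M =>
      Y 0 (Fin.last (m + 1))) h
    simp only [T32_entry_sum, CStarMatrix.zero_apply] at h'
    exact h'
  have hfa : ∀ i ∈ range (m + 2), SumF m 0 (fun a : ℕ → M =>
      ∑ σ : Fin (m + 1) → Fin (m + 1),
        ((((-1 : ℂ) ^ i) • face m i (P i) (word (m + 1) (Lt (m + 1) a) σ)) :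
          CStarMatrix (Fin (m + 1 + 1)) (Fin (m + 1 + 1)) M) 0 (Fin.last (m + 1))) := by
    intro i hi
    rw [Finset.mem_range] at hi
    exact T32_face (by omega) (hP i)
  have hfs := SumF_sum (range (m + 2)) hfa
  have hqs : SumF m 0 (fun a : ℕ → M => ∑ σ : Fin (m + 1) → Fin e,
      (q (word (m + 1) (Lt (m + 1) a) σ)) 0 (Fin.last (m + 1))) := SumF_sum _ fun σ _ => hqS σ
  have hF := T32_F hT
  have htot := SumF_smul (-((-1 : ℂ) ^ ((m + 1) / 2)))
    (SumF_add (SumF_add hF (SumF_smul (-1 : ℂ) hqs)) hfs)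
  refine T32_congr htot fun a => ?_
  have h := hpol a
  rw [Finset.sum_range_succ', Finset.sum_range_succ'] at h
  have h3 : ∑ σ : Fin (m + 1) → Fin (T32_d m e (0 + 1)),
      (T32_L m (ampM (m + 1) T) q P (0 + 1) (word (m + 1) (Lt (m + 1) a) σ)) 0 (Fin.last (m + 1))
      = (-1 : ℂ) • ∑ σ : Fin (m + 1) → Fin e,
        (q (word (m + 1) (Lt (m + 1) a) σ)) 0 (Fin.last (m + 1)) := by
    rw [Finset.smul_sum]
    refine Finset.sum_congr rfl fun σ _ => ?_
    show ((-1 : ℂ) • q (word (m + 1) (Lt (m + 1) a) σ)) 0 (Fin.last (m + 1)) = _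
    rw [CStarMatrix.smul_apply]
    rfl
  rw [h3] at h
  have h2 : ∑ i ∈ range (m + 2), ∑ σ : Fin (m + 1) → Fin (T32_d m e (i + 1 + 1)),
      (T32_L m (ampM (m + 1) T) q P (i + 1 + 1) (word (m + 1) (Lt (m + 1) a) σ)) 0
        (Fin.last (m + 1)) =
      ∑ i ∈ range (m + 2), ∑ σ : Fin (m + 1) → Fin (m + 1),
        ((((-1 : ℂ) ^ i) • face m i (P i) (word (m + 1) (Lt (m + 1) a) σ)) :
          CStarMatrix (Fin (m + 1 + 1)) (Fin (m + 1 + 1)) M) 0 (Fin.last (m + 1)) := rfl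
  rw [h2] at h
  have h4 : ∑ σ : Fin (m + 1) → Fin (T32_d m e 0),
      (T32_L m (ampM (m + 1) T) q P 0 (word (m + 1) (Lt (m + 1) a) σ)) 0 (Fin.last (m + 1)) =
      ∑ σ : Fin (m + 1) → Fin (m + 1),
        (ampM (J := m + 1 + 1) (m + 1) T (word (m + 1) (Lt (m + 1) a) σ)) 0 (Fin.last (m + 1)) := rfl
  rw [h4] at h
  set A1 := ∑ i ∈ range (m + 2), ∑ σ : Fin (m + 1) → Fin (m + 1),
        ((((-1 : ℂ) ^ i) • face m i (P i) (word (m + 1) (Lt (m + 1) a) σ)) :
          CStarMatrix (Fin (m + 1 + 1)) (Fin (m + 1 + 1)) M) 0 (Fin.last (m + 1)) with hA1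
  set A2 := ∑ σ : Fin (m + 1) → Fin e,
        (q (word (m + 1) (Lt (m + 1) a) σ)) 0 (Fin.last (m + 1)) with hA2
  set A3 := ∑ σ : Fin (m + 1) → Fin (m + 1),
        (ampM (J := m + 1 + 1) (m + 1) T (word (m + 1) (Lt (m + 1) a) σ)) 0 (Fin.last (m + 1)) with hA3
  have h5 : A3 - ((-1 : ℂ) ^ ((m + 1) / 2)) • T a + (-1 : ℂ) • A2 + A1 =
      -(((-1 : ℂ) ^ ((m + 1) / 2)) • T a) := by
    have h6 : A3 - ((-1 : ℂ) ^ ((m + 1) / 2)) • T a + (-1 : ℂ) • A2 + A1 =
      (A1 + (-1 : ℂ) • A2 + A3) - ((-1 : ℂ) ^ ((m + 1) / 2)) • T a := by abel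
    rw [h6, h, zero_sub]
  rw [h5, neg_smul, smul_neg, neg_neg, smul_smul, ← mul_pow]
  norm_num

theorem T32_mulB {N : Type u} [CStarAlgebra N] {n : ℕ} {Q : (ℕ → N) → N} (hQ : IsB n Q) :
    IsB (n + 1) (fun X => Q X * X n) := by
  obtain ⟨hdep, hadd, hsmul, C, hC, hbd⟩ := hQ
  refine ⟨?_, ?_, ?_, C, hC, ?_⟩
  · intro a b h
    show Q a * a n = Q b * b n
    rw [hdep a b fun k hk => h k (by omega), h n (by omega)]
  · intro a k x y hk
    show Q (Function.update a k (x + y)) * Function.update a k (x + y) n = _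
    rcases Nat.lt_or_ge k n with h | h
    · rw [hadd a k x y h, add_mul]
      simp only [Function.update_of_ne (show n ≠ k by omega)]
    · have hkn : k = n := by omega
      subst hkn
      have hu : ∀ z : N, Q (Function.update a k z) = Q a := fun z =>
        hdep _ _ fun i hi => by rw [Function.update_of_ne (show i ≠ k by omega)]
      simp only [hu, Function.update_self, mul_add]
  · intro a k c x hk
    show Q (Function.update a k (c • x)) * Function.update a k (c • x) n = _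
    rcases Nat.lt_or_ge k n with h | h
    · rw [hsmul a k c x h, smul_mul_assoc]
      simp only [Function.update_of_ne (show n ≠ k by omega)]
    · have hkn : k = n := by omega
      subst hkn
      have hu : ∀ z : N, Q (Function.update a k z) = Q a := fun z =>
        hdep _ _ fun i hi => by rw [Function.update_of_ne (show i ≠ k by omega)]
      simp only [hu, Function.update_self, mul_smul_comm]
  · intro a
    rw [Finset.prod_range_succ]
    calc ‖Q a * a n‖ ≤ ‖Q a‖ * ‖a n‖ := norm_mul_le _ _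
      _ ≤ (C * ∏ k ∈ range n, ‖a k‖) * ‖a n‖ := mul_le_mul_of_nonneg_right (hbd a) (norm_nonneg _)
      _ = C * ((∏ k ∈ range n, ‖a k‖) * ‖a n‖) := by ring

theorem main_sum (hτ : IsTracial M τ) (m : ℕ) (T : (ℕ → M) → M) (hT : IsB (m + 1) T)
    (hc : ∀ a, dd (m + 1) T a = 0) : SumF m 0 T := by
  obtain ⟨P, Q, hP, hQc, h⟩ := key (tracial_matrix hτ (m + 1)) m (ampM (m + 1) T) (IsB_ampM hT)
    (ampM_cocycle hT hc)
  rcases h with ⟨_, hQ, hg⟩ | ⟨hodd, hQ, hg⟩
  · refine T32_core hT P hP (m + 1) Q hQ (fun σ => ?_) hg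
    refine T32_congr (SumF_zero m) fun a => ?_
    exact (cen_matrix (m + 1) (by omega) _ (hQc _)).1
  · have hev : Even (m + 2) := by
      rcases hodd with ⟨k, hk⟩
      exact ⟨k + 1, by omega⟩
    refine T32_core hT P hP (m + 2 + 1) (fun X => Q X * X (m + 2)) (T32_mulB hQ) (fun σ => ?_) ?_
    · exact SumF_Q hev hQ hQc σ
    · intro g
      rw [hg g]
      have hal : al (g : CStarMatrix (Fin (m + 1 + 1)) (Fin (m + 1 + 1)) M) (m + 2) = g := by
        show (if Even (m + 2) then _ else _) = _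
        rw [if_pos hev]
      show _ = Q _ * al (g : CStarMatrix (Fin (m + 1 + 1)) (Fin (m + 1 + 1)) M) (m + 2) - _
      rw [hal]

end H730HC
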