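import Pool.Agent.H730R3.HC.T15
import Pool.Agent.H730R3.HC.T32
import Pool.Agent.H730R3.HC.T33

set_option autoImplicit false

namespace H730HC

/-- vanishing of the Hochschild cohomology of a tracial algebra, in the format of the frozen statement -/
theorem final (M : Type) [CStarAlgebra M] (τ : M →ₗ[ℂ] ℂ) (hτ : IsTracial M τ) (n : ℕ)
    (φ : ContinuousMultilinearMap ℂ (fun _ : Fin (n + 1) => M) M)
    (hφ : ∀ a : Fin (n + 2) → M,
        a 0 * φ (Fin.tail a)
          + ∑ i : Fin (n + 1), (-1 : ℂ) ^ (i.val + 1) •
              φ (fun j : Fin (n + 1) =>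
                if j < i then a j.castSucc
                else if j = i then a j.castSucc * a j.succ
                else a j.succ)
          + (-1 : ℂ) ^ (n + 2) • (φ (Fin.init a) * a (Fin.last (n + 1))) = 0) :
      ∃ ψ : ContinuousMultilinearMap ℂ (fun _ : Fin n => M) M,
        ∀ a : Fin (n + 1) → M,
          φ a = a 0 * ψ (Fin.tail a)
            + ∑ i : Fin n, (-1 : ℂ) ^ (i.val + 1) •
                ψ (fun j : Fin n =>
                  if j < i then a j.castSucc
                  else if j = i then a j.castSucc * a j.succ
                  else a j.succ)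
            + (-1 : ℂ) ^ (n + 1) • (ψ (Fin.init a) * a (Fin.last n)) :=
  transfer n (fun T hT hc => sumF_exact n T hT hc (main_sum hτ n T hT hc)) φ hφ

end H730HC
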