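import Pool.Agent.H730R3.HC.Defs

set_option autoImplicit false

namespace H730HC

open Finset
open scoped ComplexConjugate

universe u v

variable {M : Type u} [CStarAlgebra M] {τ : M →ₗ[ℂ] ℂ}



theorem T13_mu_mu {R : Type u} [Ring R] (i j : ℕ) (hi : 1 ≤ i) (hij : i < j) (a : ℕ → R) :
    mu (i - 1) (mu (j - 1) a) = mu (j - 2) (mu (i - 1) a) := by
  obtain ⟨p, rfl⟩ : ∃ p, i = p + 1 := ⟨i - 1, by omega⟩
  obtain ⟨q, rfl⟩ : ∃ q, j = p + 2 + q := ⟨j - (p + 2), by omega⟩
  have e1 : p + 1 - 1 = p := by omega
  have e2 : p + 2 + q - 1 = p + 1 + q := by omega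
  have e3 : p + 2 + q - 2 = p + q := by omega
  rw [e1, e2, e3]
  funext k
  unfold mu
  rcases lt_trichotomy k p with hk | hk | hk
  · have h1 : k < p + q := by omega
    have h2 : k < p + 1 + q := by omega
    simp only [if_pos hk, if_pos h1, if_pos h2]
  · subst hk
    rcases Nat.eq_zero_or_pos q with hq | hq
    · subst hq
      simp [mul_assoc]
    · have h1 : k < k + q := by omega
      have h2 : k < k + 1 + q := by omega
      have h3 : k + 1 < k + 1 + q := by omega
      simp [h1, h2, h3]
  · have h0 : ¬ k < p := by omega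
    have h0' : k ≠ p := by omega
    rcases lt_trichotomy k (p + q) with h | h | h
    · have h1 : k + 1 < p + 1 + q := by omega
      simp [h0, h0', h, h1]
    · subst h
      have h1 : ¬ (p + q + 1 < p + 1 + q) := by omega
      have h2 : p + q + 1 = p + 1 + q := by omega
      have h3 : ¬ (p + q < p) := by omega
      have h4 : ¬ (p + q + 1 < p) := by omega
      have h5 : p + q + 1 ≠ p := by omega
      simp only [if_neg h0, if_neg h0', if_neg h1, if_pos h2, if_neg h4, if_neg h5, lt_irrefl,
        if_false, if_true]
      rw [← h2]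
    · have h1 : ¬ (k + 1 < p + 1 + q) := by omega
      have h2 : k + 1 ≠ p + 1 + q := by omega
      have h3 : ¬ (k < p + q) := by omega
      have h4 : k ≠ p + q := by omega
      have h5 : ¬ (k + 1 < p) := by omega
      have h6 : k + 1 ≠ p := by omega
      simp only [if_neg h0, if_neg h0', if_neg h1, if_neg h2, if_neg h3, if_neg h4, if_neg h5,
        if_neg h6]

theorem T13_shift_mu {R : Type u} [Ring R] (j : ℕ) (hj : 2 ≤ j) (a : ℕ → R) :
    shift (mu (j - 1) a) = mu (j - 2) (shift a) := by
  obtain ⟨q, rfl⟩ : ∃ q, j = q + 2 := ⟨j - 2, by omega⟩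
  have e1 : q + 2 - 1 = q + 1 := by omega
  have e2 : q + 2 - 2 = q := by omega
  rw [e1, e2]
  funext k
  unfold shift mu
  by_cases h : k < q
  · have h1 : k + 1 < q + 1 := by omega
    rw [if_pos h, if_pos h1]
  · have h1 : ¬ (k + 1 < q + 1) := by omega
    rw [if_neg h, if_neg h1]
    by_cases h2 : k = q
    · subst h2
      rw [if_pos rfl, if_pos rfl]
    · have h3 : k + 1 ≠ q + 1 := by omega
      rw [if_neg h2, if_neg h3]

theorem T13_shift_mu0 {R : Type u} [Ring R] (a : ℕ → R) :
    shift (mu 0 a) = shift (shift a) := by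
  funext k
  unfold shift mu
  simp

theorem face_face {R : Type u} [Ring R] (m i j : ℕ) (hij : i < j) (hj : j ≤ m + 2)
    (f : (ℕ → R) → R) (hf : ∀ a b, (∀ k < m, a k = b k) → f a = f b) (a : ℕ → R) :
    face (m + 1) j (face m i f) a = face (m + 1) i (face m (j - 1) f) a := by
  have hj0 : j ≠ 0 := by omega
  rcases Nat.eq_zero_or_pos i with hi | hi
  · subst hi
    by_cases hA : j ≤ m + 1
    · have e1 : face (m + 1) j (face m 0 f) a =
          (mu (j - 1) a) 0 * f (shift (mu (j - 1) a)) := by
        simp [face, hj0, hA]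
      rw [e1]
      by_cases hj1 : j = 1
      · subst hj1
        have e2 : face (m + 1) 0 (face m (1 - 1) f) a =
            a 0 * ((shift a) 0 * f (shift (shift a))) := by
          simp [face]
        rw [e2]
        have e3 : (1 : ℕ) - 1 = 0 := rfl
        rw [e3, T13_shift_mu0]
        have e4 : (mu 0 a) 0 = a 0 * a 1 := by simp [mu]
        have e5 : (shift a) 0 = a 1 := by simp [shift]
        rw [e4, e5, mul_assoc]
      · have hj2 : 2 ≤ j := by omega
        have h1 : j - 1 ≠ 0 := by omega
        have h2 : j - 1 ≤ m := by omega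
        have e2 : face (m + 1) 0 (face m (j - 1) f) a = a 0 * f (mu (j - 1 - 1) (shift a)) := by
          simp [face, h1, h2]
        rw [e2, T13_shift_mu j hj2]
        have e3 : j - 1 - 1 = j - 2 := by omega
        have e4 : (mu (j - 1) a) 0 = a 0 := by
          have : 0 < j - 1 := by omega
          simp [mu, this]
        rw [e3, e4]
    · have h2 : ¬ (j - 1 ≤ m) := by omega
      have h1 : j - 1 ≠ 0 := by omega
      have e1 : face (m + 1) j (face m 0 f) a = a 0 * f (shift a) * a (m + 1) := by
        simp [face, hj0, hA]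
      have e2 : face (m + 1) 0 (face m (j - 1) f) a = a 0 * (f (shift a) * (shift a) m) := by
        simp only [face, if_true, if_neg h1, if_neg h2]
      rw [e1, e2]
      have e3 : (shift a) m = a (m + 1) := by simp [shift]
      rw [e3, mul_assoc]
  · have hi0 : i ≠ 0 := by omega
    have him : i ≤ m + 1 := by omega
    have h1 : j - 1 ≠ 0 := by omega
    by_cases hA : j ≤ m + 1
    · have h2 : j - 1 ≤ m := by omega
      have h3 : i ≤ m := by omega
      have e1 : face (m + 1) j (face m i f) a = f (mu (i - 1) (mu (j - 1) a)) := by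
        simp only [face, if_neg hj0, if_pos hA, if_neg hi0, if_pos h3]
      have e2 : face (m + 1) i (face m (j - 1) f) a = f (mu (j - 1 - 1) (mu (i - 1) a)) := by
        simp only [face, if_neg hi0, if_pos him, if_neg h1, if_pos h2]
      rw [e1, e2, T13_mu_mu i j hi hij]
      have e3 : j - 1 - 1 = j - 2 := by omega
      rw [e3]
    · have h2 : ¬ (j - 1 ≤ m) := by omega
      have e2 : face (m + 1) i (face m (j - 1) f) a =
          f (mu (i - 1) a) * (mu (i - 1) a) m := by
        simp only [face, if_neg hi0, if_pos him, if_neg h1, if_neg h2]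
      rw [e2]
      by_cases h3 : i ≤ m
      · have e1 : face (m + 1) j (face m i f) a = f (mu (i - 1) a) * a (m + 1) := by
          simp only [face, if_neg hj0, if_neg hA, if_neg hi0, if_pos h3]
        rw [e1]
        have e3 : (mu (i - 1) a) m = a (m + 1) := by
          have h4 : ¬ (m < i - 1) := by omega
          have h5 : m ≠ i - 1 := by omega
          simp only [mu, if_neg h4, if_neg h5]
        rw [e3]
      · have him' : i = m + 1 := by omega
        subst him'
        have e1 : face (m + 1) j (face m (m + 1) f) a = f a * a m * a (m + 1) := by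
          simp only [face, if_neg hj0, if_neg hA, if_neg hi0, if_neg h3]
        rw [e1]
        have e4 : m + 1 - 1 = m := by omega
        rw [e4]
        have e5 : (mu m a) m = a m * a (m + 1) := by simp [mu]
        have e6 : f (mu m a) = f a := by
          apply hf
          intro k hk
          simp only [mu, if_pos hk]
        rw [e5, e6, mul_assoc]

end H730HC
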