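import Mathlib

set_option autoImplicit false

namespace H730HC

open Finset
open scoped ComplexConjugate

universe u v

/-! ### tracial algebras -/

/-- squared 2-norm -/
noncomputable def sq {M : Type u} [CStarAlgebra M] (τ : M →ₗ[ℂ] ℂ) (x : M) : ℝ := (τ (star x * x)).re

/-- `τ` is a faithful tracial state on the C*-algebra `M` and the unit ball of `M` is complete for the
2-norm of `τ`. -/
structure IsTracial (M : Type u) [CStarAlgebra M] (τ : M →ₗ[ℂ] ℂ) : Prop where
  one : τ 1 = 1
  comm : ∀ x y, τ (x * y) = τ (y * x)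
  nonneg : ∀ x, 0 ≤ (τ (star x * x)).re
  real : ∀ x, (τ (star x * x)).im = 0
  faithful : ∀ x, (τ (star x * x)).re = 0 → x = 0
  complete : ∀ x : ℕ → M, (∀ k, ‖x k‖ ≤ 1) →
    (∀ ε > 0, ∃ K, ∀ k ≥ K, ∀ l ≥ K, (τ (star (x k - x l) * (x k - x l))).re ≤ ε) →
    ∃ y : M, ‖y‖ ≤ 1 ∧ ∀ ε > 0, ∃ K, ∀ k ≥ K, (τ (star (x k - y) * (x k - y))).re ≤ ε

/-- central elements -/
def IsCen {M : Type u} [Mul M] (z : M) : Prop := ∀ y : M, z * y = y * z

open Classical in
/-- the centre-valued trace -/
noncomputable def Ez {M : Type u} [CStarAlgebra M] (τ : M →ₗ[ℂ] ℂ) (x : M) : M :=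
  if h : ∃ z : M, IsCen z ∧ ∀ c : M, IsCen c → τ (z * c) = τ (x * c) then h.choose else 0

/-- `x - Ez x` -/
noncomputable def perp {M : Type u} [CStarAlgebra M] (τ : M →ₗ[ℂ] ℂ) (x : M) : M := x - Ez τ x

/-! ### means -/

/-- bounded real function -/
def Bdd {I : Type v} (f : I → ℝ) : Prop := ∃ C : ℝ, ∀ i, |f i| ≤ C

/-- finitely additive means, as functionals on bounded functions -/
structure IsMean {I : Type v} (m : (I → ℝ) → ℝ) : Prop where
  add : ∀ f g, Bdd f → Bdd g → m (fun i => f i + g i) = m f + m g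
  smul : ∀ (c : ℝ) f, Bdd f → m (fun i => c * f i) = c * m f
  mono : ∀ f g, Bdd f → Bdd g → (∀ i, f i ≤ g i) → m f ≤ m g
  const : ∀ c : ℝ, m (fun _ => c) = c

open Classical in
/-- the mean of a bounded function with values in a tracial algebra -/
noncomputable def EE {M : Type u} [CStarAlgebra M] (τ : M →ₗ[ℂ] ℂ) {I : Type v}
    (m : (I → ℝ) → ℝ) (f : I → M) : M :=
  if h : ∃ x : M, ∀ y : M, (τ (x * y)).re = m (fun i => (τ (f i * y)).re) then h.choose else 0

/-- limit along an ultrafilter -/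
noncomputable def ulim {κ : Type v} (F : Ultrafilter κ) (x : κ → ℝ) : ℝ :=
  Classical.epsilon fun y => Filter.Tendsto x (F : Filter κ) (nhds y)

/-- distribution of a product of `r` random conjugates of elements of `G` -/
noncomputable def nu {U : Type v} [Group U] (G : Finset U) (m0 : (U → ℝ) → ℝ) :
    ℕ → (U → ℝ) → ℝ
  | 0, f => f 1
  | r + 1, f => (∑ g ∈ G, m0 (fun v => nu G m0 r (fun A => f (v * g * v⁻¹ * A)))) / (G.card : ℝ)

/-- distribution of (left part, right part) around the `k`-th letter -/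
noncomputable def Er {U : Type v} [Group U] (G : Finset U) (m0 : (U → ℝ) → ℝ) :
    ℕ → ℕ → (U × U → ℝ) → ℝ
  | 0, _, f => f (1, 1)
  | r + 1, 0, f => m0 (fun v => nu G m0 r (fun A => f (v, v⁻¹ * A)))
  | r + 1, k + 1, f =>
      (∑ g ∈ G, m0 (fun v => Er G m0 r k (fun p => f (v * g * v⁻¹ * p.1, p.2)))) / (G.card : ℝ)

/-! ### cochains on sequences -/

/-- shift -/
def shift {R : Type u} (a : ℕ → R) : ℕ → R := fun k => a (k + 1)

/-- prepend -/
def cons {R : Type u} (x : R) (a : ℕ → R) : ℕ → R := fun k => if k = 0 then x else a (k - 1)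

/-- multiply the entries `i` and `i+1` -/
def mu {R : Type u} [Mul R] (i : ℕ) (a : ℕ → R) : ℕ → R :=
  fun k => if k < i then a k else if k = i then a i * a (i + 1) else a (k + 1)

/-- insert `x` at place `j` -/
def ins {R : Type u} (j : ℕ) (x : R) (a : ℕ → R) : ℕ → R :=
  fun k => if k < j then a k else if k = j then x else a (k - 1)

/-- the faces of an `m`-cochain, `i = 0, …, m+1` -/
def face {R : Type u} [Mul R] (m i : ℕ) (f : (ℕ → R) → R) : (ℕ → R) → R :=
  fun a => if i = 0 then a 0 * f (shift a) else if i ≤ m then f (mu (i - 1) a) else f a * a m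

/-- Hochschild coboundary of an `m`-cochain -/
noncomputable def dd {R : Type u} [Ring R] [Algebra ℂ R] (m : ℕ) (f : (ℕ → R) → R) :
    (ℕ → R) → R :=
  fun a => ∑ i ∈ range (m + 2), ((-1 : ℂ) ^ i) • face m i f a

/-- bounded `m`-linear functions of the first `m` entries -/
structure IsB {A : Type u} {B : Type v} [NormedRing A] [NormedAlgebra ℂ A] [NormedAddCommGroup B]
    [NormedSpace ℂ B] (m : ℕ) (f : (ℕ → A) → B) : Prop where
  dep : ∀ a b : ℕ → A, (∀ k < m, a k = b k) → f a = f b
  add : ∀ (a : ℕ → A) (k : ℕ) (x y : A), k < m →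
    f (Function.update a k (x + y)) = f (Function.update a k x) + f (Function.update a k y)
  smul : ∀ (a : ℕ → A) (k : ℕ) (c : ℂ) (x : A), k < m →
    f (Function.update a k (c • x)) = c • f (Function.update a k x)
  bd : ∃ C : ℝ, 0 ≤ C ∧ ∀ a : ℕ → A, ‖f a‖ ≤ C * ∏ k ∈ range m, ‖a k‖

/-- sums of faces of bounded `m`-cochains, starting at `k` -/
def SumF {A : Type u} [NormedRing A] [NormedAlgebra ℂ A] (m k : ℕ) (T : (ℕ → A) → A) : Prop :=
  ∃ h : ℕ → (ℕ → A) → A, (∀ i, IsB m (h i)) ∧ ∀ a, T a = ∑ i ∈ Ico k (m + 2), face m i (h i) a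

/-! ### the prism operators -/

/-- `s_0 F(t_k a_k s_{k+1}) t_n` -/
def cj {R : Type u} [Mul R] (n : ℕ) (s t : ℕ → R) (F : (ℕ → R) → R) (a : ℕ → R) : R :=
  s 0 * F (fun k => t k * a k * s (k + 1)) * t n

/-- omit the entry `i` -/
def om {R : Type u} (i : ℕ) (s : ℕ → R) : ℕ → R := fun k => if k < i then s k else s (k + 1)

/-- prism operator -/
noncomputable def Pr {R : Type u} [Ring R] [Algebra ℂ R] (n : ℕ) (s t : ℕ → R) (F : (ℕ → R) → R)
    (a : ℕ → R) : R :=
  ∑ m ∈ range n, ((-1 : ℂ) ^ m) •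
    (F (fun k => if k < m then a k else if k = m then s m else t (k - 1) * a (k - 1) * s k)
      * t (n - 1))

/-- alternating sequence -/
def alt {R : Type u} (x y : R) : ℕ → R := fun k => if Even k then x else y

/-- the sequence `g, g*, g, …` -/
def al {R : Type u} [Star R] (g : R) : ℕ → R := alt g (star g)

/-! ### amplification -/

/-- sum over paths from `k` to `l` of `T (X_0 (k, i_1), X_1 (i_1, i_2), …)` -/
def amp {M : Type u} [AddCommMonoid M] {J : ℕ} : ℕ → Fin J → Fin J → ((ℕ → M) → M) →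
    (ℕ → Fin J → Fin J → M) → M
  | 0, k, l, T, _ => if k = l then T (fun _ => 0) else 0
  | n + 1, k, l, T, X => ∑ j, amp n j l (fun a => T (cons (X 0 k j) a)) (fun i => X (i + 1))

/-- amplification, with values in the matrix algebra -/
noncomputable def ampM {M : Type u} [AddCommMonoid M] {J : ℕ} (n : ℕ) (T : (ℕ → M) → M) :
    (ℕ → CStarMatrix (Fin J) (Fin J) M) → CStarMatrix (Fin J) (Fin J) M :=
  fun X => CStarMatrix.ofMatrix (Matrix.of fun k l => amp n k l T (fun i p q => X i p q))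

/-- normalized trace on matrices -/
noncomputable def tauM {M : Type u} [CStarAlgebra M] (J : ℕ) (τ : M →ₗ[ℂ] ℂ) :
    CStarMatrix (Fin J) (Fin J) M →ₗ[ℂ] ℂ where
  toFun x := (J : ℂ)⁻¹ * ∑ k, τ (x k k)
  map_add' x y := by
    rw [← mul_add, ← Finset.sum_add_distrib]
    congr 1
    exact Finset.sum_congr rfl fun k _ => by rw [CStarMatrix.add_apply, map_add]
  map_smul' c x := by
    have h : ∀ k, τ ((c • x) k k) = c * τ (x k k) := fun k => by
      rw [CStarMatrix.smul_apply, map_smul, smul_eq_mul]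
    simp only [h, ← Finset.mul_sum, RingHom.id_apply, smul_eq_mul]
    ring

/-- matrix with a single entry -/
noncomputable def single {M : Type u} [CStarAlgebra M] {J : ℕ} (k l : Fin J) (x : M) :
    CStarMatrix (Fin J) (Fin J) M :=
  CStarMatrix.ofMatrix (Matrix.of fun p q => if p = k ∧ q = l then x else 0)

/-! ### polarisation -/

/-- derivative in the direction `h` -/
noncomputable def ds {A : Type u} {B : Type v} [Ring A] [AddCommGroup B] (d : ℕ) (h : A)
    (Λ : (ℕ → A) → B) : (ℕ → A) → B :=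
  fun X => ∑ m ∈ range d, Λ (Function.update X m (if Even m then X m * h else -(h * X m)))

/-- iterated derivatives in the directions `L 0, …, L (n-1)` -/
noncomputable def dn {A : Type u} {B : Type v} [Ring A] [AddCommGroup B] (d : ℕ) : ℕ → (ℕ → A) →
    ((ℕ → A) → B) → (ℕ → A) → B
  | 0, _, Λ => Λ
  | n + 1, L, Λ => ds d (L 0) (dn d n (shift L) Λ)

/-- the ordered product `a_0 ⋯ a_{n-1}` -/
def pr {R : Type u} [Monoid R] : ℕ → (ℕ → R) → R
  | 0, _ => 1
  | n + 1, a => a 0 * pr n (shift a)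

/-- words: even slots collect their letters in increasing order, odd slots collect the negatives of their
letters in decreasing order -/
def word {R : Type u} [Ring R] {d : ℕ} : (n : ℕ) → (ℕ → R) → (Fin n → Fin d) → ℕ → R
  | 0, _, _, _ => 1
  | n + 1, L, σ, m =>
      if (σ 0 : ℕ) = m then
        (if Even m then L 0 * word n (shift L) (fun q => σ q.succ) m
          else word n (shift L) (fun q => σ q.succ) m * (-(L 0)))
      else word n (shift L) (fun q => σ q.succ) m

/-- the letters `a_q E_{q,q+1}` -/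
noncomputable def Lt {M : Type u} [CStarAlgebra M] (n : ℕ) (a : ℕ → M) (q : ℕ) :
    CStarMatrix (Fin (n + 1)) (Fin (n + 1)) M :=
  CStarMatrix.ofMatrix (Matrix.of fun p r : Fin (n + 1) => if (p : ℕ) = q ∧ (r : ℕ) = q + 1 then a q else 0)

end H730HC
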