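import Pool.Agent.H730R3.HC.Defs
import Pool.Agent.H730R3.HC.T13
import Pool.Agent.H730R3.HC.T14
import Pool.Agent.H730R3.HC.T39
import Pool.Agent.H730R3.HC.T40

set_option autoImplicit false

namespace H730HC

open Finset
open scoped ComplexConjugate

universe u v

variable {M : Type u} [CStarAlgebra M] {τ : M →ₗ[ℂ] ℂ}



section T15aux
variable {R : Type u} [Ring R]

theorem T15_face_eq (m i : ℕ) (f : (ℕ → R) → R) (a : ℕ → R) :
    face m i f a = (if i = 0 then a 0 else 1) *
      f (if i = 0 then shift a else if i ≤ m then mu (i - 1) a else a) *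
      (if i = 0 then 1 else if i ≤ m then 1 else a m) := by
  unfold face
  split_ifs <;> simp

theorem T15_face_add (m i : ℕ) (f g : (ℕ → R) → R) (a : ℕ → R) :
    face m i (fun b => f b + g b) a = face m i f a + face m i g a := by
  simp only [T15_face_eq, mul_add, add_mul]

theorem T15_face_sub (m i : ℕ) (f g : (ℕ → R) → R) (a : ℕ → R) :
    face m i (fun b => f b - g b) a = face m i f a - face m i g a := by
  simp only [T15_face_eq, mul_sub, sub_mul]

theorem T15_face_smul [Algebra ℂ R] (m i : ℕ) (c : ℂ) (f : (ℕ → R) → R) (a : ℕ → R) :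
    face m i (fun b => c • f b) a = c • face m i f a := by
  simp only [T15_face_eq, mul_smul_comm, smul_mul_assoc]

theorem T15_face_sum (m i : ℕ) (s : Finset ℕ) (f : ℕ → (ℕ → R) → R) (a : ℕ → R) :
    face m i (fun b => ∑ j ∈ s, f j b) a = ∑ j ∈ s, face m i (f j) a := by
  simp only [T15_face_eq, Finset.mul_sum, Finset.sum_mul]

theorem T15_face_zero (m i : ℕ) (a : ℕ → R) : face m i (fun _ => (0 : R)) a = 0 := by
  simp only [T15_face_eq, mul_zero, zero_mul]

theorem T15_dd_sub [Algebra ℂ R] (m : ℕ) (c : ℂ) (f g : (ℕ → R) → R) (a : ℕ → R) :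
    dd m (fun b => f b - c • g b) a = dd m f a - c • dd m g a := by
  unfold dd
  rw [Finset.smul_sum, ← Finset.sum_sub_distrib]
  refine Finset.sum_congr rfl fun i _ => ?_
  rw [T15_face_sub, T15_face_smul, smul_sub, smul_comm]

theorem T15_dd_add [Algebra ℂ R] (m : ℕ) (c : ℂ) (f g : (ℕ → R) → R) (a : ℕ → R) :
    dd m (fun b => f b + c • g b) a = dd m f a + c • dd m g a := by
  unfold dd
  rw [Finset.smul_sum, ← Finset.sum_add_distrib]
  refine Finset.sum_congr rfl fun i _ => ?_
  rw [T15_face_add, T15_face_smul, smul_add, smul_comm]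

/-- `s_j d_{j+1} = id` -/
theorem T15_sb (m j : ℕ) (hj : j ≤ m) (f : (ℕ → R) → R)
    (hf : ∀ a b : ℕ → R, (∀ k < m, a k = b k) → f a = f b) (a : ℕ → R) :
    face m (j + 1) f (ins j 1 a) = f a := by
  unfold face
  rw [if_neg (Nat.succ_ne_zero j)]
  by_cases h : j + 1 ≤ m
  · rw [if_pos h]
    congr 1
    funext k
    simp only [mu, ins, Nat.add_sub_cancel]
    rcases lt_trichotomy k j with h1 | h1 | h1
    · simp [h1]
    · subst h1; simp
    · have h2 : ¬ k < j := by omega
      have h3 : ¬ k = j := by omega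
      have h4 : ¬ k + 1 < j := by omega
      have h5 : ¬ k + 1 = j := by omega
      simp [h2, h3, h4, h5]
  · rw [if_neg h]
    have hjm : j = m := by omega
    subst hjm
    have h1 : ins j 1 a j = 1 := by simp [ins]
    rw [h1, mul_one]
    refine hf _ _ fun k hk => ?_
    simp [ins, hk]

/-- `s_j d_j = id` -/
theorem T15_sa (m j : ℕ) (hj : j ≤ m) (f : (ℕ → R) → R) (a : ℕ → R) :
    face m j f (ins j 1 a) = f a := by
  unfold face
  by_cases h0 : j = 0
  · subst h0
    rw [if_pos rfl]
    have h1 : shift (ins 0 1 a) = a := by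
      funext k
      simp [shift, ins]
    rw [h1]
    simp [ins]
  · rw [if_neg h0, if_pos hj]
    congr 1
    funext k
    simp only [mu, ins]
    rcases lt_trichotomy k (j - 1) with h1 | h1 | h1
    · have h2 : k < j := by omega
      simp [h1, h2]
    · have h2 : ¬ k < j - 1 := by omega
      have h3 : j - 1 < j := by omega
      have h4 : j - 1 + 1 = j := by omega
      subst h1
      simp [h3, h4]
    · have h2 : ¬ k < j - 1 := by omega
      have h3 : ¬ k = j - 1 := by omega
      have h4 : ¬ k + 1 < j := by omega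
      have h5 : ¬ k + 1 = j := by omega
      simp [h2, h3, h4, h5]

/-- `s_j d_i = d_i s_{j-1}`, `i < j` -/
theorem T15_sc (m i j : ℕ) (hij : i < j) (hj : j ≤ m + 1) (f : (ℕ → R) → R) (a : ℕ → R) :
    face (m + 1) i f (ins j 1 a) = face m i (fun b => f (ins (j - 1) 1 b)) a := by
  unfold face
  by_cases h0 : i = 0
  · subst h0
    rw [if_pos rfl, if_pos rfl]
    have h1 : shift (ins j 1 a) = ins (j - 1) 1 (shift a) := by
      funext k
      simp only [shift, ins]
      rcases lt_trichotomy k (j - 1) with h1 | h1 | h1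
      · have h2 : k + 1 < j := by omega
        simp [h1, h2]
      · have h2 : ¬ k + 1 < j := by omega
        have h3 : k + 1 = j := by omega
        have h4 : ¬ k < j - 1 := by omega
        rw [if_neg h2, if_pos h3, if_neg h4, if_pos h1]
      · have h2 : ¬ k < j - 1 := by omega
        have h3 : ¬ k = j - 1 := by omega
        have h4 : ¬ k + 1 < j := by omega
        have h5 : ¬ k + 1 = j := by omega
        have h6 : k - 1 + 1 = k := by omega
        simp [h2, h3, h4, h5, h6]
    have h2 : ins j 1 a 0 = a 0 := by simp [ins, hij]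
    rw [h1, h2]
  · rw [if_neg h0, if_neg h0, if_pos (show i ≤ m + 1 by omega), if_pos (show i ≤ m by omega)]
    congr 1
    funext k
    simp only [mu, ins]
    by_cases h1 : k < i - 1
    · have e1 : k < j := by omega
      have e2 : k < j - 1 := by omega
      simp [h1, e1, e2]
    · by_cases h2 : k = i - 1
      · have e1 : i - 1 < j := by omega
        have e2 : i - 1 + 1 < j := by omega
        have e3 : i - 1 < j - 1 := by omega
        subst h2
        simp [e1, e2, e3]
      · by_cases h3 : k + 1 < j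
        · have e1 : k < j - 1 := by omega
          simp [h1, h2, h3, e1]
        · by_cases h4 : k + 1 = j
          · have e1 : ¬ k < j - 1 := by omega
            have e2 : k = j - 1 := by omega
            have e3 : ¬ j - 1 < i - 1 := by omega
            have e4 : ¬ j - 1 = i - 1 := by omega
            have e5 : j - 1 + 1 = j := by omega
            subst e2
            simp [e3, e4, e5]
          · have e1 : ¬ k < j - 1 := by omega
            have e2 : ¬ k = j - 1 := by omega
            have e3 : ¬ k - 1 < i - 1 := by omega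
            have e4 : ¬ k - 1 = i - 1 := by omega
            have e5 : k - 1 + 1 = k := by omega
            simp [h1, h2, h3, h4, e1, e2, e3, e4, e5]

/-- `s_j d_i = d_{i-1} s_j`, `i > j + 1` -/
theorem T15_sd (m i j : ℕ) (hij : j + 1 < i) (hi : i ≤ m + 2) (f : (ℕ → R) → R) (a : ℕ → R) :
    face (m + 1) i f (ins j 1 a) = face m (i - 1) (fun b => f (ins j 1 b)) a := by
  unfold face
  have h0 : ¬ i = 0 := by omega
  have h0' : ¬ i - 1 = 0 := by omega
  rw [if_neg h0, if_neg h0']
  by_cases h : i ≤ m + 1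
  · rw [if_pos h, if_pos (show i - 1 ≤ m by omega)]
    congr 1
    funext k
    simp only [mu, ins]
    by_cases h1 : k < j
    · have e1 : k < i - 1 := by omega
      have e2 : k < i - 1 - 1 := by omega
      simp [h1, e1, e2]
    · by_cases h2 : k = j
      · have e1 : j < i - 1 := by omega
        subst h2
        simp [e1]
      · by_cases h3 : k < i - 1
        · have e1 : k - 1 < i - 1 - 1 := by omega
          simp [h1, h2, h3, e1]
        · by_cases h4 : k = i - 1
          · have e1 : ¬ i - 1 < j := by omega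
            have e2 : ¬ i - 1 = j := by omega
            have e3 : ¬ i - 1 + 1 < j := by omega
            have e4 : ¬ i - 1 + 1 = j := by omega
            have e5 : i - 1 - 1 + 1 = i - 1 := by omega
            subst h4
            simp [e1, e2, e3, e4, e5]
          · have e1 : ¬ k + 1 < j := by omega
            have e2 : ¬ k + 1 = j := by omega
            have e3 : ¬ k - 1 < i - 1 - 1 := by omega
            have e4 : ¬ k - 1 = i - 1 - 1 := by omega
            have e5 : k - 1 + 1 = k := by omega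
            simp [h1, h2, h3, h4, e1, e2, e3, e4, e5]
  · have hi' : i = m + 2 := by omega
    subst hi'
    rw [if_neg h, if_neg (show ¬ m + 2 - 1 ≤ m by omega)]
    congr 1
    have e1 : ¬ m + 1 < j := by omega
    have e2 : ¬ m + 1 = j := by omega
    simp [ins, e1, e2]

end T15aux

section T15main
variable {A : Type u} [NormedRing A] [NormedAlgebra ℂ A]

theorem T15_step (m k : ℕ) (hk1 : 1 ≤ k) (hk : k ≤ m + 1) (T : (ℕ → A) → A)
    (hT : IsB (m + 1) T) (hc : ∀ a, dd (m + 1) T a = 0) (h : SumF m k T) :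
    SumF m (k + 1) (fun a => T a - ((-1 : ℂ) ^ k) • dd m (fun b => T (ins (k - 1) 1 b)) a) := by
  obtain ⟨h, hB, hsum⟩ := h
  -- the three functions
  have hσB : IsB m (fun b => T (ins (k - 1) 1 b)) := IsB_ins (by omega) hT 1
  -- E1
  have E1 : ∀ a, ∑ i ∈ range k, ((-1 : ℂ) ^ i) • face m i (fun b => T (ins (k - 1) 1 b)) a =
      ∑ i ∈ Ico (k + 1) (m + 2), ((-1 : ℂ) ^ i) • face m i (fun b => T (ins k 1 b)) a := by
    intro a
    have h1 := hc (ins k 1 a)
    unfold dd at h1
    rw [Finset.range_eq_Ico, ← Finset.sum_Ico_consecutive _ (Nat.zero_le k)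
      (show k ≤ m + 1 + 2 by omega), Finset.sum_eq_sum_Ico_succ_bot (show k < m + 1 + 2 by omega),
      Finset.sum_eq_sum_Ico_succ_bot (show k + 1 < m + 1 + 2 by omega)] at h1
    rw [T15_sa (m + 1) k (by omega), T15_sb (m + 1) k (by omega) T hT.dep] at h1
    have h2 : ∑ i ∈ Ico 0 k, ((-1 : ℂ) ^ i) • face (m + 1) i T (ins k 1 a) =
        ∑ i ∈ range k, ((-1 : ℂ) ^ i) • face m i (fun b => T (ins (k - 1) 1 b)) a := by
      rw [Finset.range_eq_Ico]
      refine Finset.sum_congr rfl fun i hi => ?_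
      rw [T15_sc m i k (Finset.mem_Ico.1 hi).2 hk]
    have h3 : ∑ i ∈ Ico (k + 1 + 1) (m + 1 + 2), ((-1 : ℂ) ^ i) • face (m + 1) i T (ins k 1 a) =
        - ∑ i ∈ Ico (k + 1) (m + 2), ((-1 : ℂ) ^ i) • face m i (fun b => T (ins k 1 b)) a := by
      rw [show m + 1 + 2 = m + 2 + 1 by ring, ← Finset.sum_Ico_add' _ (k + 1) (m + 2) 1,
        ← Finset.sum_neg_distrib]
      refine Finset.sum_congr rfl fun i hi => ?_
      have hi' := Finset.mem_Ico.1 hi
      rw [T15_sd m (i + 1) k (by omega) (by omega), Nat.add_sub_cancel, pow_succ, mul_neg_one,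
        neg_smul]
    rw [h2, h3] at h1
    have h4 : ((-1 : ℂ) ^ k) • T a + (((-1 : ℂ) ^ (k + 1)) • T a) = 0 := by
      rw [pow_succ, mul_neg_one, neg_smul, add_neg_cancel]
    have h5 : ∀ x y z : A, x + (((-1 : ℂ) ^ k) • T a + (((-1 : ℂ) ^ (k + 1)) • T a + -y)) = z →
        x - y = z := by
      intro x y z hz
      rw [← hz, ← add_assoc (((-1 : ℂ) ^ k) • T a), h4, zero_add, sub_eq_add_neg]
    exact sub_eq_zero.1 (h5 _ _ _ h1)
  -- E3
  have E3 : ∀ a, face m k (fun b => T (ins (k - 1) 1 b)) a = face m k (h k) a +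
      ∑ i ∈ Ico (k + 1) (m + 2),
        face m i (face (m - 1) k (fun b' => h i (ins (k - 1) 1 b'))) a := by
    intro a
    have E2 : (fun b => T (ins (k - 1) 1 b)) = fun b => h k b +
        ∑ i ∈ Ico (k + 1) (m + 2), face (m - 1) (i - 1) (fun b' => h i (ins (k - 1) 1 b')) b := by
      funext b
      rw [hsum, Finset.sum_eq_sum_Ico_succ_bot (show k < m + 2 by omega)]
      congr 1
      · have := T15_sb m (k - 1) (by omega) (h k) (hB k).dep b
        rwa [show k - 1 + 1 = k by omega] at this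
      · refine Finset.sum_congr rfl fun i hi => ?_
        have hi' := Finset.mem_Ico.1 hi
        obtain ⟨m', rfl⟩ : ∃ m', m = m' + 1 := ⟨m - 1, by omega⟩
        rw [T15_sd m' i (k - 1) (by omega) (by omega), Nat.add_sub_cancel]
    rw [E2, T15_face_add, T15_face_sum]
    congr 1
    refine Finset.sum_congr rfl fun i hi => ?_
    have hi' := Finset.mem_Ico.1 hi
    obtain ⟨m', rfl⟩ : ∃ m', m = m' + 1 := ⟨m - 1, by omega⟩
    rw [Nat.add_sub_cancel]
    have hBi : IsB m' (fun b' => h i (ins (k - 1) 1 b')) := IsB_ins (by omega) (hB i) 1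
    exact (face_face m' k i (by omega) (by omega) _ hBi.dep a).symm
  -- conclusion
  refine ⟨fun i => if k < i ∧ i ≤ m + 1 then (fun a => h i a +
      ((-((-1 : ℂ) ^ k * (-1 : ℂ) ^ i)) • (T (ins k 1 a) + T (ins (k - 1) 1 a)) +
      (-1 : ℂ) • face (m - 1) k (fun b' => h i (ins (k - 1) 1 b')) a)) else fun _ => 0, ?_, ?_⟩
  · intro i
    by_cases hi : k < i ∧ i ≤ m + 1
    · simp only [if_pos hi]
      obtain ⟨m', rfl⟩ : ∃ m', m = m' + 1 := ⟨m - 1, by omega⟩
      rw [Nat.add_sub_cancel]
      have hBi : IsB m' (fun b' => h i (ins (k - 1) 1 b')) := IsB_ins (by omega) (hB i) 1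
      exact IsB_add (hB i) (IsB_add (IsB_smul _ (IsB_add (IsB_ins (by omega) hT 1) hσB))
        (IsB_smul _ (IsB_face (by omega) hBi)))
    · simp only [if_neg hi]
      exact IsB_zero m
  · intro a
    have h6 : ∀ i ∈ Ico (k + 1) (m + 2),
        face m i (if k < i ∧ i ≤ m + 1 then (fun a => h i a +
          ((-((-1 : ℂ) ^ k * (-1 : ℂ) ^ i)) • (T (ins k 1 a) + T (ins (k - 1) 1 a)) +
          (-1 : ℂ) • face (m - 1) k (fun b' => h i (ins (k - 1) 1 b')) a)) else fun _ => 0) a =
        face m i (h i) a + (-(((-1 : ℂ) ^ k) • (((-1 : ℂ) ^ i) •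
          face m i (fun b => T (ins k 1 b)) a)) + -(((-1 : ℂ) ^ k) • (((-1 : ℂ) ^ i) •
          face m i (fun b => T (ins (k - 1) 1 b)) a)) +
          - face m i (face (m - 1) k (fun b' => h i (ins (k - 1) 1 b'))) a) := by
      intro i hi
      have hi' := Finset.mem_Ico.1 hi
      rw [if_pos (show k < i ∧ i ≤ m + 1 by omega), T15_face_add, T15_face_add, T15_face_smul,
        T15_face_add, T15_face_smul, neg_smul, neg_smul, one_smul, smul_add, neg_add, mul_smul,
        mul_smul]
    rw [Finset.sum_congr rfl h6]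
    rw [Finset.sum_add_distrib, Finset.sum_add_distrib, Finset.sum_add_distrib,
      Finset.sum_neg_distrib, Finset.sum_neg_distrib, Finset.sum_neg_distrib, ← Finset.smul_sum,
      ← Finset.smul_sum, ← E1 a]
    have h7 : dd m (fun b => T (ins (k - 1) 1 b)) a =
        ∑ i ∈ range k, ((-1 : ℂ) ^ i) • face m i (fun b => T (ins (k - 1) 1 b)) a +
        (((-1 : ℂ) ^ k) • face m k (fun b => T (ins (k - 1) 1 b)) a +
        ∑ i ∈ Ico (k + 1) (m + 2), ((-1 : ℂ) ^ i) •
          face m i (fun b => T (ins (k - 1) 1 b)) a) := by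
      unfold dd
      rw [Finset.range_eq_Ico, Finset.range_eq_Ico, ← Finset.sum_Ico_consecutive _ (Nat.zero_le k)
        (show k ≤ m + 2 by omega), Finset.sum_eq_sum_Ico_succ_bot (show k < m + 2 by omega)]
    have h8 : ((-1 : ℂ) ^ k) • (((-1 : ℂ) ^ k) • face m k (fun b => T (ins (k - 1) 1 b)) a) =
        face m k (fun b => T (ins (k - 1) 1 b)) a := by
      rw [← mul_smul, ← mul_pow, neg_one_mul, neg_neg, one_pow, one_smul]
    have h9 : T a = face m k (h k) a + ∑ i ∈ Ico (k + 1) (m + 2), face m i (h i) a := by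
      rw [hsum, Finset.sum_eq_sum_Ico_succ_bot (show k < m + 2 by omega)]
    show T a - ((-1 : ℂ) ^ k) • dd m (fun b => T (ins (k - 1) 1 b)) a = _
    rw [h7, smul_add, smul_add, h8, E3 a, h9]
    abel

theorem T15_ind (m : ℕ) (e : ℕ) : ∀ k, 1 ≤ k → k + e = m + 2 → ∀ T : (ℕ → A) → A,
    IsB (m + 1) T → (∀ a, dd (m + 1) T a = 0) → SumF m k T →
    ∃ S : (ℕ → A) → A, IsB m S ∧ ∀ a, T a = dd m S a := by
  induction e with
  | zero =>
    intro k hk1 hk T hT hc hs
    obtain ⟨h, -, hsum⟩ := hs
    refine ⟨fun _ => 0, IsB_zero m, fun a => ?_⟩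
    rw [hsum, Finset.Ico_eq_empty (by omega), Finset.sum_empty]
    unfold dd
    simp [T15_face_zero]
  | succ e ih =>
    intro k hk1 hk T hT hc hs
    have hσB : IsB m (fun b => T (ins (k - 1) 1 b)) := IsB_ins (by omega) hT 1
    have h1 := T15_step m k hk1 (by omega) T hT hc hs
    have hB : IsB (m + 1) (fun a => T a - ((-1 : ℂ) ^ k) •
        dd m (fun b => T (ins (k - 1) 1 b)) a) := by
      have h2 := IsB_add hT (IsB_smul (-((-1 : ℂ) ^ k)) (IsB_dd hσB))
      have h3 : (fun a => T a + (-((-1 : ℂ) ^ k)) • dd m (fun b => T (ins (k - 1) 1 b)) a) =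
          fun a => T a - ((-1 : ℂ) ^ k) • dd m (fun b => T (ins (k - 1) 1 b)) a := by
        funext a
        rw [neg_smul, sub_eq_add_neg]
      rwa [h3] at h2
    have hcyc : ∀ a, dd (m + 1) (fun a => T a - ((-1 : ℂ) ^ k) •
        dd m (fun b => T (ins (k - 1) 1 b)) a) a = 0 := by
      intro a
      rw [T15_dd_sub, hc, dd_dd m _ hσB.dep, smul_zero, sub_zero]
    obtain ⟨S, hS, hS2⟩ := ih (k + 1) (by omega) (by omega) _ hB hcyc h1
    refine ⟨fun a => S a + ((-1 : ℂ) ^ k) • T (ins (k - 1) 1 a), IsB_add hS (IsB_smul _ hσB),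
      fun a => ?_⟩
    rw [T15_dd_add, ← hS2]
    abel

end T15main

theorem sumF_exact {A : Type u} [NormedRing A] [NormedAlgebra ℂ A] (m : ℕ) (T : (ℕ → A) → A)
    (hT : IsB (m + 1) T) (hc : ∀ a, dd (m + 1) T a = 0) (h : SumF m 0 T) :
    ∃ S : (ℕ → A) → A, IsB m S ∧ ∀ a, T a = dd m S a := by
  obtain ⟨h, hB, hsum⟩ := h
  have hB' : IsB (m + 1) (fun a => T a - (1 : ℂ) • dd m (h 0) a) := by
    have h2 := IsB_add hT (IsB_smul (-(1 : ℂ)) (IsB_dd (hB 0)))
    have h3 : (fun a => T a + (-(1 : ℂ)) • dd m (h 0) a) =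
        fun a => T a - (1 : ℂ) • dd m (h 0) a := by
      funext a
      rw [neg_smul, sub_eq_add_neg]
    rwa [h3] at h2
  have hcyc : ∀ a, dd (m + 1) (fun a => T a - (1 : ℂ) • dd m (h 0) a) a = 0 := by
    intro a
    rw [T15_dd_sub, hc, dd_dd m _ (hB 0).dep, smul_zero, sub_zero]
  have hS1 : SumF m 1 (fun a => T a - (1 : ℂ) • dd m (h 0) a) := by
    refine ⟨fun i a => h i a + (-((-1 : ℂ) ^ i)) • h 0 a, fun i => IsB_add (hB i)
      (IsB_smul _ (hB 0)), fun a => ?_⟩
    have h6 : ∀ i ∈ Ico 1 (m + 2), face m i (fun a => h i a + (-((-1 : ℂ) ^ i)) • h 0 a) a =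
        face m i (h i) a + -(((-1 : ℂ) ^ i) • face m i (h 0) a) := by
      intro i _
      rw [T15_face_add, T15_face_smul, neg_smul]
    show T a - (1 : ℂ) • dd m (h 0) a = _
    rw [Finset.sum_congr rfl h6, Finset.sum_add_distrib, Finset.sum_neg_distrib, hsum,
      Finset.sum_eq_sum_Ico_succ_bot (show 0 < m + 2 by omega)]
    have h7 : dd m (h 0) a = face m 0 (h 0) a +
        ∑ i ∈ Ico 1 (m + 2), ((-1 : ℂ) ^ i) • face m i (h 0) a := by
      unfold dd
      rw [Finset.range_eq_Ico, Finset.sum_eq_sum_Ico_succ_bot (show 0 < m + 2 by omega), pow_zero,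
        one_smul]
    rw [h7, one_smul]
    simp only [zero_add]
    abel
  obtain ⟨S, hS, hS2⟩ := T15_ind m (m + 1) 1 le_rfl (by omega) _ hB' hcyc hS1
  refine ⟨fun a => S a + (1 : ℂ) • h 0 a, IsB_add hS (IsB_smul _ (hB 0)), fun a => ?_⟩
  rw [T15_dd_add, ← hS2]
  abel

end H730HC
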